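import Mathlib

namespace Pool.Agent.Work.MP_37ce0f_lc.A

/-- The spine `(j, false)`, `j < m`, where two vertices are adjacent if their indices differ by
at most 3, and one leaf `(j, true)` at each spine vertex. -/
def G (m : ℕ) : SimpleGraph (Fin m × Bool) := SimpleGraph.fromRel fun x y =>
  (x.2 = false ∧ y.2 = false ∧ x.1.val < y.1.val ∧ y.1.val ≤ x.1.val + 3) ∨
  (x.1 = y.1 ∧ x.2 = false ∧ y.2 = true)

/-- A grid point as a point of the plane. -/
def toR (p : ℤ × ℤ) : ℝ × ℝ := ((p.1 : ℝ), (p.2 : ℝ))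

/-- Planarity of the straight-line drawing `p`: distinct vertices get distinct points, an edge
passes through no vertex except its ends, two different edges meet only in vertices. -/
def Planar {X : Type} (H : SimpleGraph X) (p : X → ℤ × ℤ) : Prop :=
  Function.Injective p ∧
  (∀ u v w, H.Adj u v → toR (p w) ∈ segment ℝ (toR (p u)) (toR (p v)) → w = u ∨ w = v) ∧
  ∀ u v x y, H.Adj u v → H.Adj x y → s(u, v) ≠ s(x, y) →
    ∀ q ∈ segment ℝ (toR (p u)) (toR (p v)), q ∈ segment ℝ (toR (p x)) (toR (p y)) →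
      ∃ w, q = toR (p w)

/-- Any two vertices are joined by a path such that some vector has positive scalar product
with every edge of the path, oriented from `u` to `v`. -/
def IsMono {X : Type} (H : SimpleGraph X) (p : X → ℤ × ℤ) : Prop :=
  ∀ u v, ∃ w : H.Walk u v, w.IsPath ∧ ∃ d : ℝ × ℝ, ∀ e ∈ w.darts,
    0 < d.1 * (((p e.snd).1 : ℝ) - (p e.fst).1) + d.2 * (((p e.snd).2 : ℝ) - (p e.fst).2)

/-- All vertices lie in an axis-parallel box of width `W` and height `H`. -/
def InBox {X : Type} (p : X → ℤ × ℤ) (W H : ℕ) : Prop :=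
  ∃ x₀ y₀ : ℤ, ∀ v, x₀ ≤ (p v).1 ∧ (p v).1 ≤ x₀ + W ∧ y₀ ≤ (p v).2 ∧ (p v).2 ≤ y₀ + H

end Pool.Agent.Work.MP_37ce0f_lc.A
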