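import Pool.Agent.Work.MP_37ce0f_lc.A.Defs

-- merged part: Pool.Agent.Work.MP_37ce0f_lc.A.Base
section
namespace Pool.Agent.Work.MP_37ce0f_lc.A
open Finset

/-- twice the signed area of a grid triangle -/
def ar (a b c : ℤ × ℤ) : ℤ := (b.1 - a.1) * (c.2 - a.2) - (b.2 - a.2) * (c.1 - a.1)

/-- the point `q` lies in the closed triangle `a b c` -/
def Tri (a b c : ℤ × ℤ) (q : ℝ × ℝ) : Prop := ∃ x y z : ℝ, 0 ≤ x ∧ 0 ≤ y ∧ 0 ≤ z ∧
  x + y + z = 1 ∧ q.1 = x * a.1 + y * b.1 + z * c.1 ∧ q.2 = x * a.2 + y * b.2 + z * c.2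

/-- a growing sequence of triangles `v j, v (j+1), v (j+2)`, `j ≤ 3 M`, with leaf vectors `d j` -/
structure Chain (M : ℕ) where
  v : ℕ → ℤ × ℤ
  d : ℕ → ℤ × ℤ
  nd : ∀ j, j ≤ 3 * M → ar (v j) (v (j + 1)) (v (j + 2)) ≠ 0
  grow : ∀ j, j < 3 * M → Tri (v (j + 1)) (v (j + 2)) (v (j + 3)) (toR (v j))
  tip : ∀ j l, j < l → l ≤ 3 * M → Tri (v l) (v (l + 1)) (v (l + 2)) (toR (v j + d j))
  avoid : ∀ j l, l + 2 < j → j ≤ 3 * M + 2 → ∀ t : ℝ, 0 ≤ t → t ≤ 1 →
    ¬ Tri (v l) (v (l + 1)) (v (l + 2)) (toR (v j) + t • toR (d j))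
  sep : ∀ i j, i ≤ 3 * M + 2 → j ≤ 3 * M + 2 → i ≠ j → ∃ f g : ℝ,
    f * (d i).1 + g * (d i).2 < 0 ∧ 0 < f * (d j).1 + g * (d j).2 ∧
      f * (v i).1 + g * (v i).2 < f * (v j).1 + g * (v j).2

/-- `Q` is a convex combination of the three points `T X` (barycentric coordinates) -/
def In (T : Fin 3 → Fin 3 → ℝ) (Q : Fin 3 → ℝ) : Prop :=
  ∃ w : Fin 3 → ℝ, (∀ X, 0 ≤ w X) ∧ ∑ X, w X = 1 ∧ ∀ c, Q c = ∑ X, w X * T X c

/-- Layers `0 .. k` of nearly equal nested triangles in barycentric coordinates: `P i X` is the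
vertex of family `X` in layer `i` and `D i X` its leaf vector. -/
structure Cfg where
  k : ℕ
  S : ℝ
  P : ℕ → Fin 3 → Fin 3 → ℝ
  D : ℕ → Fin 3 → Fin 3 → ℝ
  hS : 0 < S
  sumP : ∀ i X, ∑ c, P i X c = 1
  sumD : ∀ i X, ∑ c, D i X c = 0
  near : ∀ i, i ≤ k → ∀ X c, c ≠ X → 0 ≤ P i X c ∧ P i X c ≤ 1 / 100
  nest : ∀ i j, i ≤ j → j ≤ k → ∀ X, In (P j) (P i X)
  tip : ∀ i, i + 1 ≤ k → ∀ X, In (P (i + 1)) (P i X + D i X)
  avoid : ∀ i, i + 1 ≤ k → ∀ X, ∀ t : ℝ, 0 ≤ t → t ≤ 1 →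
    ¬ In (P i) (P (i + 1) X + t • D (i + 1) X)
  sep : ∀ i j X Y, i ≤ k → j ≤ k → (i, X) ≠ (j, Y) → ∃ f : Fin 3 → ℝ,
    ∑ c, f c * D i X c < 0 ∧ 0 < ∑ c, f c * D j Y c ∧ ∑ c, f c * P i X c < ∑ c, f c * P j Y c
  lat : ∀ i j X Y, D i X 1 * D j Y 2 - D i X 2 * D j Y 1 = 0 ∨
    1 ≤ S * |D i X 1 * D j Y 2 - D i X 2 * D j Y 1|

/-- three different families -/
def Dis (X Y Z : Fin 3) : Prop := X ≠ Y ∧ X ≠ Z ∧ Y ≠ Z

theorem Dis.sum {X Y Z : Fin 3} (h : Dis X Y Z) (f : Fin 3 → ℝ) :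
    ∑ c, f c = f X + f Y + f Z := by
  obtain ⟨h1, h2, h3⟩ := h
  rw [Fin.sum_univ_three]
  fin_cases X <;> fin_cases Y <;> fin_cases Z <;> simp at h1 h2 h3 ⊢ <;> ring

theorem exists_dis (X : Fin 3) : ∃ Y Z, Dis X Y Z := by
  unfold Dis; revert X; decide

theorem Dis.cases {X Y Z : Fin 3} (h : Dis X Y Z) (c : Fin 3) : c = X ∨ c = Y ∨ c = Z := by
  unfold Dis at h; revert X Y Z c; decide

namespace Cfg
variable (C : Cfg)

/-- the leaf of family `X` in layer `i + 1` is long -/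
def Long (i : ℕ) (X : Fin 3) : Prop :=
  2000 * (C.P (i + 2) X X - C.P i X X) < ∑ c, |C.D (i + 1) X c|

/-- the leaf of family `X` in layer `i` points to the corner `Y` (`Z` is the third family) -/
def Aim (i : ℕ) (X Y Z : Fin 3) : Prop := 0 < C.D i X Y ∧ 10 * |C.D i X Z| ≤ C.D i X Y

end Cfg
end Pool.Agent.Work.MP_37ce0f_lc.A
end

-- merged part: Pool.Agent.Work.MP_37ce0f_lc.A.Count
section
namespace Pool.Agent.Work.MP_37ce0f_lc.A
open Finset

theorem count_amgm {x y z : ℝ} (hx : 0 < x) (hy : 0 < y) (hz : 0 ≤ z) (h : 1 ≤ x * y * z) :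
    3 ≤ x + y + z := by
  by_contra hn
  have h1 : x * y * 4 ≤ (x + y) ^ 2 := by nlinarith [sq_nonneg (x - y)]
  have h2 : (x + y) ^ 2 * z ≤ (x + y) ^ 2 * (3 - (x + y)) :=
    mul_le_mul_of_nonneg_left (by linarith) (by positivity)
  have h3 : x * y * 4 * z ≤ (x + y) ^ 2 * z := mul_le_mul_of_nonneg_right h1 hz
  have h4 : 0 < (x + y) ^ 2 * (3 - (x + y) - z) := mul_pos (by positivity) (by linarith)
  nlinarith [mul_nonneg (sq_nonneg (x + y - 2)) (show 0 ≤ x + y + 1 by linarith)]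

theorem count_pack {I : Type} (T : Finset I) (e τ : I → ℝ) (he : ∀ i ∈ T, 0 ≤ e i)
    (hτ : ∀ i ∈ T, 0 ≤ τ i)
    (h : ∀ i ∈ T, ∀ j ∈ T, i ≠ j → τ j ≤ τ i → 3 ≤ e i + e j + (τ i - τ j)) (m : ℕ) :
    ∀ (s : Finset I) (z : I), s ⊆ T → z ∈ T → s.card = m → z ∉ s → (∀ i ∈ s, τ i ≤ τ z) →
      3 * (m : ℝ) ≤ 2 * ∑ i ∈ s, e i + e z + τ z := by
  classical
  induction m with
  | zero =>
    intro s z _ hz hs _ _
    have := he z hz; have := hτ z hz
    rw [card_eq_zero.1 hs]; simp; linarith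
  | succ m ih =>
    intro s z hT hzT hs hz hm
    obtain ⟨y, hy, hy'⟩ := s.exists_max_image τ (card_pos.1 (by omega))
    have k1 := ih (s.erase y) y ((erase_subset _ _).trans hT) (hT hy)
      (by rw [card_erase_of_mem hy]; omega) (notMem_erase _ _)
      (fun i hi => hy' i (mem_of_mem_erase hi))
    have k2 := h z hzT y (hT hy) (fun e => hz (e ▸ hy)) (hm y hy)
    rw [← add_sum_erase s e hy]
    push_cast; linarith

theorem count {I : Type} (s : Finset I) (c τ : I → ℝ) {S R : ℝ} {m : ℕ} (hs : m + 1 ≤ s.card)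
    (hS : 0 < S) (hc : ∀ i ∈ s, 0 < c i) (hτ : ∀ i ∈ s, 0 ≤ τ i ∧ τ i ≤ R)
    (h : ∀ i ∈ s, ∀ j ∈ s, i ≠ j → 1 ≤ S * (c i * c j * |τ i - τ j|)) :
    (m : ℝ) ^ 3 ≤ S * R * (∑ i ∈ s, c i) ^ 2 := by
  classical
  have hne : s.Nonempty := card_pos.1 (by omega)
  obtain ⟨C, hC⟩ : ∃ C, C = ∑ i ∈ s, c i := ⟨_, rfl⟩
  have C0 : 0 < C := hC ▸ sum_pos hc hne
  rw [← hC]
  obtain ⟨z, hz, hz'⟩ := s.exists_max_image (fun i => S * C ^ 2 / m ^ 2 * τ i) hne
  have R0 : 0 ≤ R := (hτ z hz).1.trans (hτ z hz).2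
  rcases Nat.eq_zero_or_pos m with rfl | hm
  · simp only [Nat.cast_zero, ne_eq, OfNat.ofNat_ne_zero, not_false_eq_true, zero_pow]
    positivity
  have hm0 : (0 : ℝ) < m := by exact_mod_cast hm
  have pk := count_pack s (fun i => m / C * c i) (fun i => S * C ^ 2 / m ^ 2 * τ i)
    (fun i hi => by have := hc i hi; positivity) (fun i hi => by have := (hτ i hi).1; positivity)
    (fun i hi j hj hij hl => by
      have ci := hc i hi
      have cj := hc j hj
      refine count_amgm (by positivity) (by positivity) (by linarith) ?_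
      have e : m / C * c i * (m / C * c j) * (S * C ^ 2 / m ^ 2 * τ i - S * C ^ 2 / m ^ 2 * τ j) =
          S * (c i * c j * (τ i - τ j)) := by field_simp
      have g : τ j ≤ τ i := le_of_mul_le_mul_left hl (by positivity)
      have := h i hi j hj hij
      rwa [abs_of_nonneg (sub_nonneg.2 g), ← e] at this)
    (s.card - 1) (s.erase z) z (erase_subset _ _) hz (card_erase_of_mem hz) (notMem_erase _ _)
    (fun i hi => hz' i (mem_of_mem_erase hi))
  have e1 := add_sum_erase s (fun i => m / C * c i) hz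
  have e2 : ∑ i ∈ s, m / C * c i = m := by rw [← mul_sum, ← hC]; field_simp
  have e3 : S * C ^ 2 / m ^ 2 * τ z ≤ S * C ^ 2 / m ^ 2 * R :=
    mul_le_mul_of_nonneg_left (hτ z hz).2 (by positivity)
  have e4 : 0 ≤ m / C * c z := by have := hc z hz; positivity
  have e6 : (m : ℝ) ≤ (s.card - 1 : ℕ) := by exact_mod_cast (by omega : m ≤ s.card - 1)
  have e5 : (m : ℝ) ≤ S * C ^ 2 / m ^ 2 * R := by linarith
  rw [div_mul_eq_mul_div, le_div_iff₀ (by positivity)] at e5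
  linarith

theorem countPQ {I : Type} (s : Finset I) (P Q : I → ℝ) {S : ℝ} {m : ℕ} (hs : m + 1 ≤ s.card)
    (hS : 0 < S) (hP : ∀ i ∈ s, 0 ≤ P i) (hQ : ∀ i ∈ s, 0 ≤ Q i)
    (h : ∀ i ∈ s, ∀ j ∈ s, i ≠ j → 1 ≤ S * |P i * Q j - Q i * P j|) :
    (m : ℝ) ^ 3 ≤ S * (∑ i ∈ s, (P i + Q i)) ^ 2 := by
  rcases Nat.eq_zero_or_pos m with rfl | hm
  · simp only [Nat.cast_zero, ne_eq, OfNat.ofNat_ne_zero, not_false_eq_true, zero_pow]
    positivity
  have c0 : ∀ i ∈ s, 0 < P i + Q i := fun i hi => by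
    obtain ⟨j, hj, hij⟩ := exists_mem_ne (show 1 < s.card by omega) i
    have h1 := hP i hi
    have h2 := hQ i hi
    by_contra hn
    have h3 := h i hi j hj hij.symm
    rw [show P i = 0 by linarith, show Q i = 0 by linarith] at h3
    norm_num at h3
  have := count s (fun i => P i + Q i) (fun i => Q i / (P i + Q i)) (R := 1) hs hS c0
    (fun i hi => ⟨div_nonneg (hQ i hi) (c0 i hi).le,
      (div_le_one (c0 i hi)).2 (by linarith [hP i hi])⟩)
    (fun i hi j hj hij => by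
      have ci := c0 i hi
      have cj := c0 j hj
      have e : Q i * P j - P i * Q j = (P i + Q i) * (P j + Q j) *
          (Q i / (P i + Q i) - Q j / (P j + Q j)) := by field_simp; ring
      have := h i hi j hj hij
      rwa [abs_sub_comm, e, abs_mul, abs_of_pos (mul_pos ci cj)] at this)
  rwa [mul_one] at this

theorem recur {S : ℝ} (hS : 0 < S) (Z c w : ℕ → ℝ) (r : ℕ) (hr : 2 ≤ r) (z0 : 0 ≤ Z 0)
    (hc : ∀ t, t < r → 0 < c (t + 1) ∧ c (t + 1) ≤ 2 * (Z (t + 1) - Z t))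
    (hw : ∀ t, t < r → Z (t + 1) ≤ w (t + 1))
    (h : ∀ t u, 1 ≤ t → t < u → u ≤ r → w t * w u ≤ S * (c t * c u * (w u - w t))) :
    (r : ℝ) ^ 3 ≤ 7000 * S * Z r := by
  induction r using Nat.strong_induction_on with
  | _ r ih =>
  have mono : ∀ t u, t ≤ u → u ≤ r → Z t ≤ Z u ∧ ∑ i ∈ Ioc t u, c i ≤ 2 * (Z u - Z t) := by
    intro t u htu
    induction u, htu using Nat.le_induction with
    | base => simp
    | succ u htu iu =>
      intro hu
      have h1 := hc u hu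
      have h2 := iu (by omega)
      rw [sum_Ioc_succ_top htu]
      constructor <;> linarith [h1.1, h1.2, h2.1, h2.2]
  have c1 := hc 0 (by omega)
  have c2 := hc 1 (by omega)
  simp only [zero_add, Nat.reduceAdd] at c1 c2
  have z1 : 0 < Z 1 := by linarith [c1.1, c1.2]
  have zp : ∀ t, 1 ≤ t → t ≤ r → 0 < Z t := fun t h1 h2 => z1.trans_le (mono 1 t h1 h2).1
  have zw : ∀ t, 1 ≤ t → t ≤ r → Z t ≤ w t := fun t h1 h2 => by
    obtain ⟨t, rfl⟩ : ∃ u, t = u + 1 := ⟨t - 1, by omega⟩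
    exact hw t h2
  have zr := zp r (by omega) le_rfl
  by_cases h12 : r ≤ 12
  · have w1 := zw 1 le_rfl (by omega)
    have w2 := zw 2 (by omega) hr
    have z2 := zp 2 (by omega) hr
    have k := h 1 2 le_rfl (by omega) hr
    have k1 : c 1 * c 2 ≤ 2 * Z 1 * (2 * Z r) :=
      mul_le_mul (by linarith [c1.2]) (by linarith [c2.2, (mono 2 r hr le_rfl).1]) c2.1.le
        (by linarith)
    have k2 : c 1 * c 2 * (w 2 - w 1) ≤ 2 * Z 1 * (2 * Z r) * w 2 :=
      (mul_le_mul_of_nonneg_left (by linarith) (mul_pos c1.1 c2.1).le).trans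
        (mul_le_mul_of_nonneg_right k1 (by linarith))
    have k3 : Z 1 * w 2 * 1 ≤ Z 1 * w 2 * (4 * S * Z r) := by
      have := mul_le_mul_of_nonneg_left k2 hS.le
      have := mul_le_mul_of_nonneg_right w1 (show 0 ≤ w 2 by linarith)
      linarith
    have k4 := le_of_mul_le_mul_left k3 (mul_pos z1 (by linarith))
    have k5 : (r : ℝ) ≤ 12 := by exact_mod_cast h12
    have k6 : (r : ℝ) ^ 3 ≤ 12 ^ 3 := pow_le_pow_left₀ (Nat.cast_nonneg r) k5 3
    linarith
  obtain ⟨a, ha⟩ : ∃ a, a = r / 2 := ⟨_, rfl⟩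
  obtain ⟨m, hm⟩ : ∃ m, m = r - a - 1 := ⟨_, rfl⟩
  have i1 := ih a (by omega) (by omega) (fun t ht => hc t (by omega)) (fun t ht => hw t (by omega))
    (fun t u h1 h2 h3 => h t u h1 h2 (by omega))
  have za := zp a (by omega) (by omega)
  have cp : ∀ t ∈ Ioc a r, 0 < c t := fun t ht => by
    obtain ⟨h1, h2⟩ := mem_Ioc.1 ht
    obtain ⟨t, rfl⟩ : ∃ u, t = u + 1 := ⟨t - 1, by omega⟩
    exact (hc t h2).1
  have wa : ∀ t ∈ Ioc a r, Z a ≤ w t := fun t ht =>
    (mono a t (mem_Ioc.1 ht).1.le (mem_Ioc.1 ht).2).1.trans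
      (zw t (by have := (mem_Ioc.1 ht).1; omega) (mem_Ioc.1 ht).2)
  have key : ∀ t ∈ Ioc a r, ∀ u ∈ Ioc a r, t < u → 1 ≤ S * (c t * c u * |1 / w t - 1 / w u|) :=
    fun t ht u hu htu => by
      have wt := za.trans_le (wa t ht)
      have wu := za.trans_le (wa u hu)
      have k := h t u (by have := (mem_Ioc.1 ht).1; omega) htu (mem_Ioc.1 hu).2
      have e : S * (c t * c u * (1 / w t - 1 / w u)) =
          S * (c t * c u * (w u - w t)) / (w t * w u) := by field_simp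
      refine le_trans ?_ (mul_le_mul_of_nonneg_left (mul_le_mul_of_nonneg_left (le_abs_self _)
        (mul_pos (cp t ht) (cp u hu)).le) hS.le)
      rwa [e, one_le_div (mul_pos wt wu)]
  have cn := count (Ioc a r) c (fun t => 1 / w t) (R := 1 / Z a) (m := m)
    (by rw [Nat.card_Ioc]; omega) hS cp
    (fun t ht => ⟨by have := za.trans_le (wa t ht); positivity,
      one_div_le_one_div_of_le za (wa t ht)⟩)
    (fun t ht u hu htu => by
      rcases lt_or_gt_of_ne htu with g | g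
      · exact key t ht u hu g
      · rw [abs_sub_comm, mul_comm (c t)]; exact key u hu t ht g)
  have s1 : (∑ i ∈ Ioc a r, c i) ^ 2 ≤ (2 * Z r) ^ 2 :=
    pow_le_pow_left₀ (sum_nonneg fun t ht => (cp t ht).le)
      (by linarith [(mono a r (by omega) le_rfl).2]) 2
  have s2 : (m : ℝ) ^ 3 * Z a ≤ S * (2 * Z r) ^ 2 := by
    have := cn.trans (mul_le_mul_of_nonneg_left s1 (by positivity))
    rwa [mul_one_div, div_mul_eq_mul_div, le_div_iff₀ za] at this
  have n1 : r * r ≤ 12 * (m * a) := by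
    have h1 : r ≤ 2 * m + 2 := by omega
    have h2 : r ≤ 2 * a + 1 := by omega
    have h3 : 5 ≤ m := by omega
    have h4 : 6 ≤ a := by omega
    have := Nat.mul_le_mul h1 h2
    nlinarith
  have n2 : (r : ℝ) * r ≤ 12 * (m * a) := by exact_mod_cast n1
  have n3 : ((r : ℝ) * r) ^ 3 ≤ (12 * (m * a)) ^ 3 := pow_le_pow_left₀ (by positivity) n2 3
  have n4 : (m : ℝ) ^ 3 * a ^ 3 ≤ m ^ 3 * (7000 * S * Z a) :=
    mul_le_mul_of_nonneg_left i1 (by positivity)
  have n5 := mul_le_mul_of_nonneg_left s2 hS.le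
  refine le_of_pow_le_pow_left₀ two_ne_zero (by positivity) ?_
  nlinarith [sq_nonneg (S * Z r)]

theorem outer (s : ℕ → ℝ) (M : ℕ) (h1 : ∀ i, i ≤ M → 1 ≤ s i)
    (h : ∀ i b m : ℕ, i + b ≤ M → 32 * (m + 1) ≤ b → s (i + b) ≤ 101 / 100 * s i →
      (m : ℝ) ^ 3 ≤ 10 ^ 5 * s (i + b)) : (M : ℝ) ^ 3 ≤ 10 ^ 21 * s M := by
  induction M using Nat.strong_induction_on with
  | _ M ih =>
  have s1 := h1 M le_rfl
  by_cases hM : M ≤ 10 ^ 7
  · have k : (M : ℝ) ≤ 10 ^ 7 := by exact_mod_cast hM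
    have := pow_le_pow_left₀ (Nat.cast_nonneg M) k 3
    linarith
  obtain ⟨b, hb⟩ : ∃ b, b = M / 400 := ⟨_, rfl⟩
  obtain ⟨i, rfl⟩ : ∃ i, M = i + b := ⟨M - b, by omega⟩
  by_cases hs : s (i + b) ≤ 101 / 100 * s i
  · obtain ⟨m, hm⟩ : ∃ m, m = b / 32 - 1 := ⟨_, rfl⟩
    have k := h i b m le_rfl (by omega) hs
    have k1 : ((i + b : ℕ) : ℝ) ≤ 13000 * m := by exact_mod_cast (by omega : i + b ≤ 13000 * m)
    have := pow_le_pow_left₀ (Nat.cast_nonneg _) k1 3
    rw [mul_pow] at this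
    linarith
  · have k := ih i (by omega) (fun j hj => h1 j (by omega))
      (fun j c m hj => h j c m (by omega))
    have k1 : 399 * ((i + b : ℕ) : ℝ) ≤ 400 * i := by
      exact_mod_cast (by omega : 399 * (i + b) ≤ 400 * i)
    have := pow_le_pow_left₀ (by positivity) k1 3
    rw [mul_pow, mul_pow] at this
    have h0 : (0 : ℝ) ≤ (i : ℝ) ^ 3 := by positivity
    linarith

end Pool.Agent.Work.MP_37ce0f_lc.A
end

-- merged part: Pool.Agent.Work.MP_37ce0f_lc.A.Pin0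
section
namespace Pool.Agent.Work.MP_37ce0f_lc.A
open Finset

theorem pn_swap {X Y Z : Fin 3} (h : Dis X Y Z) : Dis X Z Y := ⟨h.2.1, h.1, h.2.2.symm⟩

theorem pn_rot {X Y Z : Fin 3} (h : Dis X Y Z) : Dis Y Z X := ⟨h.2.2, h.1.symm, h.2.1.symm⟩

theorem pn_out {X Y Z : Fin 3} (h : Dis X Y Z) {T : Fin 3 → Fin 3 → ℝ} {Q : Fin 3 → ℝ}
    (hQ : In T Q) : ∃ a b : ℝ, 0 ≤ a ∧ 0 ≤ b ∧ a + b ≤ 1 ∧
      ∀ e, Q e = T X e + a * (T Y e - T X e) + b * (T Z e - T X e) := by
  obtain ⟨w, h0, h1, h2⟩ := hQ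
  rw [h.sum] at h1
  refine ⟨w Y, w Z, h0 _, h0 _, by linarith [h0 X], fun e => ?_⟩
  rw [h2 e, h.sum]
  linear_combination (T X e) * h1

theorem pn_mk {X Y Z : Fin 3} (h : Dis X Y Z) {T : Fin 3 → Fin 3 → ℝ} {Q : Fin 3 → ℝ}
    (sT : ∀ A, ∑ c, T A c = 1) (sQ : ∑ c, Q c = 1) {a b : ℝ} (ha : 0 ≤ a) (hb : 0 ≤ b)
    (hab : a + b ≤ 1) (hY : Q Y = T X Y + a * (T Y Y - T X Y) + b * (T Z Y - T X Y))
    (hZ : Q Z = T X Z + a * (T Y Z - T X Z) + b * (T Z Z - T X Z)) : In T Q := by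
  refine ⟨fun e => if e = X then 1 - a - b else if e = Y then a else b, fun e => ?_, ?_,
    fun e => ?_⟩
  · dsimp only
    split_ifs <;> linarith
  · rw [h.sum]
    simp only [if_true, if_neg h.1.symm, if_neg h.2.1.symm, if_neg h.2.2.symm]
    ring
  · rw [h.sum]
    simp only [if_true, if_neg h.1.symm, if_neg h.2.1.symm, if_neg h.2.2.symm]
    have s1 := sT X
    have s2 := sT Y
    have s3 := sT Z
    rw [h.sum] at s1 s2 s3 sQ
    rcases h.cases e with rfl | rfl | rfl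
    · linear_combination sQ - hY - hZ - (1 - a - b) * s1 - a * s2 - b * s3
    · linear_combination hY
    · linear_combination hZ

theorem pn_cramer {e1 e2 f1 f2 w1 w2 : ℝ} (h1 : 97 / 100 ≤ e1) (h2 : |e2| ≤ 1 / 100)
    (h3 : |f1| ≤ 1 / 100) (h4 : 97 / 100 ≤ f2) (ha : 0 ≤ w1 * f2 - w2 * f1)
    (hb : 0 ≤ e1 * w2 - e2 * w1) (hw : w1 + w2 ≤ 9 / 10) :
    ∃ a b : ℝ, 0 ≤ a ∧ 0 ≤ b ∧ a + b ≤ 1 ∧ w1 = a * e1 + b * f1 ∧ w2 = a * e2 + b * f2 := by
  obtain ⟨p1, p2⟩ := abs_le.1 h2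
  obtain ⟨p3, p4⟩ := abs_le.1 h3
  have hd : 0 < e1 * f2 - e2 * f1 := by nlinarith
  have k1 : w1 = (w1 * f2 - w2 * f1) / (e1 * f2 - e2 * f1) * e1 +
      (e1 * w2 - e2 * w1) / (e1 * f2 - e2 * f1) * f1 := by
    rw [div_mul_eq_mul_div, div_mul_eq_mul_div, ← add_div, eq_div_iff hd.ne']; ring
  have k2 : w2 = (w1 * f2 - w2 * f1) / (e1 * f2 - e2 * f1) * e2 +
      (e1 * w2 - e2 * w1) / (e1 * f2 - e2 * f1) * f2 := by
    rw [div_mul_eq_mul_div, div_mul_eq_mul_div, ← add_div, eq_div_iff hd.ne']; ring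
  have a0 := div_nonneg ha hd.le
  have b0 := div_nonneg hb hd.le
  generalize (w1 * f2 - w2 * f1) / (e1 * f2 - e2 * f1) = a at *
  generalize (e1 * w2 - e2 * w1) / (e1 * f2 - e2 * f1) = b at *
  refine ⟨a, b, a0, b0, ?_, k1, k2⟩
  have q1 : 0 ≤ a * (e1 + e2 - 96 / 100) := mul_nonneg a0 (by linarith)
  have q2 : 0 ≤ b * (f1 + f2 - 96 / 100) := mul_nonneg b0 (by linarith)
  nlinarith

theorem pn_id (a1 a2 b1 b2 w1 w2 f g : ℝ) : (a1 * b2 - a2 * b1) * (f * w1 + g * w2) =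
    (w1 * b2 - w2 * b1) * (f * a1 + g * a2) + (a1 * w2 - a2 * w1) * (f * b1 + g * b2) := by ring

/-- separation: if `cr a b ≥ 0` and `cr w b > 0` then `cr a w > 0` -/
theorem pn_left {a1 a2 b1 b2 w1 w2 f g : ℝ} (ha : f * a1 + g * a2 < 0) (hb : 0 < f * b1 + g * b2)
    (hw : 0 < f * w1 + g * w2) (h1 : 0 ≤ a1 * b2 - a2 * b1) (h2 : 0 < w1 * b2 - w2 * b1) :
    0 < a1 * w2 - a2 * w1 := by
  have e := pn_id a1 a2 b1 b2 w1 w2 f g
  have q1 := mul_nonneg h1 hw.le
  have q2 := mul_neg_of_pos_of_neg h2 ha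
  have : 0 < (a1 * w2 - a2 * w1) * (f * b1 + g * b2) := by linarith
  exact (pos_iff_pos_of_mul_pos this).2 hb

theorem pn_cr {X Y Z : Fin 3} (h : Dis X Y Z) {u v : Fin 3 → ℝ} (hu : ∑ c, u c = 0)
    (hv : ∑ c, v c = 0) : |u 1 * v 2 - u 2 * v 1| = |u Y * v Z - u Z * v Y| := by
  rw [Fin.sum_univ_three] at hu hv
  have u0 : u 0 = - u 1 - u 2 := by linarith
  have v0 : v 0 = - v 1 - v 2 := by linarith
  obtain ⟨h1, h2, h3⟩ := h
  fin_cases X <;> fin_cases Y <;> fin_cases Z <;> simp at h1 h2 h3 <;>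
    simp only [Fin.zero_eta, Fin.mk_one, Fin.reduceFinMk, Fin.isValue, u0, v0] <;>
    first
      | rfl
      | (congr 1; ring1)
      | (rw [← abs_neg]; congr 1; ring1)

namespace Cfg
variable (C : Cfg) {X Y Z : Fin 3}

theorem own_rng {i : ℕ} (h : i ≤ C.k) (X : Fin 3) : 98 / 100 ≤ C.P i X X ∧ C.P i X X ≤ 1 := by
  obtain ⟨Y, Z, hd⟩ := exists_dis X
  have s := C.sumP i X
  rw [hd.sum] at s
  obtain ⟨a, b⟩ := C.near i h X Y hd.1.symm
  obtain ⟨c, d⟩ := C.near i h X Z hd.2.1.symm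
  constructor <;> linarith

/-- weights of a point of layer `j` are controlled by the drop of the `X` coordinate -/
theorem drop (h : Dis X Y Z) {j : ℕ} (hj : j ≤ C.k) {a b q : ℝ} (ha : 0 ≤ a) (hb : 0 ≤ b)
    (e : q = C.P j X X + a * (C.P j Y X - C.P j X X) + b * (C.P j Z X - C.P j X X)) :
    97 / 100 * (a + b) ≤ C.P j X X - q := by
  obtain ⟨r, -⟩ := C.own_rng hj X
  obtain ⟨-, r1⟩ := C.near j hj Y X h.1
  obtain ⟨-, r2⟩ := C.near j hj Z X h.2.1
  have q1 : 0 ≤ a * (C.P j X X - C.P j Y X - 97 / 100) := mul_nonneg ha (by linarith)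
  have q2 : 0 ≤ b * (C.P j X X - C.P j Z X - 97 / 100) := mul_nonneg hb (by linarith)
  linarith

theorem le_own {j : ℕ} (hj : j ≤ C.k) {Q : Fin 3 → ℝ} (hQ : In (C.P j) Q) (X : Fin 3) :
    Q X ≤ C.P j X X := by
  obtain ⟨Y, Z, hd⟩ := exists_dis X
  obtain ⟨a, b, ha, hb, -, e⟩ := pn_out hd hQ
  have := C.drop hd hj ha hb (e X)
  linarith

theorem own_mono {i j : ℕ} (h : i ≤ j) (hj : j ≤ C.k) (X : Fin 3) : C.P i X X ≤ C.P j X X :=
  C.le_own hj (C.nest i j h hj X) X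

/-- the two sides at the `X` vertex of a layer -/
theorem sides (h : Dis X Y Z) {i j : ℕ} (hi : i ≤ C.k) (hj : j ≤ C.k) :
    97 / 100 ≤ C.P j Y Y - C.P i X Y ∧ C.P j Y Y - C.P i X Y ≤ 1 ∧
      |C.P j Y Z - C.P i X Z| ≤ 1 / 100 := by
  obtain ⟨r, r'⟩ := C.own_rng hj Y
  obtain ⟨a, b⟩ := C.near i hi X Y h.1.symm
  obtain ⟨c, d⟩ := C.near i hi X Z h.2.1.symm
  obtain ⟨e, f⟩ := C.near j hj Y Z h.2.2.symm
  refine ⟨by linarith, by linarith, abs_le.2 ⟨by linarith, by linarith⟩⟩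

theorem sep2 (h : Dis X Y Z) {i j : ℕ} {A B : Fin 3} (hi : i ≤ C.k) (hj : j ≤ C.k)
    (hne : (i, A) ≠ (j, B)) : ∃ f g : ℝ, f * C.D i A Y + g * C.D i A Z < 0 ∧
      0 < f * C.D j B Y + g * C.D j B Z ∧
      0 < f * (C.P j B Y - C.P i A Y) + g * (C.P j B Z - C.P i A Z) := by
  obtain ⟨f, h1, h2, h3⟩ := C.sep i j A B hi hj hne
  have s1 := C.sumD i A
  have s2 := C.sumD j B
  have s3 := C.sumP i A
  have s4 := C.sumP j B
  rw [h.sum] at h1 h2 s1 s2 s3 s4
  rw [h.sum, h.sum] at h3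
  refine ⟨f Y - f X, f Z - f X, ?_, ?_, ?_⟩
  · have : C.D i A X = - C.D i A Y - C.D i A Z := by linarith
    rw [this] at h1; linarith
  · have : C.D j B X = - C.D j B Y - C.D j B Z := by linarith
    rw [this] at h2; linarith
  · have e1 : C.P i A X = 1 - C.P i A Y - C.P i A Z := by linarith
    have e2 : C.P j B X = 1 - C.P j B Y - C.P j B Z := by linarith
    rw [e1, e2] at h3; linarith

theorem lat2 (h : Dis X Y Z) {i j : ℕ} {A B : Fin 3}
    (hne : C.D i A Y * C.D j B Z - C.D i A Z * C.D j B Y < 0) :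
    1 ≤ C.S * (C.D i A Z * C.D j B Y - C.D i A Y * C.D j B Z) := by
  have e := pn_cr h (C.sumD i A) (C.sumD j B)
  rcases C.lat i j A B with h0 | h0
  · rw [h0, abs_zero, eq_comm, abs_eq_zero] at e
    exact absurd e hne.ne
  · rw [e, abs_of_neg hne] at h0
    linarith

theorem long2 (h : Dis X Y Z) {i : ℕ} (hl : C.Long i X) :
    1000 * (C.P (i + 2) X X - C.P i X X) < |C.D (i + 1) X Y| + |C.D (i + 1) X Z| := by
  unfold Long at hl
  have s := C.sumD (i + 1) X
  rw [h.sum] at hl s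
  have e : C.D (i + 1) X X = -(C.D (i + 1) X Y + C.D (i + 1) X Z) := by linarith
  rw [e, abs_neg] at hl
  linarith [abs_add_le (C.D (i + 1) X Y) (C.D (i + 1) X Z)]

/-- Lc -/
theorem conflict (h : Dis X Y Z) {i j : ℕ} (hi : i ≤ C.k) (hj : j ≤ C.k) (h1 : C.Aim i X Y Z)
    (h2 : C.Aim j Z Y X) : False := by
  have hd : Dis Y X Z := ⟨h.1.symm, h.2.2, h.2.1⟩
  obtain ⟨f, g, s1, s2, s3⟩ := C.sep2 hd (A := X) (B := Z) hi hj
    (fun e => h.2.1 (congrArg Prod.snd e))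
  obtain ⟨p0, p1⟩ := h1
  obtain ⟨q0, q1⟩ := h2
  have a := C.sumD i X
  have b := C.sumD j Z
  rw [h.sum] at a b
  obtain ⟨r1, r2⟩ := C.own_rng hi X
  obtain ⟨r3, r4⟩ := C.own_rng hj Z
  obtain ⟨r5, r6⟩ := C.near i hi X Z h.2.1.symm
  obtain ⟨r7, r8⟩ := C.near j hj Z X h.2.1
  have t1 := le_abs_self (C.D i X Z)
  have t2 := neg_abs_le (C.D i X Z)
  have t3 := le_abs_self (C.D j Z X)
  have t4 := neg_abs_le (C.D j Z X)
  generalize C.D i X X = a1 at *
  generalize C.D i X Z = a2 at *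
  generalize C.D j Z X = b1 at *
  generalize C.D j Z Z = b2 at *
  generalize C.D i X Y = p at *
  generalize C.D j Z Y = q at *
  have w1 : -1 ≤ C.P j Z X - C.P i X X ∧ C.P j Z X - C.P i X X ≤ -97 / 100 :=
    ⟨by linarith, by linarith⟩
  have w2 : 97 / 100 ≤ C.P j Z Z - C.P i X Z ∧ C.P j Z Z - C.P i X Z ≤ 1 :=
    ⟨by linarith, by linarith⟩
  generalize C.P j Z X - C.P i X X = w at *
  generalize C.P j Z Z - C.P i X Z = w' at *
  have c1 : 0 ≤ a1 * b2 - a2 * b1 := by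
    have : 0 ≤ (-a1 - 9 / 10 * p) * (-b2) := mul_nonneg (by linarith) (by linarith)
    have : 0 ≤ p * (-b2 - 9 / 10 * q) := mul_nonneg p0.le (by linarith)
    have : 0 ≤ (p / 10 - a2) * (q / 10 + b1) := mul_nonneg (by linarith) (by linarith)
    have : 0 ≤ (p / 10 + a2) * (q / 10 - b1) := mul_nonneg (by linarith) (by linarith)
    have := mul_pos p0 q0
    nlinarith
  have c2 : 0 < w * b2 - w' * b1 := by
    have : 0 ≤ (-w - 97 / 100) * (-b2) := mul_nonneg (by linarith) (by linarith)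
    have : 0 ≤ w' * (q / 10 - b1) := mul_nonneg (by linarith) (by linarith)
    have : 0 ≤ (1 - w') * q := mul_nonneg (by linarith) q0.le
    nlinarith
  have c3 := pn_left s1 s2 s3 c1 c2
  have : 0 ≤ (w' - 97 / 100) * (-a1) := mul_nonneg (by linarith) (by linarith)
  have : 0 ≤ (-w) * (p / 10 - a2) := mul_nonneg (by linarith) (by linarith)
  have : 0 ≤ (1 + w) * p := mul_nonneg (by linarith) p0.le
  nlinarith

/-- Lcl: an aimed `Y` vertex is to the left of an aimed `X` ray -/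
theorem clear (h : Dis X Y Z) {i j : ℕ} (hi : i ≤ C.k) (hj : j ≤ C.k) (h1 : C.Aim i X Y Z)
    (h2 : C.Aim j Y Z X) :
    0 < C.D i X Y * (C.P j Y Z - C.P i X Z) - C.D i X Z * (C.P j Y Y - C.P i X Y) := by
  obtain ⟨f, g, s1, s2, s3⟩ := C.sep2 h (A := X) (B := Y) hi hj
    (fun e => h.1 (congrArg Prod.snd e))
  obtain ⟨p0, p1⟩ := h1
  obtain ⟨q0, q1⟩ := h2
  have b := C.sumD j Y
  rw [h.sum] at b
  obtain ⟨r1, -, r3⟩ := C.sides h hi hj
  obtain ⟨r3, r4⟩ := abs_le.1 r3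
  have t1 := le_abs_self (C.D i X Z)
  have t2 := neg_abs_le (C.D i X Z)
  have t3 := le_abs_self (C.D j Y X)
  have t4 := neg_abs_le (C.D j Y X)
  refine pn_left s1 s2 s3 ?_ ?_
  · generalize C.D i X Y = p at *
    generalize C.D i X Z = q at *
    generalize C.D j Y Y = y at *
    generalize C.D j Y Z = z at *
    have : 0 ≤ (p / 10 + q) * (-y) := mul_nonneg (by linarith) (by linarith)
    have : 0 ≤ p * (y + 11 / 10 * z) := mul_nonneg p0.le (by linarith)
    have := mul_pos p0 q0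
    nlinarith
  · generalize C.P j Y Y - C.P i X Y = w at *
    generalize C.P j Y Z - C.P i X Z = w' at *
    generalize C.D j Y Y = y at *
    generalize C.D j Y Z = z at *
    have : 0 ≤ (w - 97 / 100) * z := mul_nonneg (by linarith) q0.le
    have : 0 ≤ (w' + 1 / 100) * (-y) := mul_nonneg (by linarith) (by linarith)
    nlinarith

/-- every `Z` vertex is to the left of an aimed `X` ray -/
theorem clearZ (h : Dis X Y Z) {i j : ℕ} (hi : i ≤ C.k) (hj : j ≤ C.k) (h1 : C.Aim i X Y Z) :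
    0 < C.D i X Y * (C.P j Z Z - C.P i X Z) - C.D i X Z * (C.P j Z Y - C.P i X Y) := by
  obtain ⟨p0, p1⟩ := h1
  obtain ⟨r1, -, r3⟩ := C.sides (pn_swap h) hi hj
  have t : C.D i X Z * (C.P j Z Y - C.P i X Y) ≤ |C.D i X Z| * (1 / 100) := by
    refine (le_abs_self _).trans ?_
    rw [abs_mul]
    exact mul_le_mul_of_nonneg_left r3 (abs_nonneg _)
  have := mul_le_mul_of_nonneg_left r1 p0.le
  linarith

end Cfg
end Pool.Agent.Work.MP_37ce0f_lc.A
end

-- merged part: Pool.Agent.Work.MP_37ce0f_lc.A.Pin1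
section
namespace Pool.Agent.Work.MP_37ce0f_lc.A
open Finset

theorem pn_ab {a b p q e1 e2 f1 f2 : ℝ} (hp : p = a * e1 + b * f1) (hq : q = a * e2 + b * f2)
    (h1 : 97 / 100 ≤ e1) (h2 : |e2| ≤ 1 / 100) (h3 : |f1| ≤ 1 / 100) (h4 : 97 / 100 ≤ f2) :
    96 / 100 * (|a| + |b|) ≤ |p| + |q| ∧ |b * f1| ≤ |b| * (1 / 100) := by
  have k1 : |b * f1| ≤ |b| * (1 / 100) := by
    rw [abs_mul]; exact mul_le_mul_of_nonneg_left h3 (abs_nonneg _)
  have k2 : |a * e2| ≤ |a| * (1 / 100) := by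
    rw [abs_mul]; exact mul_le_mul_of_nonneg_left h2 (abs_nonneg _)
  have k3 : |a| * (97 / 100) ≤ |a * e1| := by
    rw [abs_mul]; exact mul_le_mul_of_nonneg_left (h1.trans (le_abs_self _)) (abs_nonneg _)
  have k4 : |b| * (97 / 100) ≤ |b * f2| := by
    rw [abs_mul]; exact mul_le_mul_of_nonneg_left (h4.trans (le_abs_self _)) (abs_nonneg _)
  have k5 : |a * e1| ≤ |p| + |b * f1| := by
    have : a * e1 = p - b * f1 := by linarith
    rw [this]; exact abs_sub _ _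
  have k6 : |b * f2| ≤ |q| + |a * e2| := by
    have : b * f2 = q - a * e2 := by linarith
    rw [this]; exact abs_sub _ _
  exact ⟨by linarith, k1⟩

theorem pn_conv {A B D a b : ℝ} (hA : 0 < A) (hB : 0 < B) (hD : 0 < D) (ha : 0 ≤ a) (hb : 0 ≤ b)
    (hab : a + b ≤ 1) : 0 < A + a * (B - A) + b * (D - A) := by
  have m0 : 0 < min A (min B D) := lt_min hA (lt_min hB hD)
  have m1 := min_le_left A (min B D)
  have m2 := (min_le_right A (min B D)).trans (min_le_left B D)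
  have m3 := (min_le_right A (min B D)).trans (min_le_right B D)
  generalize min A (min B D) = m at *
  have := mul_nonneg ha (sub_nonneg.2 m2)
  have := mul_nonneg hb (sub_nonneg.2 m3)
  have := mul_nonneg (sub_nonneg.2 hab) (sub_nonneg.2 m1)
  linarith

theorem pn_hit {p q s1 s2 e1 e2 : ℝ} (hp : 0 < p) (hA : p * s2 - q * s1 ≤ 0)
    (hB : 0 < p * (s2 + e2) - q * (s1 + e1)) :
    ∃ l t : ℝ, 0 ≤ l ∧ l ≤ 1 ∧ t * p = s1 + l * e1 ∧ t * q = s2 + l * e2 := by
  have hd : 0 < p * e2 - q * e1 := by linarith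
  have k : -(p * s2 - q * s1) / (p * e2 - q * e1) * (p * e2 - q * e1) = -(p * s2 - q * s1) :=
    div_mul_cancel₀ _ hd.ne'
  have l0 : 0 ≤ -(p * s2 - q * s1) / (p * e2 - q * e1) := div_nonneg (by linarith) hd.le
  have l1 : -(p * s2 - q * s1) / (p * e2 - q * e1) ≤ 1 := (div_le_one hd).2 (by linarith)
  generalize -(p * s2 - q * s1) / (p * e2 - q * e1) = l at *
  refine ⟨l, (s1 + l * e1) / p, l0, l1, div_mul_cancel₀ _ hp.ne', ?_⟩
  rw [div_mul_eq_mul_div, div_eq_iff hp.ne']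
  linarith

namespace Cfg
variable (C : Cfg) {X Y Z : Fin 3}

/-- consecutive `X` vertices are close compared with a long leaf -/
theorem sbd (h : Dis X Y Z) {i : ℕ} (hi : i + 2 ≤ C.k) (hl : C.Long i X) :
    970 * |C.P i X Y - C.P (i + 1) X Y| ≤ |C.D (i + 1) X Y| + |C.D (i + 1) X Z| := by
  have hi' : i + 1 ≤ C.k := by omega
  obtain ⟨a, b, ha, hb, -, e⟩ := pn_out h (C.nest i (i + 1) (by omega) hi' X)
  have d := C.drop h hi' ha hb (e X)
  have m := C.own_mono (Nat.le_succ (i + 1)) hi X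
  have l := C.long2 h hl
  obtain ⟨s1, s2, -⟩ := C.sides h hi' hi'
  obtain ⟨-, -, s3⟩ := C.sides (pn_swap h) hi' hi'
  obtain ⟨s3, s4⟩ := abs_le.1 s3
  have : |C.P i X Y - C.P (i + 1) X Y| ≤ a + b := by
    have eY := e Y
    generalize C.P (i + 1) Y Y - C.P (i + 1) X Y = u at *
    generalize C.P (i + 1) Z Y - C.P (i + 1) X Y = v at *
    have := mul_nonneg ha (by linarith : 0 ≤ u)
    have := mul_nonneg ha (by linarith : 0 ≤ 1 - u)
    have := mul_nonneg hb (by linarith : 0 ≤ 1 - v)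
    have := mul_nonneg hb (by linarith : 0 ≤ 1 + v)
    exact abs_le.2 ⟨by linarith, by linarith⟩
  have m' : C.P (i + 1) X X ≤ C.P (i + 2) X X := m
  linarith

theorem sum_ray (i : ℕ) (X : Fin 3) (t : ℝ) : ∑ c, (C.P i X + t • C.D i X) c = 1 := by
  simp only [Pi.add_apply, Pi.smul_apply, smul_eq_mul, Finset.sum_add_distrib, ← Finset.mul_sum,
    C.sumP, C.sumD, mul_zero, add_zero]

/-- the midpoint of a long leaf is not on the inner side of the previous layer -/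
theorem mid (h : Dis X Y Z) {i : ℕ} (hi : i + 2 ≤ C.k) (hl : C.Long i X)
    (hp : 0 < C.D (i + 1) X Y) (hq : |C.D (i + 1) X Z| ≤ C.D (i + 1) X Y)
    (hc : 0 ≤ (C.P i Y Y - C.P i X Y) * (C.P (i + 1) X Z + C.D (i + 1) X Z / 2 - C.P i X Z) -
      (C.P i Y Z - C.P i X Z) * (C.P (i + 1) X Y + C.D (i + 1) X Y / 2 - C.P i X Y)) : False := by
  have hi0 : i ≤ C.k := by omega
  have s1 := C.sbd h hi hl
  have s2 := C.sbd (pn_swap h) hi hl
  rw [abs_of_pos hp] at s1 s2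
  have t : C.D (i + 1) X Y + C.D (i + 1) X Z ≤ 1 := by
    obtain ⟨w, w0, -, e⟩ := C.tip (i + 1) hi X
    have eX := e X
    rw [h.sum, Pi.add_apply] at eX
    have s := C.sumD (i + 1) X
    rw [h.sum] at s
    have r1 := (C.own_rng (by omega : i + 1 ≤ C.k) X).2
    have := mul_nonneg (w0 X) (by linarith [(C.own_rng hi X).1] : 0 ≤ C.P (i + 1 + 1) X X)
    have := mul_nonneg (w0 Y) (C.near _ hi Y X h.1).1
    have := mul_nonneg (w0 Z) (C.near _ hi Z X h.2.1).1
    linarith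
  obtain ⟨e1, -, e2⟩ := C.sides h hi0 hi0
  obtain ⟨f2, -, f1⟩ := C.sides (pn_swap h) hi0 hi0
  have a1 := le_abs_self (C.P i X Y - C.P (i + 1) X Y)
  have a2 := neg_abs_le (C.P i X Y - C.P (i + 1) X Y)
  have a3 := le_abs_self (C.P i X Z - C.P (i + 1) X Z)
  have a4 := neg_abs_le (C.P i X Z - C.P (i + 1) X Z)
  have a5 := le_abs_self (C.D (i + 1) X Z)
  have a6 := neg_abs_le (C.D (i + 1) X Z)
  have k1 : 49 / 100 * C.D (i + 1) X Y ≤ C.P (i + 1) X Y + C.D (i + 1) X Y / 2 - C.P i X Y := by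
    linarith
  have k2 : |C.P (i + 1) X Z + C.D (i + 1) X Z / 2 - C.P i X Z| ≤ C.D (i + 1) X Y :=
    abs_le.2 ⟨by linarith, by linarith⟩
  have t' : C.D (i + 1) X Y ≤ 1 := by
    obtain ⟨a, b, ha, hb, hab, e⟩ := pn_out h (C.tip (i + 1) hi X)
    have r := C.le_own hi (C.tip (i + 1) hi X) Y
    rw [Pi.add_apply] at r
    linarith [(C.own_rng hi Y).2, (C.near (i + 1) (by omega) X Y h.1.symm).1]
  obtain ⟨a, b, ha, hb, hab, k3, k4⟩ := pn_cramer e1 e2 f1 f2 (w1 := C.P (i + 1) X Y +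
      C.D (i + 1) X Y / 2 - C.P i X Y) (w2 := C.P (i + 1) X Z + C.D (i + 1) X Z / 2 - C.P i X Z)
    (by
      have u1 := (le_abs_self _).trans ((abs_mul _ _).trans_le
        (mul_le_mul k2 f1 (abs_nonneg _) hp.le))
      have u2 := mul_le_mul k1 f2 (by norm_num) (by linarith)
      linarith) hc (by linarith)
  refine C.avoid i (by omega) X (1 / 2) (by norm_num) (by norm_num)
    (pn_mk h (C.sumP i) (C.sum_ray _ _ _) ha hb hab ?_ ?_)
  · simp only [Pi.add_apply, Pi.smul_apply, smul_eq_mul]; linarith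
  · simp only [Pi.add_apply, Pi.smul_apply, smul_eq_mul]; linarith

theorem lowp (h : Dis X Y Z) {i : ℕ} (hi : i + 2 ≤ C.k) (hl : C.Long i X) :
    -(12 / 1000) * (|C.D (i + 1) X Y| + |C.D (i + 1) X Z|) ≤ C.D (i + 1) X Y := by
  obtain ⟨a1, b1, ha1, hb1, -, e⟩ := pn_out h (C.nest (i + 1) (i + 2) (by omega) hi X)
  obtain ⟨a2, b2, ha2, hb2, -, e'⟩ := pn_out h (C.tip (i + 1) hi X)
  have d := C.drop h hi ha1 hb1 (e X)
  have m := C.own_mono (Nat.le_succ i) (by omega : i + 1 ≤ C.k) X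
  have m' : C.P i X X ≤ C.P (i + 1) X X := m
  have l := C.long2 h hl
  obtain ⟨e1, e1', e2⟩ := C.sides h hi hi
  obtain ⟨f2, -, f1⟩ := C.sides (pn_swap h) hi hi
  have y := e Y
  have z := e Z
  have y' := e' Y
  have z' := e' Z
  rw [Pi.add_apply] at y' z'
  have hp : C.D (i + 1) X Y = (a2 - a1) * (C.P (i + 2) Y Y - C.P (i + 2) X Y) +
    (b2 - b1) * (C.P (i + 2) Z Y - C.P (i + 2) X Y) := by linear_combination y' - y
  have hq : C.D (i + 1) X Z = (a2 - a1) * (C.P (i + 2) Y Z - C.P (i + 2) X Z) +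
    (b2 - b1) * (C.P (i + 2) Z Z - C.P (i + 2) X Z) := by linear_combination z' - z
  obtain ⟨k1, k2⟩ := pn_ab hp hq e1 e2 f1 f2
  have k3 := neg_abs_le ((b2 - b1) * (C.P (i + 2) Z Y - C.P (i + 2) X Y))
  have k4 := mul_nonneg ha2 (by linarith : 0 ≤ C.P (i + 2) Y Y - C.P (i + 2) X Y)
  have k5 := mul_le_mul_of_nonneg_left e1' ha1
  have k6 := abs_nonneg (a2 - a1)
  have k7 : (a2 - a1) * (C.P (i + 2) Y Y - C.P (i + 2) X Y) =
    a2 * (C.P (i + 2) Y Y - C.P (i + 2) X Y) - a1 * (C.P (i + 2) Y Y - C.P (i + 2) X Y) := by ring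
  have k8 := abs_nonneg (C.D (i + 1) X Y)
  have k9 := abs_nonneg (C.D (i + 1) X Z)
  linarith

theorem aim_half (h : Dis X Y Z) {i : ℕ} (hi : i + 2 ≤ C.k) (hl : C.Long i X)
    (hpq : C.D (i + 1) X Z ≤ C.D (i + 1) X Y) : C.Aim (i + 1) X Y Z := by
  have l1 := C.lowp h hi hl
  have l2 := C.lowp (pn_swap h) hi hl
  have l := C.long2 h hl
  have m : C.P i X X ≤ C.P (i + 2) X X := C.own_mono (by omega) hi X
  have hp : 0 < C.D (i + 1) X Y := by
    by_contra hn
    have hn := not_lt.1 hn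
    rw [abs_of_nonpos hn, abs_of_nonpos (hpq.trans hn)] at l1 l2 l
    linarith
  refine ⟨hp, ?_⟩
  by_contra hn
  have hn := not_le.1 hn
  rw [abs_of_pos hp] at l1 l2 l
  have hq : 0 < C.D (i + 1) X Z := by
    by_contra hn'
    rw [abs_of_nonpos (not_lt.1 hn')] at l2 hn
    linarith
  have s1 := C.sbd h hi hl
  have s2 := C.sbd (pn_swap h) hi hl
  rw [abs_of_pos hp, abs_of_pos hq] at s1 s2
  rw [abs_of_pos hq] at hn
  refine C.mid h hi hl hp (by rwa [abs_of_pos hq]) ?_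
  obtain ⟨e1, -, e2⟩ := C.sides h (by omega : i ≤ C.k) (by omega : i ≤ C.k)
  have a1 := le_abs_self (C.P i X Y - C.P (i + 1) X Y)
  have a2 := neg_abs_le (C.P i X Y - C.P (i + 1) X Y)
  have a3 := le_abs_self (C.P i X Z - C.P (i + 1) X Z)
  have k1 : |C.P (i + 1) X Y + C.D (i + 1) X Y / 2 - C.P i X Y| ≤ C.D (i + 1) X Y :=
    abs_le.2 ⟨by linarith, by linarith⟩
  have k2 : 4 / 100 * C.D (i + 1) X Y ≤ C.P (i + 1) X Z + C.D (i + 1) X Z / 2 - C.P i X Z := by
    linarith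
  have u1 := (le_abs_self _).trans ((abs_mul _ _).trans_le
    (mul_le_mul e2 k1 (abs_nonneg _) (by norm_num)))
  have u2 := mul_le_mul e1 k2 (by linarith) (by linarith)
  linarith

/-- L1 -/
theorem aim_of_long (h : Dis X Y Z) {i : ℕ} (hi : i + 2 ≤ C.k) (hl : C.Long i X) :
    C.Aim (i + 1) X Y Z ∨ C.Aim (i + 1) X Z Y :=
  (le_total _ _).imp (C.aim_half h hi hl) (C.aim_half (pn_swap h) hi hl)

/-- L2 -/
theorem left0 (h : Dis X Y Z) {i : ℕ} (hi : i + 2 ≤ C.k) (hl : C.Long i X)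
    (h1 : C.Aim (i + 1) X Y Z) (h2 : C.Aim i Y Z X) :
    0 < C.D (i + 1) X Y * (C.P i X Z - C.P (i + 1) X Z) -
      C.D (i + 1) X Z * (C.P i X Y - C.P (i + 1) X Y) := by
  have hi0 : i ≤ C.k := by omega
  have hi1 : i + 1 ≤ C.k := by omega
  by_contra hn
  have hn := not_lt.1 hn
  have hB := C.clear h hi1 hi0 h1 h2
  obtain ⟨hp, hq⟩ := h1
  obtain ⟨l, t, l0, l1, k1, k2⟩ := pn_hit (e1 := C.P i Y Y - C.P i X Y)
    (e2 := C.P i Y Z - C.P i X Z) hp hn (by linarith)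
  have hin : In (C.P i) (C.P (i + 1) X + t • C.D (i + 1) X) := by
    refine pn_mk h (C.sumP i) (C.sum_ray _ _ _) l0 le_rfl (by linarith) ?_ ?_
    · simp only [Pi.add_apply, Pi.smul_apply, smul_eq_mul]; linarith
    · simp only [Pi.add_apply, Pi.smul_apply, smul_eq_mul]; linarith
  have a6 := neg_abs_le (C.D (i + 1) X Z)
  have a7 := abs_nonneg (C.D (i + 1) X Z)
  rcases lt_or_ge t 0 with t0 | t0
  · have r := C.le_own hi0 hin X
    simp only [Pi.add_apply, Pi.smul_apply, smul_eq_mul] at r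
    have m : C.P i X X ≤ C.P (i + 1) X X := C.own_mono (by omega) hi1 X
    have s := C.sumD (i + 1) X
    rw [h.sum] at s
    have := mul_pos_of_neg_of_neg t0 (by linarith : C.D (i + 1) X X < 0)
    linarith
  rcases le_or_gt t 1 with t1 | t1
  · exact C.avoid i hi1 X t t0 t1 hin
  refine C.mid h hi hl hp (by linarith) ?_
  have hd : 0 ≤ C.D (i + 1) X Y * (C.P i Y Z - C.P i X Z) -
    C.D (i + 1) X Z * (C.P i Y Y - C.P i X Y) := by linarith
  have := mul_nonneg (by linarith : 0 ≤ t - 1 / 2) hd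
  have e1 : C.P (i + 1) X Y = C.P i X Y + l * (C.P i Y Y - C.P i X Y) - t * C.D (i + 1) X Y := by
    linarith
  have e2 : C.P (i + 1) X Z = C.P i X Z + l * (C.P i Y Z - C.P i X Z) - t * C.D (i + 1) X Z := by
    linarith
  rw [e1, e2]
  linarith

/-- L3 -/
theorem turn (h : Dis X Y Z) {i0 i : ℕ} (h0 : i0 ≤ i) (hi : i + 2 ≤ C.k) (a0 : C.Aim i0 X Y Z)
    (hl : C.Long i X) (h1 : C.Aim (i + 1) X Y Z) (h2 : C.Aim i Y Z X) :
    C.D i0 X Y * C.D (i + 1) X Z - C.D i0 X Z * C.D (i + 1) X Y < 0 := by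
  have hi0 : i ≤ C.k := by omega
  have hi1 : i + 1 ≤ C.k := by omega
  by_contra hn
  have hn := not_lt.1 hn
  obtain ⟨f, g, s1, s2, s3⟩ := C.sep2 h (A := X) (B := X) (i := i0) (j := i + 1) (by omega) hi1
    (fun e => by have := congrArg Prod.fst e; dsimp only at this; omega)
  have c2 : 0 < (C.P (i + 1) X Y - C.P i0 X Y) * C.D (i + 1) X Z -
      (C.P (i + 1) X Z - C.P i0 X Z) * C.D (i + 1) X Y := by
    obtain ⟨a, b, ha, hb, hab, e⟩ := pn_out h (C.nest i0 i h0 hi0 X)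
    have := pn_conv (C.left0 h hi hl h1 h2) (C.clear h hi1 hi0 h1 h2) (C.clearZ h hi1 hi0 h1)
      ha hb hab
    rw [e Y, e Z]
    linarith
  have c3 := pn_left s1 s2 s3 hn c2
  have e := pn_id (C.D i0 X Y) (C.D i0 X Z) (C.D (i + 1) X Y) (C.D (i + 1) X Z)
    (C.P (i + 1) X Y - C.P i0 X Y) (C.P (i + 1) X Z - C.P i0 X Z) 1 1
  have m : C.P i0 X X ≤ C.P (i + 1) X X := C.own_mono (by omega) hi1 X
  have r1 := C.sumP i0 X
  have r2 := C.sumP (i + 1) X
  rw [h.sum] at r1 r2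
  have q1 := mul_nonpos_of_nonneg_of_nonpos hn (by linarith :
    1 * (C.P (i + 1) X Y - C.P i0 X Y) + 1 * (C.P (i + 1) X Z - C.P i0 X Z) ≤ 0)
  have q2 := mul_pos c2 (by linarith [a0.1, a0.2, neg_abs_le (C.D i0 X Z)] :
    0 < 1 * C.D i0 X Y + 1 * C.D i0 X Z)
  have q3 := mul_pos c3 (by linarith [h1.1, h1.2, neg_abs_le (C.D (i + 1) X Z)] :
    0 < 1 * C.D (i + 1) X Y + 1 * C.D (i + 1) X Z)
  linarith

end Cfg
end Pool.Agent.Work.MP_37ce0f_lc.A
end

-- merged part: Pool.Agent.Work.MP_37ce0f_lc.A.Pin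
section
namespace Pool.Agent.Work.MP_37ce0f_lc.A
open Finset
namespace Cfg
variable (C : Cfg) {X Y Z : Fin 3}

/-- signed height to the right of the ray of the leaf `(i0, X)` -/
noncomputable def zf (i0 : ℕ) (X Y Z : Fin 3) (Q : Fin 3 → ℝ) : ℝ :=
  C.D i0 X Z / C.D i0 X Y * (Q Y - C.P i0 X Y) - (Q Z - C.P i0 X Z)

theorem zneg {i0 : ℕ} {Q : Fin 3 → ℝ} (hp : 0 < C.D i0 X Y)
    (h : 0 < C.D i0 X Y * (Q Z - C.P i0 X Z) - C.D i0 X Z * (Q Y - C.P i0 X Y)) :
    C.zf i0 X Y Z Q < 0 := by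
  unfold zf
  rw [div_mul_eq_mul_div, sub_neg, div_lt_iff₀ hp]
  linarith

theorem zaff {i0 : ℕ} {Q A B E : Fin 3 → ℝ} {a b : ℝ}
    (e : ∀ c, Q c = A c + a * (B c - A c) + b * (E c - A c)) :
    C.zf i0 X Y Z Q = C.zf i0 X Y Z A + a * (C.zf i0 X Y Z B - C.zf i0 X Y Z A) +
      b * (C.zf i0 X Y Z E - C.zf i0 X Y Z A) := by
  unfold zf
  rw [e Y, e Z]
  ring

theorem zX (h : Dis X Y Z) {i0 j : ℕ} (h0 : i0 ≤ j) (hj : j ≤ C.k) (a0 : C.Aim i0 X Y Z)
    (h2 : C.Aim j Y Z X) : C.zf i0 X Y Z (C.P j Y) < 0 ∧ C.zf i0 X Y Z (C.P j Z) < 0 ∧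
      0 ≤ C.zf i0 X Y Z (C.P j X) := by
  have y := C.zneg a0.1 (C.clear h (h0.trans hj) hj a0 h2)
  have z := C.zneg a0.1 (C.clearZ h (h0.trans hj) hj a0)
  refine ⟨y, z, ?_⟩
  by_contra hn
  obtain ⟨a, b, ha, hb, hab, e⟩ := pn_out h (C.nest i0 j h0 hj X)
  have e1 := C.zaff (i0 := i0) (X := X) (Y := Y) (Z := Z) e
  have e2 : C.zf i0 X Y Z (C.P i0 X) = 0 := by unfold zf; ring
  have := pn_conv (neg_pos.2 (not_le.1 hn)) (neg_pos.2 y) (neg_pos.2 z) ha hb hab
  linarith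

theorem zle (h : Dis X Y Z) {i0 i j : ℕ} (h0 : i0 ≤ j) (hi : i ≤ j) (hj : j ≤ C.k)
    (a0 : C.Aim i0 X Y Z) (h2 : C.Aim j Y Z X) :
    C.zf i0 X Y Z (C.P i X) ≤ C.zf i0 X Y Z (C.P j X) := by
  obtain ⟨y, z, x⟩ := C.zX h h0 hj a0 h2
  obtain ⟨a, b, ha, hb, -, e⟩ := pn_out h (C.nest i j hi hj X)
  have e1 := C.zaff (i0 := i0) (X := X) (Y := Y) (Z := Z) e
  have := mul_nonneg ha (by linarith : 0 ≤ C.zf i0 X Y Z (C.P j X) - C.zf i0 X Y Z (C.P j Y))
  have := mul_nonneg hb (by linarith : 0 ≤ C.zf i0 X Y Z (C.P j X) - C.zf i0 X Y Z (C.P j Z))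
  linarith

theorem zone (h : Dis X Y Z) {i0 j : ℕ} (h0 : i0 ≤ C.k) (hj : j ≤ C.k) (a0 : C.Aim i0 X Y Z) :
    C.zf i0 X Y Z (C.P j X) ≤ 1 := by
  unfold zf
  obtain ⟨a1, a2⟩ := C.near i0 h0 X Y h.1.symm
  obtain ⟨a3, a4⟩ := C.near i0 h0 X Z h.2.1.symm
  obtain ⟨a5, a6⟩ := C.near j hj X Y h.1.symm
  obtain ⟨a7, a8⟩ := C.near j hj X Z h.2.1.symm
  have k : |C.D i0 X Z / C.D i0 X Y| ≤ 1 := by
    rw [abs_div, abs_of_pos a0.1, div_le_one a0.1]
    linarith [a0.2, abs_nonneg (C.D i0 X Z)]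
  have k' : |C.P j X Y - C.P i0 X Y| ≤ 1 / 100 := abs_le.2 ⟨by linarith, by linarith⟩
  have := (le_abs_self _).trans ((abs_mul _ _).trans_le
    (mul_le_mul k k' (abs_nonneg _) zero_le_one))
  linarith

/-- slope of the leaf `(i, X)` relative to the leaf `(i0, X)` -/
noncomputable def sg (i0 i : ℕ) (X Y Z : Fin 3) : ℝ :=
  C.D i0 X Z / C.D i0 X Y - C.D i X Z / C.D i X Y

theorem sg_mul {i0 i : ℕ} (p0 : 0 < C.D i0 X Y) (p : 0 < C.D i X Y) :
    C.D i0 X Y * C.D i X Y * C.sg i0 i X Y Z =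
      C.D i0 X Z * C.D i X Y - C.D i0 X Y * C.D i X Z := by
  unfold sg
  field_simp

theorem sg_pos (h : Dis X Y Z) {i0 i : ℕ} (h0 : i0 ≤ i) (hi : i + 2 ≤ C.k) (a0 : C.Aim i0 X Y Z)
    (hl : C.Long i X) (h1 : C.Aim (i + 1) X Y Z) (h2 : C.Aim i Y Z X) :
    0 < C.sg i0 (i + 1) X Y Z := by
  have t := C.turn h h0 hi a0 hl h1 h2
  have e := C.sg_mul (Z := Z) a0.1 h1.1
  exact (pos_iff_pos_of_mul_pos (by linarith : 0 < C.D i0 X Y * C.D (i + 1) X Y *
    C.sg i0 (i + 1) X Y Z)).1 (mul_pos a0.1 h1.1)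

/-- L4 -/
theorem step (h : Dis X Y Z) {i0 i : ℕ} (h0 : i0 ≤ i) (hi : i + 2 ≤ C.k) (a0 : C.Aim i0 X Y Z)
    (hl : C.Long i X) (h1 : C.Aim (i + 1) X Y Z) (h2 : C.Aim i Y Z X)
    (h3 : C.Aim (i + 2) Y Z X) :
    C.D (i + 1) X Y * (C.sg i0 (i + 1) X Y Z + C.zf i0 X Y Z (C.P (i + 2) X)) ≤
      2 * (C.zf i0 X Y Z (C.P (i + 2) X) - C.zf i0 X Y Z (C.P (i + 1) X)) := by
  have s := C.sg_pos h h0 hi a0 hl h1 h2
  obtain ⟨zy, zz, zx⟩ := C.zX h (by omega : i0 ≤ i + 2) hi a0 h3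
  obtain ⟨a1, b1, ha1, hb1, -, e⟩ := pn_out h (C.nest (i + 1) (i + 2) (by omega) hi X)
  obtain ⟨a2, b2, ha2, hb2, -, e'⟩ := pn_out h (C.tip (i + 1) hi X)
  have z1 := C.zaff (i0 := i0) (X := X) (Y := Y) (Z := Z) e
  have z2 := C.zaff (i0 := i0) (X := X) (Y := Y) (Z := Z) e'
  obtain ⟨hp0, hq0⟩ := h1
  have z3 : C.zf i0 X Y Z (C.P (i + 1) X + C.D (i + 1) X) = C.zf i0 X Y Z (C.P (i + 1) X) +
      C.D (i + 1) X Y * C.sg i0 (i + 1) X Y Z := by
    unfold zf sg
    simp only [Pi.add_apply]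
    have : C.D (i + 1) X Y * (C.D (i + 1) X Z / C.D (i + 1) X Y) = C.D (i + 1) X Z :=
      mul_div_cancel₀ _ hp0.ne'
    linarith
  obtain ⟨e1, e1', e2⟩ := C.sides h hi hi
  obtain ⟨f2, -, f1⟩ := C.sides (pn_swap h) hi hi
  have y := e Y
  have z := e Z
  have y' := e' Y
  have z' := e' Z
  rw [Pi.add_apply] at y' z'
  have hp : C.D (i + 1) X Y = (a2 - a1) * (C.P (i + 2) Y Y - C.P (i + 2) X Y) +
    (b2 - b1) * (C.P (i + 2) Z Y - C.P (i + 2) X Y) := by linear_combination y' - y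
  have hq : C.D (i + 1) X Z = (a2 - a1) * (C.P (i + 2) Y Z - C.P (i + 2) X Z) +
    (b2 - b1) * (C.P (i + 2) Z Z - C.P (i + 2) X Z) := by linear_combination z' - z
  obtain ⟨k1, k2⟩ := pn_ab hp hq e1 e2 f1 f2
  rw [abs_of_pos hp0] at k1
  have k3 := le_abs_self ((b2 - b1) * (C.P (i + 2) Z Y - C.P (i + 2) X Y))
  have k4 : C.D (i + 1) X Y / 2 ≤ (a2 - a1) * (C.P (i + 2) Y Y - C.P (i + 2) X Y) := by
    linarith [abs_nonneg (a2 - a1)]
  have k5 : C.D (i + 1) X Y / 2 ≤ a2 - a1 := by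
    have a0 : 0 < a2 - a1 := (pos_iff_pos_of_mul_pos (lt_of_lt_of_le (by linarith) k4)).2
      (by linarith)
    linarith [mul_le_mul_of_nonneg_left e1' a0.le]
  have e3 : i + 1 + 1 = i + 2 := rfl
  rw [e3] at z2
  have q0 := mul_pos hp0 s
  clear y z y' z' hp hq k1 k2 k3 k4 e e' e1 e1' e2 f1 f2
  generalize C.zf i0 X Y Z (C.P (i + 2) X) = u at *
  generalize C.zf i0 X Y Z (C.P (i + 2) Y) = v at *
  generalize C.zf i0 X Y Z (C.P (i + 2) Z) = r at *
  have q1 := mul_nonneg ha1 (by linarith : 0 ≤ u - v)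
  have q2 := mul_nonneg hb2 (by linarith : 0 ≤ u - r)
  have q3 := mul_le_mul k5 (by linarith : u ≤ u - v) zx (by linarith)
  linarith

/-- the pinwheel -/
theorem pin (h : Dis X Y Z) (g : ℕ → ℕ) (r : ℕ) (hr : 2 ≤ r) (hg : ∀ t, t < r → g t < g (t + 1))
    (hk : g r + 2 ≤ C.k) (hl : ∀ t, t ≤ r → C.Long (g t) X ∧ C.Aim (g t + 1) X Y Z ∧
      C.Aim (g t) Y Z X ∧ C.Aim (g t + 1) Y Z X ∧ C.Aim (g t + 2) Y Z X) :
    (r : ℝ) ^ 3 ≤ 7000 * C.S := by
  have mono : ∀ u, u ≤ r → ∀ t, t < u → g t < g u := by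
    intro u
    induction u with
    | zero => intro _ t ht; omega
    | succ u ih =>
      intro hu t ht
      have := hg u (by omega)
      rcases (by omega : t = u ∨ t < u) with rfl | h1
      · exact this
      · exact (ih (by omega) t h1).trans this
  have hk' : ∀ t, t ≤ r → g t + 2 ≤ C.k := fun t ht => by
    rcases ht.eq_or_lt with rfl | h1
    · exact hk
    · have := mono r le_rfl t h1; omega
  have a0 := (hl 0 (by omega)).2.1
  have st : ∀ t, 1 ≤ t → t ≤ r → 0 < C.D (g t + 1) X Y ∧ 0 < C.sg (g 0 + 1) (g t + 1) X Y Z ∧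
      0 ≤ C.zf (g 0 + 1) X Y Z (C.P (g t + 2) X) ∧
      C.D (g t + 1) X Y * (C.sg (g 0 + 1) (g t + 1) X Y Z +
        C.zf (g 0 + 1) X Y Z (C.P (g t + 2) X)) ≤ 2 * (C.zf (g 0 + 1) X Y Z (C.P (g t + 2) X) -
          C.zf (g 0 + 1) X Y Z (C.P (g t + 1) X)) := by
    intro t t1 t2
    obtain ⟨l1, l2, l3, -, l5⟩ := hl t t2
    have := mono t t2 0 t1
    exact ⟨l2.1, C.sg_pos h this (hk' t t2) a0 l1 l2 l3,
      (C.zX h (by omega) (hk' t t2) a0 l5).2.2, C.step h this (hk' t t2) a0 l1 l2 l3 l5⟩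
  have key := recur C.hS (fun t => C.zf (g 0 + 1) X Y Z (C.P (g t + 2) X))
    (fun t => 2 * (C.zf (g 0 + 1) X Y Z (C.P (g t + 2) X) -
      C.zf (g 0 + 1) X Y Z (C.P (g t + 1) X)))
    (fun t => C.sg (g 0 + 1) (g t + 1) X Y Z + C.zf (g 0 + 1) X Y Z (C.P (g t + 2) X)) r hr
    (C.zX h (by omega) (hk' 0 (by omega)) a0 (hl 0 (by omega)).2.2.2.2).2.2
    (fun t ht => by
      obtain ⟨s1, s2, s3, s4⟩ := st (t + 1) (by omega) ht
      have m1 := hg t ht
      have m2 := mono (t + 1) ht 0 (by omega)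
      have := C.zle h (i := g t + 2) (by omega : g 0 + 1 ≤ g (t + 1) + 1) (by omega)
        (by have := hk' (t + 1) ht; omega) a0 (hl (t + 1) ht).2.2.2.1
      exact ⟨lt_of_lt_of_le (mul_pos s1 (by linarith)) s4, by linarith⟩)
    (fun t ht => by
      obtain ⟨s1, s2, s3, s4⟩ := st (t + 1) (by omega) ht
      linarith)
    (fun t u t1 tu ur => by
      obtain ⟨s1, s2, s3, s4⟩ := st t t1 (by omega)
      obtain ⟨v1, v2, v3, v4⟩ := st u (by omega) ur
      obtain ⟨l1, l2, l3, -, l5⟩ := hl u ur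
      have m1 := mono u ur t tu
      have m2 := mono u ur 0 (by omega)
      have tr := C.turn h (i0 := g t + 1) m1 (hk' u ur) (hl t (by omega)).2.1 l1 l2 l3
      have la := C.lat2 h tr
      rw [← C.sg_mul s1 v1] at la
      have e : C.sg (g t + 1) (g u + 1) X Y Z =
        C.sg (g 0 + 1) (g u + 1) X Y Z - C.sg (g 0 + 1) (g t + 1) X Y Z := by unfold sg; ring
      have d0 := C.sg_pos h (i0 := g t + 1) m1 (hk' u ur) (hl t (by omega)).2.1 l1 l2 l3
      have zm := C.zle h (i := g t + 2) (by omega : g 0 + 1 ≤ g u + 2) (by omega) (hk' u ur) a0 l5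
      rw [e] at la d0
      have hS := C.hS
      generalize C.zf (g 0 + 1) X Y Z (C.P (g t + 2) X) = zt at *
      generalize C.zf (g 0 + 1) X Y Z (C.P (g u + 2) X) = zu at *
      generalize 2 * (zt - C.zf (g 0 + 1) X Y Z (C.P (g t + 1) X)) = ct at *
      generalize 2 * (zu - C.zf (g 0 + 1) X Y Z (C.P (g u + 1) X)) = cu at *
      generalize C.sg (g 0 + 1) (g t + 1) X Y Z = σt at *
      generalize C.sg (g 0 + 1) (g u + 1) X Y Z = σu at *
      generalize C.D (g t + 1) X Y = pt at *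
      generalize C.D (g u + 1) X Y = pu at *
      have w1 : 0 < σt + zt := by linarith
      have w2 : 0 < σu + zu := by linarith
      have b1 := mul_le_mul s4 v4 (mul_pos v1 w2).le ((mul_pos s1 w1).le.trans s4)
      have b2 := mul_le_mul b1 (by linarith : σu - σt ≤ σu + zu - (σt + zt)) d0.le
        ((mul_pos (mul_pos s1 w1) (mul_pos v1 w2)).le.trans b1)
      have b3 := mul_le_mul_of_nonneg_left b2 hS.le
      have b4 := mul_le_mul_of_nonneg_left la (mul_pos w1 w2).le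
      linarith)
  have z1 := C.zone h (by have := hk' 0 (by omega); omega) hk a0
  have := mul_le_mul_of_nonneg_left z1 (by linarith [C.hS] : 0 ≤ 7000 * C.S)
  linarith

end Cfg
end Pool.Agent.Work.MP_37ce0f_lc.A
end

-- merged part: Pool.Agent.Work.MP_37ce0f_lc.A.Block
section
namespace Pool.Agent.Work.MP_37ce0f_lc.A
open Finset
namespace Cfg
variable (C : Cfg)

theorem block_det {a1 a2 b1 b2 u v : ℝ} (h1 : 0 ≤ a1 ↔ 0 ≤ b1) (h2 : 0 ≤ a2 ↔ 0 ≤ b2)
    (ha : u * a1 + v * a2 < 0) (hb : 0 < u * b1 + v * b2) : a1 * b2 - a2 * b1 ≠ 0 ∧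
    |(|a1| * |b2| - |a2| * |b1|)| = |a1 * b2 - a2 * b1| := by
  have key : ∀ p1 p2 q1 q2 x y : ℝ, 0 ≤ p1 → 0 ≤ p2 → 0 ≤ q1 → 0 ≤ q2 → x * p1 + y * p2 < 0 →
      0 < x * q1 + y * q2 → p1 * q2 - p2 * q1 ≠ 0 := by
    intro p1 p2 q1 q2 x y c1 c2 c3 c4 d1 d2 e
    have f : (x * p1 + y * p2) * (q1 + q2) = (x * q1 + y * q2) * (p1 + p2) := by
      linear_combination (x - y) * e
    have g : 0 < q1 + q2 := by
      refine lt_of_le_of_ne (add_nonneg c3 c4) fun k => ?_
      rw [show q1 = 0 by linarith, show q2 = 0 by linarith] at d2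
      simp at d2
    nlinarith [mul_neg_of_neg_of_pos d1 g, mul_nonneg d2.le (add_nonneg c1 c2)]
  rcases le_or_gt 0 a1 with c | c <;> rcases le_or_gt 0 a2 with d | d
  · rw [abs_of_nonneg c, abs_of_nonneg d, abs_of_nonneg (h1.1 c), abs_of_nonneg (h2.1 d)]
    exact ⟨key _ _ _ _ u v c d (h1.1 c) (h2.1 d) ha hb, rfl⟩
  · have d' : b2 < 0 := not_le.1 fun k => d.not_ge (h2.2 k)
    rw [abs_of_nonneg c, abs_of_neg d, abs_of_nonneg (h1.1 c), abs_of_neg d']
    refine ⟨fun e => key a1 (-a2) b1 (-b2) u (-v) c (by linarith) (h1.1 c) (by linarith)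
      (by linarith) (by linarith) (by linarith), ?_⟩
    rw [← abs_neg]
    congr 1
    ring
  · have c' : b1 < 0 := not_le.1 fun k => c.not_ge (h1.2 k)
    rw [abs_of_neg c, abs_of_nonneg d, abs_of_neg c', abs_of_nonneg (h2.1 d)]
    refine ⟨fun e => key (-a1) a2 (-b1) b2 (-u) v (by linarith) d (by linarith) (h2.1 d)
      (by linarith) (by linarith) (by linarith), ?_⟩
    rw [← abs_neg]
    congr 1
    ring
  · have c' : b1 < 0 := not_le.1 fun k => c.not_ge (h1.2 k)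
    have d' : b2 < 0 := not_le.1 fun k => d.not_ge (h2.2 k)
    rw [abs_of_neg c, abs_of_neg d, abs_of_neg c', abs_of_neg d']
    refine ⟨fun e => key (-a1) (-a2) (-b1) (-b2) (-u) (-v) (by linarith) (by linarith)
      (by linarith) (by linarith) (by linarith) (by linarith) (by linarith), ?_⟩
    congr 1
    ring

theorem block_bad (m : ℕ) (h : 32 * (m + 1) ≤ C.k) (B : Finset ℕ) (hB : B ⊆ range (8 * (m + 1)))
    (hc : 4 * (m + 1) ≤ B.card)
    (hb : ∀ t ∈ B, ∃ i X, 4 * t ≤ i ∧ i ≤ 4 * t + 2 ∧ ¬ C.Long i X) :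
    (m : ℝ) ^ 3 ≤ 10 ^ 5 * C.S := by
  classical
  choose! i X h1 h2 h3 using hb
  have lt : ∀ t ∈ B, t < 8 * (m + 1) := fun t ht => mem_range.1 (hB ht)
  obtain ⟨y, -, hy⟩ := exists_le_card_fiber_of_mul_le_card_of_maps_to (s := B)
    (t := (univ : Finset (Bool × Bool))) (n := m + 1)
    (f := fun t => (decide (0 ≤ C.D (i t + 1) (X t) 1), decide (0 ≤ C.D (i t + 1) (X t) 2)))
    (fun _ _ => mem_univ _) univ_nonempty (by simpa using hc)
  obtain ⟨s, hs⟩ : ∃ s, s = B.filter fun t =>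
    (decide (0 ≤ C.D (i t + 1) (X t) 1), decide (0 ≤ C.D (i t + 1) (X t) 2)) = y := ⟨_, rfl⟩
  rw [← hs] at hy
  have sB : s ⊆ B := hs ▸ filter_subset _ _
  have k := countPQ s (fun t => |C.D (i t + 1) (X t) 1|) (fun t => |C.D (i t + 1) (X t) 2|) hy C.hS
    (fun _ _ => abs_nonneg _) (fun _ _ => abs_nonneg _) fun a ha b hb ne => by
      have e := (mem_filter.1 (hs ▸ ha)).2.trans (mem_filter.1 (hs ▸ hb)).2.symm
      have a1 := h1 a (sB ha)
      have a2 := h2 a (sB ha)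
      have a3 := lt a (sB ha)
      have b1 := h1 b (sB hb)
      have b2 := h2 b (sB hb)
      have b3 := lt b (sB hb)
      obtain ⟨f, f1, f2, -⟩ := C.sep (i a + 1) (i b + 1) (X a) (X b) (by omega) (by omega)
        fun q => by
          have := congrArg Prod.fst q
          simp only at this
          omega
      have s1 := C.sumD (i a + 1) (X a)
      have s2 := C.sumD (i b + 1) (X b)
      rw [Fin.sum_univ_three] at f1 f2 s1 s2
      obtain ⟨d1, d2⟩ := block_det (u := f 1 - f 0) (v := f 2 - f 0)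
        (decide_eq_decide.1 (congrArg Prod.fst e)) (decide_eq_decide.1 (congrArg Prod.snd e))
        (by rw [eq_neg_of_add_eq_zero_left ((add_assoc _ _ _).symm.trans s1)] at f1; linarith)
        (by rw [eq_neg_of_add_eq_zero_left ((add_assoc _ _ _).symm.trans s2)] at f2; linarith)
      rw [d2]
      exact (C.lat _ _ _ _).resolve_left d1
  obtain ⟨own, ho⟩ : ∃ own : ℕ → ℝ, ∀ t, own t = ∑ Y, C.P (4 * t) Y Y := ⟨_, fun _ => rfl⟩
  have mono : ∀ t < 8 * (m + 1), 0 ≤ own (t + 1) - own t := fun t ht => by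
    rw [ho, ho, ← sum_sub_distrib]
    exact sum_nonneg fun Y _ => sub_nonneg.2 (C.own_mono (by omega) (by omega) Y)
  have step : ∀ t ∈ s, |C.D (i t + 1) (X t) 1| + |C.D (i t + 1) (X t) 2| ≤
      2000 * (own (t + 1) - own t) := fun t ht => by
    have a1 := h1 t (sB ht)
    have a2 := h2 t (sB ht)
    have a3 := lt t (sB ht)
    have a4 := not_lt.1 (h3 t (sB ht))
    rw [Fin.sum_univ_three] at a4
    have a5 : C.P (4 * (t + 1)) (X t) (X t) - C.P (4 * t) (X t) (X t) ≤ own (t + 1) - own t := by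
      rw [ho, ho, ← sum_sub_distrib]
      exact single_le_sum (f := fun Y => C.P (4 * (t + 1)) Y Y - C.P (4 * t) Y Y)
        (fun Y _ => sub_nonneg.2 (C.own_mono (by omega) (by omega) Y)) (mem_univ _)
    have a6 := C.own_mono (i := i t + 2) (j := 4 * (t + 1)) (by omega) (by omega) (X t)
    have a7 := C.own_mono (i := 4 * t) (j := i t) (by omega) (by omega) (X t)
    linarith [abs_nonneg (C.D (i t + 1) (X t) 0)]
  have tot : ∑ t ∈ s, (|C.D (i t + 1) (X t) 1| + |C.D (i t + 1) (X t) 2|) ≤ 120 := by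
    refine (sum_le_sum step).trans ?_
    refine (sum_le_sum_of_subset_of_nonneg (sB.trans hB) fun t ht _ =>
      mul_nonneg (by norm_num) (mono t (mem_range.1 ht))).trans ?_
    rw [← mul_sum, sum_range_sub, ho, ho, Fin.sum_univ_three, Fin.sum_univ_three]
    have p := fun Y => (C.own_rng (i := 4 * (8 * (m + 1))) (by omega) Y).2
    have q := fun Y => (C.own_rng (i := 4 * 0) (by omega) Y).1
    linarith [p 0, p 1, p 2, q 0, q 1, q 2]
  have nn : 0 ≤ ∑ t ∈ s, (|C.D (i t + 1) (X t) 1| + |C.D (i t + 1) (X t) 2|) :=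
    sum_nonneg fun _ _ => add_nonneg (abs_nonneg _) (abs_nonneg _)
  have sq := pow_le_pow_left₀ nn tot 2
  nlinarith [C.hS, mul_le_mul_of_nonneg_left sq C.hS.le]

theorem block_wheel {i : ℕ} (hi : i + 2 ≤ C.k) (hl : ∀ X, C.Long i X) : ∃ X Y Z, Dis X Y Z ∧
    C.Aim (i + 1) Y Z X ∧ C.Aim (i + 1) Z X Y := by
  have d : ∀ X Y Z : Fin 3, X ≠ Y → X ≠ Z → Y ≠ Z → Dis X Y Z := fun _ _ _ a b c => ⟨a, b, c⟩
  have k : i + 1 ≤ C.k := by omega
  rcases C.aim_of_long (d 0 1 2 (by decide) (by decide) (by decide)) hi (hl 0) with a | a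
  · refine ⟨1, 2, 0, d _ _ _ (by decide) (by decide) (by decide), ?_, a⟩
    exact (C.aim_of_long (d 2 0 1 (by decide) (by decide) (by decide)) hi (hl 2)).resolve_right
      (C.conflict (d 0 1 2 (by decide) (by decide) (by decide)) k k a)
  · refine ⟨2, 1, 0, d _ _ _ (by decide) (by decide) (by decide), ?_, a⟩
    exact (C.aim_of_long (d 1 0 2 (by decide) (by decide) (by decide)) hi (hl 1)).resolve_right
      (C.conflict (d 0 2 1 (by decide) (by decide) (by decide)) k k a)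

theorem block_good (m : ℕ) (h : 32 * (m + 1) ≤ C.k) (B : Finset ℕ) (hB : B ⊆ range (8 * (m + 1)))
    (hc : 4 * (m + 1) ≤ B.card) (hb : ∀ t ∈ B, ∀ i X, 4 * t ≤ i → i ≤ 4 * t + 2 → C.Long i X) :
    (m : ℝ) ^ 3 ≤ 10 ^ 5 * C.S := by
  have mem := fun t => B.orderEmbOfCardLe_mem hc t
  have lt : ∀ t, B.orderEmbOfCardLe hc t < 8 * (m + 1) := fun t => mem_range.1 (hB (mem t))
  generalize B.orderEmbOfCardLe hc = e at mem lt
  have l0 := lt ⟨0, by omega⟩
  obtain ⟨X, Y, Z, d, a1, a2⟩ := C.block_wheel (i := 4 * e ⟨0, by omega⟩) (by omega)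
    fun X => hb _ (mem _) _ X le_rfl (by omega)
  have aX : ∀ i, i + 2 ≤ C.k → C.Long i X → C.Aim (i + 1) X Y Z := fun i hi l =>
    (C.aim_of_long d hi l).resolve_right fun a =>
      C.conflict ⟨d.2.1, d.1, d.2.2.symm⟩ (by omega) (by omega) a a1
  have aY : ∀ i, i + 2 ≤ C.k → C.Long i Y → C.Aim (i + 1) Y Z X := fun i hi l =>
    (C.aim_of_long ⟨d.2.2, d.1.symm, d.2.1.symm⟩ hi l).resolve_right fun a =>
      C.conflict ⟨d.1.symm, d.2.2, d.2.1⟩ (by omega) (by omega) a a2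
  have k := C.pin d (fun t => if q : t < 4 * (m + 1) then 4 * e ⟨t, q⟩ + 1 else 0) (4 * m + 3)
    (by omega) (fun t ht => ?_) ?_ fun t ht => ?_
  · have : (m : ℝ) ^ 3 ≤ ((4 * m + 3 : ℕ) : ℝ) ^ 3 :=
      pow_le_pow_left₀ (Nat.cast_nonneg _) (by exact_mod_cast (by omega)) 3
    linarith [C.hS]
  · have p : t < 4 * (m + 1) := by omega
    have q : t + 1 < 4 * (m + 1) := by omega
    have : e ⟨t, p⟩ < e ⟨t + 1, q⟩ := e.strictMono (Nat.lt_succ_self t)
    simp only [dif_pos p, dif_pos q]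
    omega
  · have p : 4 * m + 3 < 4 * (m + 1) := by omega
    have := lt ⟨_, p⟩
    simp only [dif_pos p]
    omega
  · have p : t < 4 * (m + 1) := by omega
    have l := lt ⟨t, p⟩
    have g := hb _ (mem ⟨t, p⟩)
    simp only [dif_pos p]
    exact ⟨g _ _ (by omega) (by omega), aX _ (by omega) (g _ _ (by omega) (by omega)),
      aY _ (by omega) (g _ _ (by omega) (by omega)), aY _ (by omega) (g _ _ (by omega) (by omega)),
      aY (4 * e ⟨t, p⟩ + 1 + 1) (by omega) (g _ _ (by omega) (by omega))⟩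

/-- Paper section 2, last line. Groups `t < 8 (m+1)`; the group `t` is bad if `¬ Long i X` for
some `i ∈ {4t, 4t+1, 4t+2}` and some `X`. (a) At least `4 (m+1)` bad groups: choose `(i t, X t)`;
pigeonhole (`Finset.exists_le_card_fiber_of_mul_le_card_of_maps_to`) on the signs of the
coordinates `1, 2` of `D (i t + 1) (X t)` gives `m + 1` groups in one closed quadrant; `countPQ`
with `P, Q` the absolute values of the two coordinates. The determinant is nonzero: with `sep`,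
`f (D i) = f1 P i + f2 Q i < 0 < f1 P j + f2 Q j`, and `P i Q j = Q i P j` gives
`f (D i) (P j + Q j) = f (D j) (P i + Q i)`; then `lat`. The total size is at most
`2000 Σ_t (own (4t+4) - own (4t)) ≤ 2000 * 6/100` with `own i = Σ_X P i X X` (`own_mono`,
`own_rng`, telescoping over `range`). (b) At least `4 (m+1)` good groups: enumerate them
increasingly (`Finset.orderEmbOfFin` or `Nat.nth`), `g t = 4 t' + 1`. In the first good group
`aim_of_long` for the three families and `conflict` give `Dis X Y Z` with `X → Y`, `Y → Z`,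
`Z → X` at one layer; then every long leaf of family `X` aims at `Y` (else `conflict` with
`Y → Z`) and every long leaf of family `Y` aims at `Z` (else `conflict` with `Z → X`); `pin` with
`r = 4 m + 3`. -/
theorem block (m : ℕ) (h : 32 * (m + 1) ≤ C.k) : (m : ℝ) ^ 3 ≤ 10 ^ 5 * C.S := by
  classical
  have e := card_filter_add_card_filter_not (s := range (8 * (m + 1)))
    fun t => ∀ i X, 4 * t ≤ i → i ≤ 4 * t + 2 → C.Long i X
  rw [card_range] at e
  rcases le_or_gt (4 * (m + 1)) ((range (8 * (m + 1))).filter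
    fun t => ∀ i X, 4 * t ≤ i → i ≤ 4 * t + 2 → C.Long i X).card with c | c
  · exact C.block_good m h _ (filter_subset _ _) c fun t ht => (mem_filter.1 ht).2
  · refine C.block_bad m h _ (filter_subset
      (fun t => ¬ ∀ i X, 4 * t ≤ i → i ≤ 4 * t + 2 → C.Long i X) _) (by omega) fun t ht => ?_
    have := (mem_filter.1 ht).2
    push Not at this
    exact this

end Cfg
end Pool.Agent.Work.MP_37ce0f_lc.A
end

-- merged part: Pool.Agent.Work.MP_37ce0f_lc.A.Chain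
section
namespace Pool.Agent.Work.MP_37ce0f_lc.A
open Finset
namespace Chain
variable {M : ℕ} (H : Chain M)

/-- twice the area of the triangle number `j` -/
def a (j : ℕ) : ℝ := |(ar (H.v j) (H.v (j + 1)) (H.v (j + 2)) : ℝ)|

/-- second barycentric coordinate of a vector -/
noncomputable def chain_x (A B C : ℤ × ℤ) (u : ℝ × ℝ) : ℝ :=
  (u.1 * ((C.2 : ℝ) - A.2) - u.2 * ((C.1 : ℝ) - A.1)) / (ar A B C : ℝ)

/-- third barycentric coordinate of a vector -/
noncomputable def chain_y (A B C : ℤ × ℤ) (u : ℝ × ℝ) : ℝ :=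
  (((B.1 : ℝ) - A.1) * u.2 - ((B.2 : ℝ) - A.2) * u.1) / (ar A B C : ℝ)

/-- barycentric coordinates of a vector -/
noncomputable def chain_lin (A B C : ℤ × ℤ) (u : ℝ × ℝ) : Fin 3 → ℝ :=
  ![-chain_x A B C u - chain_y A B C u, chain_x A B C u, chain_y A B C u]

/-- barycentric coordinates of a point -/
noncomputable def chain_bary (A B C : ℤ × ℤ) (q : ℝ × ℝ) : Fin 3 → ℝ :=
  ![1 - chain_x A B C (q - toR A) - chain_y A B C (q - toR A), chain_x A B C (q - toR A),
    chain_y A B C (q - toR A)]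

theorem chain_ar (A B C : ℤ × ℤ) : (ar A B C : ℝ) =
    ((B.1 : ℝ) - A.1) * ((C.2 : ℝ) - A.2) - ((B.2 : ℝ) - A.2) * ((C.1 : ℝ) - A.1) := by
  unfold ar; push_cast; ring

theorem chain_add (A B C : ℤ × ℤ) (q u : ℝ × ℝ) (t : ℝ) :
    chain_bary A B C (q + t • u) = chain_bary A B C q + t • chain_lin A B C u := by
  funext c
  fin_cases c <;> simp [chain_bary, chain_lin, chain_x, chain_y, toR] <;> ring

theorem chain_aff (A B C : ℤ × ℤ) (p q r w : ℝ × ℝ) (x y z : ℝ) (h : x + y + z = 1)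
    (h1 : w.1 = x * p.1 + y * q.1 + z * r.1) (h2 : w.2 = x * p.2 + y * q.2 + z * r.2) (c : Fin 3) :
    chain_bary A B C w c =
      x * chain_bary A B C p c + y * chain_bary A B C q c + z * chain_bary A B C r c := by
  obtain rfl : z = 1 - x - y := by linarith
  fin_cases c <;> simp [chain_bary, chain_x, chain_y, toR, h1, h2] <;> ring

theorem chain_lin_val {A B C : ℤ × ℤ} (hs : (ar A B C : ℝ) ≠ 0) (u : ℝ × ℝ) :
    u.1 = chain_x A B C u * ((B.1 : ℝ) - A.1) + chain_y A B C u * ((C.1 : ℝ) - A.1) ∧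
    u.2 = chain_x A B C u * ((B.2 : ℝ) - A.2) + chain_y A B C u * ((C.2 : ℝ) - A.2) := by
  unfold chain_x chain_y
  constructor
  · field_simp
    rw [chain_ar]; ring
  · field_simp
    rw [chain_ar]; ring

theorem chain_fun_lin {A B C : ℤ × ℤ} (hs : (ar A B C : ℝ) ≠ 0) (f g : ℝ) (u : ℝ × ℝ) :
    ∑ c, (![f * A.1 + g * A.2, f * B.1 + g * B.2, f * C.1 + g * C.2] : Fin 3 → ℝ) c *
      chain_lin A B C u c = f * u.1 + g * u.2 := by
  obtain ⟨h1, h2⟩ := chain_lin_val hs u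
  rw [Fin.sum_univ_three]
  simp only [chain_lin, Matrix.cons_val_zero, Matrix.cons_val_one, Matrix.cons_val_two,
    Matrix.head_cons, Matrix.tail_cons]
  linear_combination (-f) * h1 - g * h2

theorem chain_fun_bary {A B C : ℤ × ℤ} (hs : (ar A B C : ℝ) ≠ 0) (f g : ℝ) (q : ℝ × ℝ) :
    ∑ c, (![f * A.1 + g * A.2, f * B.1 + g * B.2, f * C.1 + g * C.2] : Fin 3 → ℝ) c *
      chain_bary A B C q c = f * q.1 + g * q.2 := by
  obtain ⟨h1, h2⟩ := chain_lin_val hs (q - toR A)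
  have e1 : (q - toR A).1 = q.1 - A.1 := rfl
  have e2 : (q - toR A).2 = q.2 - A.2 := rfl
  rw [e1] at h1
  rw [e2] at h2
  rw [Fin.sum_univ_three]
  simp only [chain_bary, Matrix.cons_val_zero, Matrix.cons_val_one, Matrix.cons_val_two,
    Matrix.head_cons, Matrix.tail_cons]
  linear_combination (-f) * h1 - g * h2

theorem chain_in {A B C : ℤ × ℤ} (hs : (ar A B C : ℝ) ≠ 0) (T : Fin 3 → ℤ × ℤ) (q : ℝ × ℝ) :
    In (fun X => chain_bary A B C (toR (T X))) (chain_bary A B C q) ↔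
      Tri (T 0) (T 1) (T 2) q := by
  constructor
  · rintro ⟨w, h0, h1, h2⟩
    rw [Fin.sum_univ_three] at h1
    have key : ∀ f g : ℝ, f * q.1 + g * q.2 = w 0 * (f * (T 0).1 + g * (T 0).2) +
        w 1 * (f * (T 1).1 + g * (T 1).2) + w 2 * (f * (T 2).1 + g * (T 2).2) := by
      intro f g
      have a0 := chain_fun_bary hs f g (toR (T 0))
      have a1 := chain_fun_bary hs f g (toR (T 1))
      have a2 := chain_fun_bary hs f g (toR (T 2))
      have a3 := chain_fun_bary hs f g q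
      have b0 := h2 0
      have b1 := h2 1
      have b2 := h2 2
      rw [Fin.sum_univ_three] at a0 a1 a2 a3 b0 b1 b2
      rw [b0, b1, b2] at a3
      simp only [toR] at a0 a1 a2 a3
      linear_combination -a3 + w 0 * a0 + w 1 * a1 + w 2 * a2
    refine ⟨w 0, w 1, w 2, h0 0, h0 1, h0 2, h1, ?_, ?_⟩
    · linear_combination key 1 0
    · linear_combination key 0 1
  · rintro ⟨x, y, z, hx, hy, hz, h, h1, h2⟩
    refine ⟨![x, y, z], fun X => ?_, ?_, fun c => ?_⟩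
    · fin_cases X <;> simpa
    · rw [Fin.sum_univ_three]; simpa using h
    · rw [Fin.sum_univ_three]
      simpa using chain_aff A B C (toR (T 0)) (toR (T 1)) (toR (T 2)) q x y z h h1 h2 c

theorem chain_c0 {A B C : ℤ × ℤ} : chain_bary A B C (toR A) = ![1, 0, 0] := by
  simp [chain_bary, chain_x, chain_y]

theorem chain_c1 {A B C : ℤ × ℤ} (hs : (ar A B C : ℝ) ≠ 0) :
    chain_bary A B C (toR B) = ![0, 1, 0] := by
  have hx : chain_x A B C (toR B - toR A) = 1 := by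
    unfold chain_x
    rw [div_eq_one_iff_eq hs, chain_ar]
    simp [toR]
  have hy : chain_y A B C (toR B - toR A) = 0 := by
    unfold chain_y
    rw [div_eq_zero_iff]
    left
    simp only [toR, Prod.fst_sub, Prod.snd_sub]
    ring
  simp [chain_bary, hx, hy]

theorem chain_c2 {A B C : ℤ × ℤ} (hs : (ar A B C : ℝ) ≠ 0) :
    chain_bary A B C (toR C) = ![0, 0, 1] := by
  have hx : chain_x A B C (toR C - toR A) = 0 := by
    unfold chain_x
    rw [div_eq_zero_iff]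
    left
    simp only [toR, Prod.fst_sub, Prod.snd_sub]
    ring
  have hy : chain_y A B C (toR C - toR A) = 1 := by
    unfold chain_y
    rw [div_eq_one_iff_eq hs, chain_ar]
    simp [toR]
  simp [chain_bary, hx, hy]

theorem chain_unit {A B C : ℤ × ℤ} (hs : (ar A B C : ℝ) ≠ 0) {q : ℝ × ℝ} (h : Tri A B C q)
    (c : Fin 3) : 0 ≤ chain_bary A B C q c ∧ chain_bary A B C q c ≤ 1 := by
  obtain ⟨x, y, z, hx, hy, hz, h, h1, h2⟩ := h
  rw [chain_aff A B C (toR A) (toR B) (toR C) q x y z h h1 h2 c, chain_c0, chain_c1 hs,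
    chain_c2 hs]
  fin_cases c <;> simp <;> constructor <;> linarith

theorem chain_det {A B C : ℤ × ℤ} (hs : (ar A B C : ℝ) ≠ 0) (u w : ℝ × ℝ) :
    chain_x A B C u * chain_y A B C w - chain_y A B C u * chain_x A B C w =
      (u.1 * w.2 - u.2 * w.1) / (ar A B C : ℝ) := by
  obtain ⟨h1, h2⟩ := chain_lin_val hs u
  obtain ⟨h3, h4⟩ := chain_lin_val hs w
  rw [eq_div_iff hs, chain_ar]
  generalize chain_x A B C u = x1 at *
  generalize chain_y A B C u = y1 at *
  generalize chain_x A B C w = x2 at *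
  generalize chain_y A B C w = y2 at *
  rw [h1, h2, h3, h4]
  ring

theorem chain_tri0 (A B C : ℤ × ℤ) : Tri A B C (toR A) :=
  ⟨1, 0, 0, by norm_num, le_rfl, le_rfl, by norm_num, by simp [toR], by simp [toR]⟩

theorem chain_tri1 (A B C : ℤ × ℤ) : Tri A B C (toR B) :=
  ⟨0, 1, 0, le_rfl, by norm_num, le_rfl, by norm_num, by simp [toR], by simp [toR]⟩

theorem chain_tri2 (A B C : ℤ × ℤ) : Tri A B C (toR C) :=
  ⟨0, 0, 1, le_rfl, le_rfl, by norm_num, by norm_num, by simp [toR], by simp [toR]⟩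

theorem chain_step {p A B C : ℤ × ℤ} {q : ℝ × ℝ} (h : Tri p A B q) (k : Tri A B C (toR p)) :
    Tri A B C q := by
  obtain ⟨x, y, z, hx, hy, hz, h, h1, h2⟩ := h
  obtain ⟨x', y', z', hx', hy', hz', k, k1, k2⟩ := k
  simp only [toR] at k1 k2
  refine ⟨x * x' + y, x * y' + z, x * z', by positivity, by positivity, by positivity, ?_, ?_, ?_⟩
  · linear_combination h + x * k
  · linear_combination h1 + x * k1
  · linear_combination h2 + x * k2

theorem chain_inside : ∀ l, l ≤ 3 * M → ∀ j, j ≤ l + 2 →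
    Tri (H.v l) (H.v (l + 1)) (H.v (l + 2)) (toR (H.v j)) := by
  intro l
  induction l with
  | zero =>
    intro _ j hj
    obtain rfl | rfl | rfl : j = 0 ∨ j = 1 ∨ j = 2 := by omega
    · exact chain_tri0 _ _ _
    · exact chain_tri1 _ _ _
    · exact chain_tri2 _ _ _
  | succ l ih =>
    intro hl j hj
    rcases Nat.lt_or_ge j (l + 3) with h | h
    · exact chain_step (ih (by omega) j (by omega)) (H.grow l (by omega))
    · obtain rfl : j = l + 1 + 2 := by omega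
      exact chain_tri2 _ _ _

theorem chain_grow (j : ℕ) (hj : j < 3 * M) : ∃ x y z : ℝ, 0 ≤ x ∧ 0 ≤ y ∧ 0 ≤ z ∧
    x + y + z = 1 ∧ H.a j = z * H.a (j + 1) ∧ ∀ A B C c, chain_bary A B C (toR (H.v j)) c =
      x * chain_bary A B C (toR (H.v (j + 1))) c + y * chain_bary A B C (toR (H.v (j + 2))) c +
        z * chain_bary A B C (toR (H.v (j + 3))) c := by
  obtain ⟨x, y, z, hx, hy, hz, h, h1, h2⟩ := H.grow j hj
  refine ⟨x, y, z, hx, hy, hz, h, ?_, fun A B C c => chain_aff A B C _ _ _ _ x y z h h1 h2 c⟩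
  unfold a
  have e : (ar (H.v j) (H.v (j + 1)) (H.v (j + 2)) : ℝ) =
      z * (ar (H.v (j + 1)) (H.v (j + 1 + 1)) (H.v (j + 1 + 2)) : ℝ) := by
    simp only [toR] at h1 h2
    rw [chain_ar, chain_ar, h1, h2]
    obtain rfl : x = 1 - y - z := by linarith
    have e2 : j + 1 + 1 = j + 2 := rfl
    have e3 : j + 1 + 2 = j + 3 := rfl
    rw [e2, e3]
    ring
  rw [e, abs_mul, abs_of_nonneg hz]

theorem chain_mono {p q : ℕ} (h : p ≤ q) (hq : q ≤ 3 * M) : H.a p ≤ H.a q := by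
  induction q, h using Nat.le_induction with
  | base => exact le_rfl
  | succ q _ ih =>
    obtain ⟨x, y, z, hx, hy, hz, h, h1, -⟩ := H.chain_grow q (by omega)
    have h0 : 0 ≤ H.a (q + 1) := abs_nonneg _
    have := ih (by omega)
    nlinarith [mul_nonneg (add_nonneg hx hy) h0]

theorem chain_near (i e : ℕ) (he : e ≤ M) (X c : Fin 3) (hc : c ≠ X) : ∀ n l, i ≤ l → l + n = e →
    chain_bary (H.v (3 * e)) (H.v (3 * e + 1)) (H.v (3 * e + 2)) (toR (H.v (3 * l + X))) c *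
      H.a (3 * i) ≤ H.a (3 * e) - H.a (3 * l) := by
  have hs : (ar (H.v (3 * e)) (H.v (3 * e + 1)) (H.v (3 * e + 2)) : ℝ) ≠ 0 := by
    exact_mod_cast H.nd (3 * e) (by omega)
  have hX := X.2
  intro n
  induction n with
  | zero =>
    intro l _ hl
    obtain rfl : l = e := by omega
    have : chain_bary (H.v (3 * l)) (H.v (3 * l + 1)) (H.v (3 * l + 2))
        (toR (H.v (3 * l + X))) c = 0 := by
      fin_cases X
      · have := congrFun (chain_c0 (A := H.v (3 * l)) (B := H.v (3 * l + 1))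
          (C := H.v (3 * l + 2))) c
        refine Eq.trans this ?_
        fin_cases c <;> simp at hc ⊢
      · refine Eq.trans (congrFun (chain_c1 hs) c) ?_
        fin_cases c <;> simp at hc ⊢
      · refine Eq.trans (congrFun (chain_c2 hs) c) ?_
        fin_cases c <;> simp at hc ⊢
    rw [this]; simp
  | succ n ih =>
    intro l hi hl
    have k := ih (l + 1) (by omega) (by omega)
    obtain ⟨x, y, z, hx, hy, hz, h, h1, h2⟩ := H.chain_grow (3 * l + X) (by omega)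
    have e3 : 3 * (l + 1) + (X : ℕ) = 3 * l + X + 3 := by omega
    rw [e3] at k
    rw [h2]
    have u1 := chain_unit hs (H.chain_inside (3 * e) (by omega) (3 * l + X + 1) (by omega)) c
    have u2 := chain_unit hs (H.chain_inside (3 * e) (by omega) (3 * l + X + 2) (by omega)) c
    have u3 := chain_unit hs (H.chain_inside (3 * e) (by omega) (3 * l + X + 3) (by omega)) c
    generalize chain_bary (H.v (3 * e)) (H.v (3 * e + 1)) (H.v (3 * e + 2))
      (toR (H.v (3 * l + X + 1))) c = p1 at *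
    generalize chain_bary (H.v (3 * e)) (H.v (3 * e + 1)) (H.v (3 * e + 2))
      (toR (H.v (3 * l + X + 2))) c = p2 at *
    generalize chain_bary (H.v (3 * e)) (H.v (3 * e + 1)) (H.v (3 * e + 2))
      (toR (H.v (3 * l + X + 3))) c = p3 at *
    have m0 : 0 ≤ H.a (3 * i) := abs_nonneg _
    have m1 : H.a (3 * i) ≤ H.a (3 * l + X + 1) := H.chain_mono (by omega) (by omega)
    have m2 : H.a (3 * l + X + 1) ≤ H.a (3 * (l + 1)) := H.chain_mono (by omega) (by omega)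
    have m3 : H.a (3 * l) ≤ H.a (3 * l + X) := H.chain_mono (by omega) (by omega)
    have b1 : x * p1 + y * p2 + z * p3 ≤ x + y + p3 := by
      nlinarith [mul_nonneg hx (sub_nonneg.2 u1.2), mul_nonneg hy (sub_nonneg.2 u2.2),
        mul_nonneg (add_nonneg hx hy) u3.1]
    have b2 := mul_le_mul_of_nonneg_right b1 m0
    have b3 := mul_le_mul_of_nonneg_left m1 (add_nonneg hx hy)
    have b4 : (x + y) * H.a (3 * l + X + 1) = H.a (3 * l + X + 1) - H.a (3 * l + X) := by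
      rw [h1]; linear_combination H.a (3 * l + X + 1) * h
    nlinarith

/-- Paper section 2, first lines. Let `A, B, C = v (3e), v (3e+1), v (3e+2)`, `e = i + b`,
`s = ar A B C ≠ 0`. For a real vector `u` put `lin u = ![-x-y, x, y]` with
`x = cross(u, C - A)/s`, `y = cross(B - A, u)/s`, and `bary q = ![1,0,0] + lin (q - A)`.
`P l X = bary (v (3 (i+l) + X))`, `D l X = lin (d (3 (i+l) + X))`, `k = b`, `S = |s|`. `bary` is
affine and injective (`q = A + x (B-A) + y (C-A)`), so `Tri` and `In` correspond. `Tri` is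
transitive, so `grow` gives `nest` (all `v j`, `j ≤ l + 2`, lie in triangle `l`) and coordinates
in `[0,1]`. `near`: from `grow j` with weights `x, y, z` one has `|ar_j| = z |ar_(j+1)|`, so `a` is
monotone and `coord (v j) ≤ coord (v (j+3)) + (x + y)`, `(x + y) a (3i) ≤ a (j+1) - a j`;
downward induction on the layer. `sep`: `f c` = value of the functional at the corner `c`.
`lat`: the determinant is an integer divided by `s`. -/
theorem exists_cfg (i b : ℕ) (h : i + b ≤ M) (ha : H.a (3 * (i + b)) ≤ 101 / 100 * H.a (3 * i)) :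
    ∃ C : Cfg, C.k = b ∧ C.S = H.a (3 * (i + b)) := by
  obtain ⟨e, he⟩ : ∃ e, e = i + b := ⟨_, rfl⟩
  rw [← he] at h ha ⊢
  have hs : (ar (H.v (3 * e)) (H.v (3 * e + 1)) (H.v (3 * e + 2)) : ℝ) ≠ 0 := by
    exact_mod_cast H.nd (3 * e) (by omega)
  have hi : 0 < H.a (3 * i) := by
    unfold a
    exact abs_pos.2 (by exact_mod_cast H.nd (3 * i) (by omega))
  have hin := fun l q => chain_in hs (fun X : Fin 3 => H.v (3 * l + X)) q
  refine ⟨⟨b, H.a (3 * e),
    fun l X => chain_bary (H.v (3 * e)) (H.v (3 * e + 1)) (H.v (3 * e + 2))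
      (toR (H.v (3 * (i + l) + X))),
    fun l X => chain_lin (H.v (3 * e)) (H.v (3 * e + 1)) (H.v (3 * e + 2))
      (toR (H.d (3 * (i + l) + X))),
    abs_pos.2 hs, fun l X => ?_, fun l X => ?_, fun l hl X c hc => ⟨?_, ?_⟩,
    fun l m hl hm X => ?_, fun l hl X => ?_, fun l hl X t h0 h1 => ?_,
    fun l m X Y hl hm hne => ?_, fun l m X Y => ?_⟩, rfl, rfl⟩
  · rw [Fin.sum_univ_three]; simp [chain_bary]; ring
  · rw [Fin.sum_univ_three]; simp [chain_lin]; ring
  · have hX := X.2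
    exact (chain_unit hs (H.chain_inside (3 * e) (by omega) _ (by omega)) c).1
  · have k := H.chain_near i e h X c hc (b - l) (i + l) (by omega) (by omega)
    have m : H.a (3 * i) ≤ H.a (3 * (i + l)) := H.chain_mono (by omega) (by omega)
    refine le_of_mul_le_mul_right ?_ hi
    linarith
  · have hX := X.2
    exact (hin (i + m) _).2 (H.chain_inside (3 * (i + m)) (by omega) _ (by omega))
  · have hX := X.2
    have k := (hin (i + (l + 1)) _).2 (H.tip (3 * (i + l) + X) (3 * (i + (l + 1))) (by omega)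
      (by omega))
    have e1 : toR (H.v (3 * (i + l) + X) + H.d (3 * (i + l) + X)) =
        toR (H.v (3 * (i + l) + X)) + (1 : ℝ) • toR (H.d (3 * (i + l) + X)) := by
      simp [toR]
    rw [e1, chain_add, one_smul] at k
    exact k
  · have hX := X.2
    intro k
    rw [← chain_add] at k
    exact H.avoid (3 * (i + (l + 1)) + X) (3 * (i + l)) (by omega) (by omega) t h0 h1
      ((hin (i + l) _).1 k)
  · have hX := X.2
    have hY := Y.2
    obtain ⟨f, g, k1, k2, k3⟩ := H.sep (3 * (i + l) + X) (3 * (i + m) + Y) (by omega) (by omega)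
      (fun k => hne (Prod.ext (by simp only; omega) (Fin.ext (by simp only; omega))))
    refine ⟨![f * (H.v (3 * e)).1 + g * (H.v (3 * e)).2,
      f * (H.v (3 * e + 1)).1 + g * (H.v (3 * e + 1)).2,
      f * (H.v (3 * e + 2)).1 + g * (H.v (3 * e + 2)).2], ?_, ?_, ?_⟩
    · rw [chain_fun_lin hs]; exact k1
    · rw [chain_fun_lin hs]; exact k2
    · rw [chain_fun_bary hs, chain_fun_bary hs]; exact k3
  · obtain ⟨u, hu⟩ : ∃ u, u = H.d (3 * (i + l) + X) := ⟨_, rfl⟩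
    obtain ⟨w, hw⟩ : ∃ w, w = H.d (3 * (i + m) + Y) := ⟨_, rfl⟩
    rw [← hu, ← hw]
    have k := chain_det hs (toR u) (toR w)
    have e1 : (toR u).1 * (toR w).2 - (toR u).2 * (toR w).1 = ((u.1 * w.2 - u.2 * w.1 : ℤ) : ℝ) := by
      simp [toR]
    rw [e1] at k
    simp only [chain_lin, Matrix.cons_val_one, Matrix.cons_val_two, Matrix.cons_val_zero,
      Matrix.head_cons, Matrix.tail_cons]
    rw [k]
    by_cases h0 : u.1 * w.2 - u.2 * w.1 = 0
    · left; rw [h0]; simp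
    · right
      unfold a
      rw [abs_div, mul_div_cancel₀ _ (abs_ne_zero.2 hs)]
      exact_mod_cast Int.one_le_abs h0

theorem bound : (M : ℝ) ^ 3 ≤ 10 ^ 21 * H.a (3 * M) := by
  refine outer (fun i => H.a (3 * i)) M (fun i hi => ?_) (fun i b m h1 h2 h3 => ?_)
  · unfold a
    exact_mod_cast Int.one_le_abs (H.nd (3 * i) (by omega))
  · obtain ⟨C, k1, k2⟩ := H.exists_cfg i b h1 h3
    exact k2 ▸ C.block m (by omega)

end Chain
end Pool.Agent.Work.MP_37ce0f_lc.A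
end

-- merged part: Pool.Agent.Work.MP_37ce0f_lc.A.Force
section
namespace Pool.Agent.Work.MP_37ce0f_lc.A
variable {X : Type} {H : SimpleGraph X} {p : X → ℤ × ℤ}

theorem force_seg {a b : ℤ × ℤ} {q : ℝ × ℝ} (s t : ℝ) (hs : 0 ≤ s) (ht : 0 ≤ t) (h : s + t = 1)
    (h1 : q.1 = s * a.1 + t * b.1) (h2 : q.2 = s * a.2 + t * b.2) :
    q ∈ segment ℝ (toR a) (toR b) :=
  ⟨s, t, hs, ht, h, Prod.ext h1.symm h2.symm⟩

theorem force_disj (h : Planar H p) {u v x y : X} (uv : H.Adj u v) (xy : H.Adj x y) (h1 : u ≠ x)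
    (h2 : u ≠ y) (h3 : v ≠ x) (h4 : v ≠ y) {q : ℝ × ℝ}
    (hq : q ∈ segment ℝ (toR (p u)) (toR (p v))) (hq' : q ∈ segment ℝ (toR (p x)) (toR (p y))) :
    False := by
  obtain ⟨w, rfl⟩ := h.2.2 u v x y uv xy (fun e => by
    rcases Sym2.eq_iff.1 e with e | e
    · exact h1 e.1
    · exact h2 e.1) q hq hq'
  rcases h.2.1 u v w uv hq with rfl | rfl <;> rcases h.2.1 x y _ xy hq' with e | e
  exacts [h1 e, h2 e, h3 e, h4 e]

theorem force_cast {a b c : ℤ × ℤ} (h : ar a b c ≠ 0) :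
    ((b.1 : ℝ) - a.1) * (c.2 - a.2) - (b.2 - a.2) * (c.1 - a.1) ≠ 0 := by
  unfold ar at h
  exact_mod_cast h

theorem force_bary {a b c : ℤ × ℤ} (h : ar a b c ≠ 0) (q : ℝ × ℝ) : ∃ x y z : ℝ, x + y + z = 1 ∧
    q.1 = x * a.1 + y * b.1 + z * c.1 ∧ q.2 = x * a.2 + y * b.2 + z * c.2 := by
  have e := force_cast h
  obtain ⟨A, hA⟩ : ∃ A : ℝ, A = ((b.1 : ℝ) - a.1) * (c.2 - a.2) - (b.2 - a.2) * (c.1 - a.1) :=
    ⟨_, rfl⟩
  rw [← hA] at e
  obtain ⟨y, hy⟩ : ∃ y : ℝ, y * A = (q.1 - a.1) * (c.2 - a.2) - (q.2 - a.2) * (c.1 - a.1) :=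
    ⟨_, div_mul_cancel₀ _ e⟩
  obtain ⟨z, hz⟩ : ∃ z : ℝ, z * A = (b.1 - a.1) * (q.2 - a.2) - (b.2 - a.2) * (q.1 - a.1) :=
    ⟨_, div_mul_cancel₀ _ e⟩
  refine ⟨1 - y - z, y, z, by ring, mul_right_cancel₀ e ?_, mul_right_cancel₀ e ?_⟩
  · linear_combination (a.1 - b.1 : ℝ) * hy + (a.1 - c.1 : ℝ) * hz + (q.1 - a.1) * hA
  · linear_combination (a.2 - b.2 : ℝ) * hy + (a.2 - c.2 : ℝ) * hz + (q.2 - a.2) * hA

theorem force_zero {a b c : ℤ × ℤ} (h : ar a b c ≠ 0) {x y z : ℝ} (h0 : x + y + z = 0)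
    (h1 : x * a.1 + y * b.1 + z * c.1 = 0) (h2 : x * a.2 + y * b.2 + z * c.2 = 0) :
    y = 0 ∧ z = 0 := by
  have e := force_cast h
  refine ⟨(mul_eq_zero.1 ?_).resolve_right e, (mul_eq_zero.1 ?_).resolve_right e⟩
  · linear_combination (c.2 - a.2 : ℝ) * (h1 - a.1 * h0) - (c.1 - a.1 : ℝ) * (h2 - a.2 * h0)
  · linear_combination (b.1 - a.1 : ℝ) * (h2 - a.2 * h0) - (b.2 - a.2 : ℝ) * (h1 - a.1 * h0)

theorem force_exit {x y z x' y' z' : ℝ} (hx : 0 ≤ x) (hy : 0 ≤ y) (hz : 0 ≤ z)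
    (h : ¬ (0 ≤ x' ∧ 0 ≤ y' ∧ 0 ≤ z')) : ∃ t : ℝ, 0 ≤ t ∧ t ≤ 1 ∧ 0 ≤ x + t * (x' - x) ∧
      0 ≤ y + t * (y' - y) ∧ 0 ≤ z + t * (z' - z) ∧
      (x + t * (x' - x) = 0 ∨ y + t * (y' - y) = 0 ∨ z + t * (z' - z) = 0) := by
  have hc : ContinuousOn (fun t : ℝ => min (x + t * (x' - x))
      (min (y + t * (y' - y)) (z + t * (z' - z)))) (Set.Icc 0 1) := by fun_prop
  obtain ⟨t, ht, e⟩ := intermediate_value_Icc' zero_le_one hc (show (0 : ℝ) ∈ _ from ⟨by
    by_contra hn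
    simp only [not_le, lt_min_iff] at hn
    exact h ⟨by linarith [hn.1], by linarith [hn.2.1], by linarith [hn.2.2]⟩, by
    simp only [le_min_iff]
    exact ⟨by linarith, by linarith, by linarith⟩⟩)
  have e' := e.ge
  simp only [le_min_iff] at e'
  refine ⟨t, ht.1, ht.2, e'.1, e'.2.1, e'.2.2, ?_⟩
  simp only at e
  rcases min_choice (x + t * (x' - x)) (min (y + t * (y' - y)) (z + t * (z' - z))) with k | k
  · exact Or.inl (k ▸ e)
  · rcases min_choice (y + t * (y' - y)) (z + t * (z' - z)) with k' | k'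
    · exact Or.inr (Or.inl (by rw [← k', ← k, e]))
    · exact Or.inr (Or.inr (by rw [← k', ← k, e]))

theorem force_sw1 {a b c : ℤ × ℤ} {q : ℝ × ℝ} (h : Tri a b c q) : Tri b a c q :=
  let ⟨x, y, z, hx, hy, hz, s, e1, e2⟩ := h
  ⟨y, x, z, hy, hx, hz, by linarith, by linarith, by linarith⟩

theorem force_sw2 {a b c : ℤ × ℤ} {q : ℝ × ℝ} (h : Tri a b c q) : Tri a c b q :=
  let ⟨x, y, z, hx, hy, hz, s, e1, e2⟩ := h
  ⟨x, z, y, hx, hz, hy, by linarith, by linarith, by linarith⟩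

theorem force_one (h : Planar H p) {a b c x : X} (ab : H.Adj a b) (ac : H.Adj a c)
    (bc : H.Adj b c) (xa : H.Adj x a) (xb : H.Adj x b) (xc : H.Adj x c) {α β γ : ℝ}
    (s : α + β + γ = 1) (e1 : ((p x).1 : ℝ) = α * (p a).1 + β * (p b).1 + γ * (p c).1)
    (e2 : ((p x).2 : ℝ) = α * (p a).2 + β * (p b).2 + γ * (p c).2) (h1 : α < 0) (h2 : 0 ≤ β)
    (h3 : 0 ≤ γ) : False := by
  obtain ⟨r, hr0, hr⟩ : ∃ r : ℝ, 0 < r ∧ r * (1 - α) = 1 :=
    ⟨(1 - α)⁻¹, inv_pos.2 (by linarith), inv_mul_cancel₀ (by linarith)⟩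
  refine force_disj h xa bc xb.ne xc.ne ab.ne ac.ne
    (q := (r * β * (p b).1 + r * γ * (p c).1, r * β * (p b).2 + r * γ * (p c).2))
    (force_seg r (r * -α) hr0.le (mul_nonneg hr0.le (by linarith)) (by linarith) ?_ ?_)
    (force_seg (r * β) (r * γ) (mul_nonneg hr0.le h2) (mul_nonneg hr0.le h3) ?_ rfl rfl)
  · linear_combination (-r) * e1
  · linear_combination (-r) * e2
  · linear_combination hr + r * s

theorem force_two {a b c x : ℤ × ℤ} {α β γ : ℝ} (s : α + β + γ = 1)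
    (e1 : (x.1 : ℝ) = α * a.1 + β * b.1 + γ * c.1) (e2 : (x.2 : ℝ) = α * a.2 + β * b.2 + γ * c.2)
    (h2 : β < 0) (h3 : γ < 0) : Tri x b c (toR a) := by
  obtain ⟨r, hr0, hr⟩ : ∃ r : ℝ, 0 < r ∧ r * α = 1 :=
    ⟨α⁻¹, inv_pos.2 (by linarith), inv_mul_cancel₀ (by linarith)⟩
  refine ⟨r, r * -β, r * -γ, hr0.le, mul_nonneg hr0.le (by linarith),
    mul_nonneg hr0.le (by linarith), ?_, ?_, ?_⟩
  · linear_combination hr - r * s
  · show (a.1 : ℝ) = _
    linear_combination (-r) * e1 - (a.1 : ℝ) * hr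
  · show (a.2 : ℝ) = _
    linear_combination (-r) * e2 - (a.2 : ℝ) * hr

theorem force_both {x b c y : ℤ × ℤ} (h : ar x b c ≠ 0) (h1 : Tri b c y (toR x))
    (h2 : Tri x b c (toR y)) : x = y := by
  obtain ⟨β, γ, δ, hβ, hγ, hδ, s, e1, e2⟩ := h1
  obtain ⟨α', β', γ', hα', hβ', hγ', s', f1, f2⟩ := h2
  simp only [toR] at e1 e2 f1 f2
  obtain ⟨k1, k2⟩ := force_zero h (x := δ * α' - 1) (y := β + δ * β') (z := γ + δ * γ')
    (by linear_combination s + δ * s') (by linear_combination -e1 - δ * f1)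
    (by linear_combination -e2 - δ * f2)
  have b0 : β = 0 := by linarith [mul_nonneg hδ hβ']
  have c0 : γ = 0 := by linarith [mul_nonneg hδ hγ']
  have d1 : δ = 1 := by linarith
  rw [b0, c0, d1] at e1 e2
  have g1 : (x.1 : ℝ) = y.1 := by linarith
  have g2 : (x.2 : ℝ) = y.2 := by linarith
  exact Prod.ext (by exact_mod_cast g1) (by exact_mod_cast g2)

/-- three collinear points: one lies on the segment of the other two -/
theorem ar_ne (h : Planar H p) {a b c : X} (ab : H.Adj a b) (ac : H.Adj a c) (bc : H.Adj b c) :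
    ar (p a) (p b) (p c) ≠ 0 := by
  intro e
  have e' : (((p b).1 : ℝ) - (p a).1) * ((p c).2 - (p a).2) -
      ((p b).2 - (p a).2) * ((p c).1 - (p a).1) = 0 := by
    unfold ar at e
    exact_mod_cast e
  have hN : 0 < (((p b).1 : ℝ) - (p a).1) ^ 2 + (((p b).2 : ℝ) - (p a).2) ^ 2 := by
    by_contra hn
    have k1 : ((p b).1 : ℝ) - (p a).1 = 0 := by
      nlinarith [sq_nonneg (((p b).1 : ℝ) - (p a).1), sq_nonneg (((p b).2 : ℝ) - (p a).2)]
    have k2 : ((p b).2 : ℝ) - (p a).2 = 0 := by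
      nlinarith [sq_nonneg (((p b).1 : ℝ) - (p a).1), sq_nonneg (((p b).2 : ℝ) - (p a).2)]
    have g1 : ((p a).1 : ℝ) = (p b).1 := by linarith
    have g2 : ((p a).2 : ℝ) = (p b).2 := by linarith
    exact ab.ne (h.1 (Prod.ext (by exact_mod_cast g1) (by exact_mod_cast g2)))
  obtain ⟨t, ht⟩ : ∃ t : ℝ, t * ((((p b).1 : ℝ) - (p a).1) ^ 2 + (((p b).2 : ℝ) - (p a).2) ^ 2) =
      ((p c).1 - (p a).1) * ((p b).1 - (p a).1) + ((p c).2 - (p a).2) * ((p b).2 - (p a).2) :=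
    ⟨_, div_mul_cancel₀ _ hN.ne'⟩
  have c1 : ((p c).1 : ℝ) = (1 - t) * (p a).1 + t * (p b).1 := mul_right_cancel₀ hN.ne' (by
    linear_combination (((p a).1 : ℝ) - (p b).1) * ht - (((p b).2 : ℝ) - (p a).2) * e')
  have c2 : ((p c).2 : ℝ) = (1 - t) * (p a).2 + t * (p b).2 := mul_right_cancel₀ hN.ne' (by
    linear_combination (((p a).2 : ℝ) - (p b).2) * ht + (((p b).1 : ℝ) - (p a).1) * e')
  rcases lt_or_ge t 0 with t0 | t0
  · obtain ⟨r, hr0, hr⟩ : ∃ r : ℝ, 0 < r ∧ r * (1 - t) = 1 :=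
      ⟨(1 - t)⁻¹, inv_pos.2 (by linarith), inv_mul_cancel₀ (by linarith)⟩
    refine (h.2.1 b c a bc (force_seg (r * -t) r (mul_nonneg hr0.le (by linarith)) hr0.le
      (by linarith) ?_ ?_)).elim ab.ne ac.ne
    · show ((p a).1 : ℝ) = _
      linear_combination (-r) * c1 - ((p a).1 : ℝ) * hr
    · show ((p a).2 : ℝ) = _
      linear_combination (-r) * c2 - ((p a).2 : ℝ) * hr
  rcases le_or_gt t 1 with t1 | t1
  · exact (h.2.1 a b c ab (force_seg (1 - t) t (by linarith) t0 (by ring) c1 c2)).elim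
      ac.ne' bc.ne'
  · obtain ⟨r, hr0, hr⟩ : ∃ r : ℝ, 0 < r ∧ r * t = 1 :=
      ⟨t⁻¹, inv_pos.2 (by linarith), inv_mul_cancel₀ (by linarith)⟩
    refine (h.2.1 a c b ac (force_seg (r * (t - 1)) r (mul_nonneg hr0.le (by linarith)) hr0.le
      (by linarith) ?_ ?_)).elim ab.ne' bc.ne
    · show ((p b).1 : ℝ) = _
      linear_combination (-r) * c1 - ((p b).1 : ℝ) * hr
    · show ((p b).2 : ℝ) = _
      linear_combination (-r) * c2 - ((p b).2 : ℝ) * hr

/-- CROSS. Every point has barycentric coordinates (`ar_ne`), affine along the edge `uv`. If `q`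
is in the triangle and `q'` is not, go from `q` towards `q'` until the first coordinate vanishes:
a point of `uv` on a side, so a vertex `w` on both edges, `w ∈ {u, v}` and `w ∈ {a, b, c}`. -/
theorem edge_in (h : Planar H p) {a b c u v : X} (ab : H.Adj a b) (ac : H.Adj a c)
    (bc : H.Adj b c) (uv : H.Adj u v) (hu : u ≠ a ∧ u ≠ b ∧ u ≠ c) (hv : v ≠ a ∧ v ≠ b ∧ v ≠ c)
    {q q' : ℝ × ℝ} (hq : q ∈ segment ℝ (toR (p u)) (toR (p v)))
    (hq' : q' ∈ segment ℝ (toR (p u)) (toR (p v))) (k : Tri (p a) (p b) (p c) q) :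
    Tri (p a) (p b) (p c) q' := by
  obtain ⟨x, y, z, hx, hy, hz, s, e1, e2⟩ := k
  obtain ⟨x', y', z', s', f1, f2⟩ := force_bary (ar_ne h ab ac bc) q'
  by_cases hn : 0 ≤ x' ∧ 0 ≤ y' ∧ 0 ≤ z'
  · exact ⟨x', y', z', hn.1, hn.2.1, hn.2.2, s', f1, f2⟩
  exfalso
  obtain ⟨t, t0, t1, g1, g2, g3, g⟩ := force_exit hx hy hz hn
  have m : (1 - t) • q + t • q' ∈ segment ℝ (toR (p u)) (toR (p v)) :=
    convex_segment _ _ hq hq' (by linarith) t0 (by ring)
  have m1 : ((1 - t) • q + t • q').1 = (1 - t) * q.1 + t * q'.1 := rfl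
  have m2 : ((1 - t) • q + t • q').2 = (1 - t) * q.2 + t * q'.2 := rfl
  rcases g with g | g | g
  · refine force_disj h uv bc hu.2.1 hu.2.2 hv.2.1 hv.2.2 m (force_seg _ _ g2 g3 ?_ ?_ ?_)
    · linear_combination (1 - t) * s + t * s' - g
    · linear_combination m1 + (1 - t) * e1 + t * f1 + ((p a).1 : ℝ) * g
    · linear_combination m2 + (1 - t) * e2 + t * f2 + ((p a).2 : ℝ) * g
  · refine force_disj h uv ac hu.1 hu.2.2 hv.1 hv.2.2 m (force_seg _ _ g1 g3 ?_ ?_ ?_)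
    · linear_combination (1 - t) * s + t * s' - g
    · linear_combination m1 + (1 - t) * e1 + t * f1 + ((p b).1 : ℝ) * g
    · linear_combination m2 + (1 - t) * e2 + t * f2 + ((p b).2 : ℝ) * g
  · refine force_disj h uv ab hu.1 hu.2.1 hv.1 hv.2.1 m (force_seg _ _ g1 g2 ?_ ?_ ?_)
    · linear_combination (1 - t) * s + t * s' - g
    · linear_combination m1 + (1 - t) * e1 + t * f1 + ((p c).1 : ℝ) * g
    · linear_combination m2 + (1 - t) * e2 + t * f2 + ((p c).2 : ℝ) * g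

/-- K4: barycentric coordinates `(α, β, γ)` of `x`. If `α < 0 ≤ β, γ` the edge `xa` meets `bc` in
`(β b + γ c)/(β + γ)`, which must be a vertex on both edges, impossible. So if one coordinate is
negative then two are, say `β, γ < 0`, `α > 1`, and `a = (x - β b - γ c)/α` lies in `x b c`. -/
theorem k4 (h : Planar H p) {a b c x : X} (ab : H.Adj a b) (ac : H.Adj a c) (bc : H.Adj b c)
    (xa : H.Adj x a) (xb : H.Adj x b) (xc : H.Adj x c) :
    Tri (p a) (p b) (p c) (toR (p x)) ∨ Tri (p x) (p b) (p c) (toR (p a)) ∨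
      Tri (p a) (p x) (p c) (toR (p b)) ∨ Tri (p a) (p b) (p x) (toR (p c)) := by
  obtain ⟨α, β, γ, s, e1, e2⟩ := force_bary (ar_ne h ab ac bc) (toR (p x))
  simp only [toR] at e1 e2
  rcases lt_or_ge α 0 with h1 | h1 <;> rcases lt_or_ge β 0 with h2 | h2 <;>
    rcases lt_or_ge γ 0 with h3 | h3
  · linarith
  · exact Or.inr (Or.inr (Or.inr (force_sw2 (force_sw1 (force_two (α := γ) (β := α) (γ := β)
      (by linarith) (by linarith) (by linarith) h1 h2)))))
  · exact Or.inr (Or.inr (Or.inl (force_sw1 (force_two (α := β) (β := α) (γ := γ)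
      (by linarith) (by linarith) (by linarith) h1 h3))))
  · exact (force_one h ab ac bc xa xb xc s e1 e2 h1 h2 h3).elim
  · exact Or.inr (Or.inl (force_two s e1 e2 h2 h3))
  · exact (force_one h ab.symm bc ac xb xa xc (α := β) (β := α) (γ := γ) (by linarith)
      (by linarith) (by linarith) h2 h1 h3).elim
  · exact (force_one h ac.symm bc.symm ab xc xa xb (α := γ) (β := α) (γ := β) (by linarith)
      (by linarith) (by linarith) h3 h1 h2).elim
  · exact Or.inl ⟨α, β, γ, h1, h2, h3, s, e1, e2⟩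

theorem force_k5 (h : Planar H p) {a b c x y : X} (ab : H.Adj a b) (ac : H.Adj a c)
    (bc : H.Adj b c) (xa : H.Adj x a) (xb : H.Adj x b) (xc : H.Adj x c) (ya : H.Adj y a)
    (yb : H.Adj y b) (yc : H.Adj y c) (xy : x ≠ y) (k : Tri (p x) (p b) (p c) (toR (p a))) :
    Tri (p a) (p b) (p c) (toR (p y)) := by
  obtain ⟨α', β', γ', g1, g2, g3, s', f1, f2⟩ := edge_in h xb xc bc ya ⟨xy.symm, yb.ne, yc.ne⟩
    ⟨xa.ne', ab.ne, ac.ne⟩ (right_mem_segment _ _ _) (left_mem_segment _ _ _) k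
  have k' := k
  obtain ⟨α, β, γ, h1, h2, h3, s, e1, e2⟩ := k'
  simp only [toR] at e1 e2 f1 f2
  obtain ⟨t, t0, -, m1, m2, m3, m⟩ := force_exit g1 g2 g3 (x' := α' - 2 * α) (y' := β' - 2 * β)
    (z' := γ' - 2 * γ) fun e => by linarith [e.1, e.2.1, e.2.2]
  rcases m with m | m | m
  · refine ⟨2 * t, _, _, by linarith, m2, m3, ?_, ?_, ?_⟩
    · linear_combination s' - 2 * t * s - m
    · show ((p y).1 : ℝ) = _
      linear_combination f1 - 2 * t * e1 + ((p x).1 : ℝ) * m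
    · show ((p y).2 : ℝ) = _
      linear_combination f2 - 2 * t * e2 + ((p x).2 : ℝ) * m
  · have n : Tri (p a) (p x) (p c) (toR (p y)) := by
      refine ⟨2 * t, _, _, by linarith, m1, m3, ?_, ?_, ?_⟩
      · linear_combination s' - 2 * t * s - m
      · show ((p y).1 : ℝ) = _
        linear_combination f1 - 2 * t * e1 + ((p b).1 : ℝ) * m
      · show ((p y).2 : ℝ) = _
        linear_combination f2 - 2 * t * e2 + ((p b).2 : ℝ) * m
    exact absurd (h.1 (force_both (ar_ne h xa.symm ac xc) (force_sw2 k)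
      (edge_in h xa.symm ac xc yb ⟨ya.ne, xy.symm, yc.ne⟩ ⟨ab.ne', xb.ne', bc.ne⟩
        (left_mem_segment _ _ _) (right_mem_segment _ _ _) n))) ab.ne
  · have n : Tri (p a) (p x) (p b) (toR (p y)) := by
      refine ⟨2 * t, _, _, by linarith, m1, m2, ?_, ?_, ?_⟩
      · linear_combination s' - 2 * t * s - m
      · show ((p y).1 : ℝ) = _
        linear_combination f1 - 2 * t * e1 + ((p c).1 : ℝ) * m
      · show ((p y).2 : ℝ) = _
        linear_combination f2 - 2 * t * e2 + ((p c).2 : ℝ) * m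
    exact absurd (h.1 (force_both (ar_ne h xa.symm ab xb) k
      (edge_in h xa.symm ab xb yc ⟨ya.ne, xy.symm, yb.ne⟩ ⟨ac.ne', xc.ne', bc.ne'⟩
        (left_mem_segment _ _ _) (right_mem_segment _ _ _) n))) ac.ne

/-- `K5` minus an edge. If `a` is in `x b c`, then `y` is in `x b c` (`edge_in` for `ya`), hence
in `a b c`, `x a b` or `x a c` (subtract the largest multiple of the weights of `a`); `x a b` is
impossible by `edge_in` for `yc` (`c` in `x a b` and `a` in `x b c` contradict each other: compare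
`|ar|`, or coordinates). -/
theorem k5 (h : Planar H p) {a b c x y : X} (ab : H.Adj a b) (ac : H.Adj a c) (bc : H.Adj b c)
    (xa : H.Adj x a) (xb : H.Adj x b) (xc : H.Adj x c) (ya : H.Adj y a) (yb : H.Adj y b)
    (yc : H.Adj y c) (xy : x ≠ y) :
    Tri (p a) (p b) (p c) (toR (p x)) ∨ Tri (p a) (p b) (p c) (toR (p y)) := by
  rcases k4 h ab ac bc xa xb xc with k | k | k | k
  · exact Or.inl k
  · exact Or.inr (force_k5 h ab ac bc xa xb xc ya yb yc xy k)
  · exact Or.inr (force_sw1 (force_k5 h ab.symm bc ac xb xa xc yb ya yc xy (force_sw1 k)))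
  · exact Or.inr (force_sw2 (force_sw1 (force_k5 h ac.symm bc.symm ab xc xa xb yc ya yb xy
      (force_sw1 (force_sw2 k)))))

/-- `x` in `b c y` and `y` in `x b c` force `x = y` (when `x b c` is nondegenerate). -/
theorem not_both {x b c y : ℤ × ℤ} (h : ar x b c ≠ 0) (h1 : Tri b c y (toR x))
    (h2 : Tri x b c (toR y)) : x = y :=
  force_both h h1 h2

end Pool.Agent.Work.MP_37ce0f_lc.A
end

-- merged part: Pool.Agent.Work.MP_37ce0f_lc.A.Run
section
namespace Pool.Agent.Work.MP_37ce0f_lc.A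

theorem run_leaf {m : ℕ} {i : Fin m} {x : Fin m × Bool} (h : (G m).Adj x (i, true)) :
    x = (i, false) := by
  obtain ⟨a, b⟩ := x
  rw [G, SimpleGraph.fromRel_adj] at h
  obtain ⟨-, (h | h) | (h | h)⟩ := h
  · exact absurd h.2.1 (by simp)
  · exact Prod.ext h.1 h.2.1
  · exact absurd h.1 (by simp)
  · exact absurd h.2.1 (by simp)

theorem run_last {X : Type} {H : SimpleGraph X} (φ : X → ℝ) {u v : X} (w : H.Walk u v)
    (hw : ∀ e ∈ w.darts, φ e.fst < φ e.snd) (huv : u ≠ v) :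
    ∃ y, H.Adj y v ∧ φ y < φ v ∧ (u = y ∨ φ u < φ y) := by
  induction w with
  | nil => exact absurd rfl huv
  | @cons u x v a w ih =>
    have h1 : φ u < φ x := hw ⟨(u, x), a⟩ (by simp)
    by_cases e : x = v
    · subst e
      exact ⟨u, a, h1, Or.inl rfl⟩
    · obtain ⟨y, y1, y2, y3⟩ := ih (fun e he => hw e (by simp [he])) e
      refine ⟨y, y1, y2, Or.inr ?_⟩
      rcases y3 with rfl | y3
      · exact h1
      · exact h1.trans y3

/-- SEP. The walk from the leaf `i` to the leaf `j` has a dart leaving `{(i, true)}`, which ends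
in `(i, false)`, and a dart entering `(j, true)` from `(j, false)`
(`SimpleGraph.Walk.exists_boundary_dart`). The functional increases strictly along the walk;
write the walk as `cons`, and its tail reversed as `cons` (or use `getVert`/`concat`), to compare
the values at `(i, false)` and `(j, false)`: they are different vertices joined by a subwalk. -/
theorem sep_leaf {m : ℕ} {p : Fin m × Bool → ℤ × ℤ} (h : IsMono (G m) p) {i j : Fin m}
    (hij : i ≠ j) : ∃ f g : ℝ,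
    f * (p (i, true) - p (i, false)).1 + g * (p (i, true) - p (i, false)).2 < 0 ∧
    0 < f * (p (j, true) - p (j, false)).1 + g * (p (j, true) - p (j, false)).2 ∧
    f * (p (i, false)).1 + g * (p (i, false)).2 < f * (p (j, false)).1 + g * (p (j, false)).2 := by
  obtain ⟨w, -, d, hd⟩ := h (i, true) (j, true)
  obtain ⟨φ, hφ⟩ : ∃ φ : Fin m × Bool → ℝ, ∀ u, φ u = d.1 * (p u).1 + d.2 * (p u).2 :=
    ⟨_, fun _ => rfl⟩
  have hw : ∀ e ∈ w.darts, φ e.fst < φ e.snd := fun e he => by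
    have := hd e he
    rw [hφ, hφ]
    linarith
  refine ⟨d.1, d.2, ?_⟩
  cases w with
  | nil => exact absurd rfl hij
  | @cons _ x _ a w =>
    have h1 : φ (i, true) < φ x := hw ⟨((i, true), x), a⟩ (by simp)
    obtain rfl := run_leaf a.symm
    obtain ⟨y, y1, y2, y3⟩ := run_last φ w (fun e he => hw e (by simp [he])) (by simp)
    obtain rfl := run_leaf y1
    have y4 := y3.resolve_left fun e => hij (congrArg Prod.fst e)
    rw [hφ, hφ] at h1 y2 y4
    simp only [Prod.fst_sub, Prod.snd_sub, Int.cast_sub]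
    exact ⟨by linarith, by linarith, y4⟩

theorem run_trans {a b c a' b' c' : ℤ × ℤ} {q : ℝ × ℝ} (h : Tri a b c q)
    (ha : Tri a' b' c' (toR a)) (hb : Tri a' b' c' (toR b)) (hc : Tri a' b' c' (toR c)) :
    Tri a' b' c' q := by
  obtain ⟨x, y, z, hx, hy, hz, hs, q1, q2⟩ := h
  obtain ⟨x1, y1, z1, hx1, hy1, hz1, hs1, a1, a2⟩ := ha
  obtain ⟨x2, y2, z2, hx2, hy2, hz2, hs2, b1, b2⟩ := hb
  obtain ⟨x3, y3, z3, hx3, hy3, hz3, hs3, c1, c2⟩ := hc
  simp only [toR] at a1 a2 b1 b2 c1 c2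
  refine ⟨x * x1 + y * x2 + z * x3, x * y1 + y * y2 + z * y3, x * z1 + y * z2 + z * z3,
    by positivity, by positivity, by positivity, ?_, ?_, ?_⟩
  · linear_combination x * hs1 + y * hs2 + z * hs3 + hs
  · rw [q1, a1, b1, c1]
    ring
  · rw [q2, a2, b2, c2]
    ring

theorem run_fst (a b c : ℤ × ℤ) : Tri a b c (toR a) :=
  ⟨1, 0, 0, zero_le_one, le_rfl, le_rfl, by ring, by simp [toR], by simp [toR]⟩

theorem run_snd (a b c : ℤ × ℤ) : Tri a b c (toR b) :=
  ⟨0, 1, 0, le_rfl, zero_le_one, le_rfl, by ring, by simp [toR], by simp [toR]⟩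

theorem run_rev {a b c : ℤ × ℤ} {q : ℝ × ℝ} (h : Tri a b c q) : Tri c b a q := by
  obtain ⟨x, y, z, hx, hy, hz, hs, q1, q2⟩ := h
  exact ⟨z, y, x, hz, hy, hx, by linarith, by linarith, by linarith⟩

theorem run_lt {a b c x : ℤ × ℤ} (h : Tri a b c (toR x)) (hx : x ≠ c) : ∃ γ : ℝ, γ < 1 ∧
    ((b.1 : ℝ) - a.1) * (x.2 - a.2) - (b.2 - a.2) * (x.1 - a.1) = γ * (ar a b c : ℝ) := by
  obtain ⟨α, β, γ, h1, h2, h3, hs, q1, q2⟩ := h
  simp only [toR] at q1 q2
  refine ⟨γ, lt_of_le_of_ne (by linarith) fun e => hx ?_, ?_⟩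
  · have e1 : α = 0 := by linarith
    have e2 : β = 0 := by linarith
    rw [e, e1, e2] at q1 q2
    refine Prod.ext ?_ ?_
    · exact_mod_cast (by linarith : (x.1 : ℝ) = c.1)
    · exact_mod_cast (by linarith : (x.2 : ℝ) = c.2)
  · have e : α = 1 - β - γ := by linarith
    rw [q1, q2, e, ar]
    push_cast
    ring

theorem run_ext {a b c x y z : ℤ × ℤ} (h : ar a b c ≠ 0) (hx : Tri a b c (toR x))
    (hy : Tri a b c (toR y)) (hz : Tri a b c (toR z)) (nx : x ≠ c) (ny : y ≠ c) (nz : z ≠ c) :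
    ¬ Tri x y z (toR c) := by
  rintro ⟨r, s, t, h1, h2, h3, hs, q1, q2⟩
  simp only [toR] at q1 q2
  obtain ⟨α, a1, a2⟩ := run_lt hx nx
  obtain ⟨β, b1, b2⟩ := run_lt hy ny
  obtain ⟨γ, c1, c2⟩ := run_lt hz nz
  have hA : (ar a b c : ℝ) ≠ 0 := by exact_mod_cast h
  have e0 : (ar a b c : ℝ) =
      ((b.1 : ℝ) - a.1) * (c.2 - a.2) - (b.2 - a.2) * (c.1 - a.1) := by
    rw [ar]
    push_cast
    ring
  have e1 : (r * α + s * β + t * γ - 1) * (ar a b c : ℝ) = 0 := by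
    linear_combination (-r) * a2 - s * b2 - t * c2 - e0 - ((b.1 : ℝ) - a.1) * q2 +
      ((b.2 : ℝ) - a.2) * q1 + (-((b.1 : ℝ) - a.1) * a.2 + ((b.2 : ℝ) - a.2) * a.1) * hs
  have e2 := (mul_eq_zero.1 e1).resolve_right hA
  have k1 := mul_nonneg h1 (sub_pos.2 a1).le
  have k2 := mul_nonneg h2 (sub_pos.2 b1).le
  have k3 := mul_nonneg h3 (sub_pos.2 c1).le
  have r0 : r = 0 := (mul_eq_zero.1 (by linarith : r * (1 - α) = 0)).resolve_right (by linarith)
  have s0 : s = 0 := (mul_eq_zero.1 (by linarith : s * (1 - β) = 0)).resolve_right (by linarith)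
  have t0 : t = 0 := (mul_eq_zero.1 (by linarith : t * (1 - γ) = 0)).resolve_right (by linarith)
  linarith

theorem run_adj {m : ℕ} {i j : Fin m} (h1 : i.val < j.val) (h2 : j.val ≤ i.val + 3) :
    (G m).Adj (i, false) (j, false) := by
  rw [G, SimpleGraph.fromRel_adj]
  exact ⟨fun e => h1.ne (congrArg (fun x : Fin m × Bool => x.1.val) e),
    Or.inl (Or.inl ⟨rfl, rfl, h1, h2⟩)⟩

theorem run_adjL {m : ℕ} (i : Fin m) : (G m).Adj (i, false) (i, true) := by
  rw [G, SimpleGraph.fromRel_adj]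
  exact ⟨by simp, Or.inl (Or.inr ⟨rfl, rfl, rfl⟩)⟩

theorem run_chain {m M : ℕ} {p : Fin m × Bool → ℤ × ℤ} (hp : Planar (G m) p)
    (h : IsMono (G m) p) (e : ℕ → Fin m)
    (inj : ∀ i j, i ≤ 3 * M + 2 → j ≤ 3 * M + 2 → i ≠ j → e i ≠ e j)
    (adj : ∀ i j, i < j → j ≤ i + 3 → j ≤ 3 * M + 2 → (G m).Adj (e i, false) (e j, false))
    (grow : ∀ j, j < 3 * M → Tri (p (e (j + 1), false)) (p (e (j + 2), false))
      (p (e (j + 3), false)) (toR (p (e j, false)))) :
    ∃ H : Chain M, ∀ j, ∃ u, H.v j = p u := by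
  have nd : ∀ j, j ≤ 3 * M →
      ar (p (e j, false)) (p (e (j + 1), false)) (p (e (j + 2), false)) ≠ 0 := fun j hj =>
    ar_ne hp (adj _ _ (by omega) (by omega) (by omega)) (adj _ _ (by omega) (by omega) (by omega))
      (adj _ _ (by omega) (by omega) (by omega))
  have ins : ∀ j l, j ≤ l + 1 → l ≤ 3 * M → Tri (p (e l, false)) (p (e (l + 1), false))
      (p (e (l + 2), false)) (toR (p (e j, false))) := by
    intro j l
    induction l with
    | zero =>
      intro h1 _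
      rcases (by omega : j = 0 ∨ j = 0 + 1) with rfl | rfl
      · exact run_fst _ _ _
      · exact run_snd _ _ _
    | succ l ih =>
      intro h1 h2
      rcases (by omega : j ≤ l + 1 ∨ j = l + 1 + 1) with h3 | rfl
      · exact run_trans (ih h3 (by omega)) (grow l (by omega)) (run_fst _ _ _) (run_snd _ _ _)
      · exact run_snd _ _ _
  have ed : ∀ j l, j ≤ 3 * M + 2 → l ≤ 3 * M → j < l ∨ l + 2 < j → ∀ q q' : ℝ × ℝ,
      q ∈ segment ℝ (toR (p (e j, false))) (toR (p (e j, true))) →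
      q' ∈ segment ℝ (toR (p (e j, false))) (toR (p (e j, true))) →
      Tri (p (e l, false)) (p (e (l + 1), false)) (p (e (l + 2), false)) q →
      Tri (p (e l, false)) (p (e (l + 1), false)) (p (e (l + 2), false)) q' := by
    intro j l hj hl hjl q q' hq hq' k
    have n : ∀ i, l ≤ i → i ≤ l + 2 → (e j, false) ≠ (e i, false) := fun i h1 h2 k =>
      inj j i hj (by omega) (by omega) (congrArg Prod.fst k)
    exact edge_in hp (adj _ _ (by omega) (by omega) (by omega))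
      (adj _ _ (by omega) (by omega) (by omega)) (adj _ _ (by omega) (by omega) (by omega))
      (run_adjL (e j)) ⟨n _ (by omega) (by omega), n _ (by omega) (by omega),
        n _ (by omega) (by omega)⟩ ⟨by simp, by simp, by simp⟩ hq hq' k
  refine ⟨⟨fun j => p (e j, false), fun j => p (e j, true) - p (e j, false), nd, grow,
    fun j l h1 h2 => ?_, fun j l h1 h2 t t0 t1 k => ?_,
    fun i j hi hj hij => sep_leaf h (inj i j hi hj hij)⟩, fun j => ⟨_, rfl⟩⟩
  · rw [add_sub_cancel]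
    exact ed j l (by omega) h2 (Or.inl h1) _ _ (left_mem_segment _ _ _) (right_mem_segment _ _ _)
      (ins j l (by omega) h2)
  · have k2 := ed j l h2 (by omega) (Or.inr h1) _ _ (by
      refine ⟨1 - t, t, by linarith, t0, by ring, ?_⟩
      refine Prod.ext ?_ ?_ <;> simp [toR] <;> ring) (left_mem_segment _ _ _) k
    obtain ⟨n, rfl⟩ : ∃ n, j = n + 2 := ⟨j - 2, by omega⟩
    have ne : ∀ i, i < n + 2 → p (e i, false) ≠ p (e (n + 2), false) := fun i hi k =>
      inj i (n + 2) (by omega) h2 hi.ne (congrArg Prod.fst (hp.1 k))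
    exact run_ext (nd n (by omega)) (ins l n (by omega) (by omega))
      (ins (l + 1) n (by omega) (by omega)) (ins (l + 2) n (by omega) (by omega))
      (ne _ (by omega)) (ne _ (by omega)) (ne _ h1) k2

/-- Paper section 1. Gr(j): `v j` in the triangle `j+1, j+2, j+3`; Sh(j): `v (j+3)` in the
triangle `j, j+1, j+2`. `k5`: not Gr(j) gives Sh(j+1); `not_both`: Sh(j) gives not Gr(j). Either
Gr(j) for all `j < 3M`, or Sh(j) for all `j ≥ 3M` (with `j + 3 < m`); in the second case use the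
index map `e j = m - 1 - j`. It is best to prove one lemma for an index map `e : ℕ → Fin m` that
is injective on `[0, 3M+2]`, has `(e i, false) ~ (e j, false)` for `i < j ≤ i + 3` and satisfies
`grow`. `tip`: `v j` lies in triangle `l` for `j < l` (transitivity of `Tri`), then `edge_in` for
the leaf edge. `avoid`: by `edge_in` `v j` would lie in triangle `l`, whose corners lie in the
triangle `j-2, j-1, j` and differ from `v j`; so the barycentric coordinate of `v j` is `< 1` at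
the three corners but `1` at `v j`. -/
theorem exists_chain {m M : ℕ} {p : Fin m × Bool → ℤ × ℤ} (hp : Planar (G m) p)
    (h : IsMono (G m) p) (hM : 6 * M + 3 ≤ m) : ∃ H : Chain M, ∀ j, ∃ u, H.v j = p u := by
  have m0 : 0 < m := by omega
  obtain ⟨e, he⟩ : ∃ e : ℕ → Fin m, ∀ j, j < m → (e j).val = j :=
    ⟨fun j => ⟨j % m, Nat.mod_lt _ m0⟩, fun j hj => Nat.mod_eq_of_lt hj⟩
  have inj : ∀ i j, i < m → j < m → i ≠ j → e i ≠ e j := fun i j hi hj n k =>
    n (by rw [← he i hi, ← he j hj, k])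
  have adj : ∀ i j, i < j → j ≤ i + 3 → j < m → (G m).Adj (e i, false) (e j, false) :=
    fun i j h1 h2 h3 => run_adj (by rw [he i (by omega), he j h3]; exact h1)
      (by rw [he i (by omega), he j h3]; exact h2)
  by_cases gr : ∀ j, j < 3 * M → Tri (p (e (j + 1), false)) (p (e (j + 2), false))
      (p (e (j + 3), false)) (toR (p (e j, false)))
  · exact run_chain hp h e (fun i j hi hj => inj i j (by omega) (by omega))
      (fun i j h1 h2 h3 => adj i j h1 h2 (by omega)) gr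
  push Not at gr
  obtain ⟨j0, hj0, n0⟩ := gr
  have step : ∀ j, j + 4 < m → ¬ Tri (p (e (j + 1), false)) (p (e (j + 2), false))
      (p (e (j + 3), false)) (toR (p (e j, false))) → Tri (p (e (j + 1), false))
      (p (e (j + 2), false)) (p (e (j + 3), false)) (toR (p (e (j + 4), false))) :=
    fun j hj n => (k5 hp (adj _ _ (by omega) (by omega) (by omega))
      (adj _ _ (by omega) (by omega) (by omega)) (adj _ _ (by omega) (by omega) (by omega))
      (adj _ _ (by omega) (by omega) (by omega)) (adj _ _ (by omega) (by omega) (by omega))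
      (adj _ _ (by omega) (by omega) (by omega)) (adj _ _ (by omega) (by omega) (by omega)).symm
      (adj _ _ (by omega) (by omega) (by omega)).symm
      (adj _ _ (by omega) (by omega) (by omega)).symm
      (fun k => inj j (j + 4) (by omega) hj (by omega) (congrArg Prod.fst k))).resolve_left n
  have sh : ∀ j, j0 + 1 ≤ j → j + 3 < m → Tri (p (e j, false)) (p (e (j + 1), false))
      (p (e (j + 2), false)) (toR (p (e (j + 3), false))) := by
    intro j hj
    induction j, hj using Nat.le_induction with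
    | base => exact fun k => step j0 k n0
    | succ j hj ih =>
      intro k
      refine step j k fun g => ?_
      exact inj j (j + 3) (by omega) (by omega) (by omega) (congrArg Prod.fst (hp.1
        (not_both (ar_ne hp (adj _ _ (by omega) (by omega) (by omega))
          (adj _ _ (by omega) (by omega) (by omega)) (adj _ _ (by omega) (by omega) (by omega)))
          g (ih (by omega)))))
  refine run_chain hp h (fun j => e (m - 1 - j))
    (fun i j hi hj n => inj _ _ (by omega) (by omega) (by omega))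
    (fun i j h1 h2 h3 => (adj _ _ (by omega) (by omega) (by omega)).symm) fun j hj => ?_
  have k := run_rev (sh (m - 4 - j) (by omega) (by omega))
  rw [show m - 4 - j + 2 = m - 1 - (j + 1) by omega, show m - 4 - j + 1 = m - 1 - (j + 2) by omega,
    show m - 4 - j + 3 = m - 1 - j by omega, show m - 4 - j = m - 1 - (j + 3) by omega] at k
  exact k

end Pool.Agent.Work.MP_37ce0f_lc.A
end

-- merged part: Pool.Agent.Work.MP_37ce0f_lc.A.Upper
section
namespace Pool.Agent.Work.MP_37ce0f_lc.A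

/-- directions of the three arms -/
def arm (m : ℕ) (j : ℕ) : ℤ × ℤ :=
  if j % 3 = 0 then (2 * m, 1) else if j % 3 = 1 then (-(2 * m), 1) else (0, -1)

/-- leaf vectors -/
def leaf (m : ℕ) (j : ℕ) : ℤ × ℤ :=
  if j % 3 = 0 then (2 * m + (m - j), 1) else if j % 3 = 1 then (-(2 * m) + (m - j), 1)
  else (-(m - j), -1)

def pos (m : ℕ) (x : Fin m × Bool) : ℤ × ℤ :=
  ((x.1.val : ℤ) + 1) • arm m x.1.val + if x.2 then leaf m x.1.val else 0

theorem inBox (m : ℕ) : InBox (pos m) (10 * m ^ 2) (4 * m) := by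
  refine ⟨-(5 * m ^ 2), -(2 * m), ?_⟩
  rintro ⟨j, b⟩
  have h1 : (j.val : ℤ) + 1 ≤ m := by exact_mod_cast j.isLt
  have h0 : (0 : ℤ) ≤ j.val := by positivity
  have h2 : ((j.val : ℤ) + 1) * m ≤ m * m := mul_le_mul_of_nonneg_right h1 (by omega)
  have h3 : (0 : ℤ) ≤ ((j.val : ℤ) + 1) * m := by positivity
  have h4 : (m : ℤ) ≤ m * m := by nlinarith
  cases b <;>
    simp only [pos, arm, leaf, Bool.false_eq_true, if_false, if_true, add_zero] <;>
    split_ifs <;>
    simp only [Prod.fst_add, Prod.snd_add, Prod.smul_fst, Prod.smul_snd, smul_eq_mul] <;>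
    push_cast <;>
    refine ⟨?_, ?_, ?_, ?_⟩ <;> nlinarith

/-- `F` increases along some walk -/
def upper_Up {m : ℕ} (F : Fin m × Bool → ℤ) (u v : Fin m × Bool) : Prop :=
  ∃ w : (G m).Walk u v, ∀ e ∈ w.darts, F e.fst < F e.snd

theorem upper_refl {m : ℕ} (F : Fin m × Bool → ℤ) (u : Fin m × Bool) : upper_Up F u u :=
  ⟨.nil, by simp⟩

theorem upper_trans {m : ℕ} {F : Fin m × Bool → ℤ} {u v w : Fin m × Bool} (h : upper_Up F u v)
    (h' : upper_Up F v w) : upper_Up F u w := by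
  obtain ⟨p, hp⟩ := h
  obtain ⟨q, hq⟩ := h'
  refine ⟨p.append q, fun e he => ?_⟩
  rw [SimpleGraph.Walk.darts_append, List.mem_append] at he
  exact he.elim (hp e) (hq e)

theorem upper_edge {m : ℕ} {F : Fin m × Bool → ℤ} {u v : Fin m × Bool} (h : (G m).Adj u v)
    (k : F u < F v) : upper_Up F u v :=
  ⟨.cons h .nil, by simpa using k⟩

/-- the functional `(x, y) ↦ f x + g y` -/
def upper_ph (f g : ℤ) (p : ℤ × ℤ) : ℤ := f * p.1 + g * p.2

def upper_fn {m : ℕ} (f g : ℤ) (v : Fin m × Bool) : ℤ := upper_ph f g (pos m v)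

theorem upper_rev {m : ℕ} {f g : ℤ} {u v : Fin m × Bool} (h : upper_Up (upper_fn f g) u v) :
    upper_Up (upper_fn (-f) (-g)) v u := by
  obtain ⟨p, hp⟩ := h
  refine ⟨p.reverse, fun e he => ?_⟩
  have := hp _ (SimpleGraph.Walk.mem_darts_reverse.1 he)
  simp only [upper_fn, upper_ph, SimpleGraph.Dart.symm_toProd, Prod.fst_swap, Prod.snd_swap]
    at this ⊢
  linarith

theorem upper_fn_false {m : ℕ} (f g : ℤ) (j : Fin m) :
    upper_fn f g (j, false) = ((j.val : ℤ) + 1) * upper_ph f g (arm m j.val) := by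
  simp only [upper_fn, upper_ph, pos, Bool.false_eq_true, if_false, add_zero, Prod.smul_fst,
    Prod.smul_snd, smul_eq_mul]
  ring

theorem upper_fn_true {m : ℕ} (f g : ℤ) (j : Fin m) :
    upper_fn f g (j, true) = upper_fn f g (j, false) + upper_ph f g (leaf m j.val) := by
  simp only [upper_fn, upper_ph, pos, Bool.false_eq_true, if_false, if_true, add_zero,
    Prod.fst_add, Prod.snd_add]
  ring

theorem upper_adj_sp {m : ℕ} {a b : Fin m} (h : a.val < b.val) (k : b.val ≤ a.val + 3) :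
    (G m).Adj (a, false) (b, false) := by
  refine (SimpleGraph.fromRel_adj _ _ _).2 ⟨fun e => ?_, Or.inl (Or.inl ⟨rfl, rfl, h, k⟩)⟩
  have := congrArg (fun x : Fin m × Bool => x.1.val) e
  simp only at this
  omega

theorem upper_adj_lf {m : ℕ} (a : Fin m) : (G m).Adj (a, false) (a, true) :=
  (SimpleGraph.fromRel_adj _ _ _).2 ⟨by simp, Or.inl (Or.inr ⟨rfl, rfl, rfl⟩)⟩

theorem upper_spine {m : ℕ} {f g : ℤ} (a : Fin m) : ∀ (n : ℕ) (b : Fin m), b.val = n →
    a.val < b.val → upper_ph f g (arm m a.val) ≤ upper_ph f g (arm m b.val) →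
    0 < upper_ph f g (arm m b.val) → upper_Up (upper_fn f g) (a, false) (b, false) := by
  intro n
  induction n using Nat.strong_induction_on with
  | _ n ih =>
    intro b hb hab h1 h2
    have step : ∀ c : Fin m, c.val < b.val → b.val ≤ c.val + 3 →
        upper_ph f g (arm m c.val) ≤ upper_ph f g (arm m b.val) →
        upper_Up (upper_fn f g) (c, false) (b, false) := fun c k1 k2 k3 => by
      refine upper_edge (upper_adj_sp k1 k2) ?_
      rw [upper_fn_false, upper_fn_false]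
      have k4 : (c.val : ℤ) < b.val := by exact_mod_cast k1
      have k5 : (0 : ℤ) ≤ (c.val : ℤ) + 1 := by positivity
      have k6 := mul_le_mul_of_nonneg_left k3 k5
      have k7 := mul_pos (sub_pos.2 k4) h2
      linarith
    by_cases k : b.val ≤ a.val + 3
    · exact step a hab k h1
    · have hc : b.val - 3 < m := by have := b.isLt; omega
      have e : arm m (b.val - 3) = arm m b.val := by
        have e3 : (b.val - 3) % 3 = b.val % 3 := by omega
        unfold arm; rw [e3]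
      refine upper_trans (ih (b.val - 3) (by omega) ⟨b.val - 3, hc⟩ rfl (by simp only; omega)
        (by simpa only [e] using h1) (by simpa only [e] using h2)) ?_
      exact step ⟨b.val - 3, hc⟩ (by simp only; omega) (by simp only; omega) (by simp only [e]; rfl)

theorem upper_fun {m : ℕ} {a b : ℕ} (hab : a < b) (hb : b < m) : ∃ f g : ℤ,
    upper_ph f g (arm m a) ≤ upper_ph f g (arm m b) ∧ 0 < upper_ph f g (arm m b) ∧
    upper_ph f g (leaf m a) < 0 ∧ 0 < upper_ph f g (leaf m b) := by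
  have ha3 : a % 3 = 0 ∨ a % 3 = 1 ∨ a % 3 = 2 := by omega
  have hb3 : b % 3 = 0 ∨ b % 3 = 1 ∨ b % 3 = 2 := by omega
  rcases ha3 with ha3 | ha3 | ha3 <;> rcases hb3 with hb3 | hb3 | hb3
  · refine ⟨-2, 4 * m + (m - a) + (m - b), ?_⟩
    simp [upper_ph, arm, leaf, ha3, hb3]; omega
  · refine ⟨-1, 0, ?_⟩
    simp [upper_ph, arm, leaf, ha3, hb3]; omega
  · refine ⟨0, -1, ?_⟩
    simp [upper_ph, arm, leaf, ha3, hb3]
  · refine ⟨1, 0, ?_⟩
    simp [upper_ph, arm, leaf, ha3, hb3]; omega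
  · refine ⟨-2, -(4 * m) + (m - a) + (m - b), ?_⟩
    simp [upper_ph, arm, leaf, ha3, hb3]; omega
  · refine ⟨0, -1, ?_⟩
    simp [upper_ph, arm, leaf, ha3, hb3]
  · refine ⟨0, 1, ?_⟩
    simp [upper_ph, arm, leaf, ha3, hb3]
  · refine ⟨0, 1, ?_⟩
    simp [upper_ph, arm, leaf, ha3, hb3]
  · refine ⟨2, -((m - a) + (m - b)), ?_⟩
    simp [upper_ph, arm, leaf, ha3, hb3]; omega

theorem upper_lt {m : ℕ} {a b : Fin m} (h : a.val < b.val) (s t : Bool) :
    ∃ f g, upper_Up (upper_fn f g) (a, s) (b, t) := by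
  obtain ⟨f, g, h1, h2, h3, h4⟩ := upper_fun h b.isLt
  have k1 : upper_Up (upper_fn f g) (a, s) (a, false) := by
    cases s
    · exact upper_refl _ _
    · exact upper_edge (upper_adj_lf a).symm (by rw [upper_fn_true]; linarith)
  have k2 : upper_Up (upper_fn f g) (b, false) (b, t) := by
    cases t
    · exact upper_refl _ _
    · exact upper_edge (upper_adj_lf b) (by rw [upper_fn_true]; linarith)
  exact ⟨f, g, upper_trans k1 (upper_trans (upper_spine a _ b rfl h h1 h2) k2)⟩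

theorem upper_lf {m : ℕ} (a : Fin m) : ∃ f g, upper_Up (upper_fn f g) (a, false) (a, true) := by
  refine ⟨0, (leaf m a.val).2, upper_edge (upper_adj_lf a) ?_⟩
  rw [upper_fn_true]
  have : 0 < upper_ph 0 (leaf m a.val).2 (leaf m a.val) := by
    unfold upper_ph leaf
    split_ifs <;> simp
  linarith

theorem upper_key {m : ℕ} (u v : Fin m × Bool) : ∃ f g, upper_Up (upper_fn f g) u v := by
  obtain ⟨a, s⟩ := u
  obtain ⟨b, t⟩ := v
  rcases lt_trichotomy a.val b.val with h | h | h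
  · exact upper_lt h s t
  · obtain rfl : a = b := Fin.ext h
    cases s <;> cases t
    · exact ⟨0, 0, upper_refl _ _⟩
    · exact upper_lf a
    · obtain ⟨f, g, k⟩ := upper_lf a
      exact ⟨_, _, upper_rev k⟩
    · exact ⟨0, 0, upper_refl _ _⟩
  · obtain ⟨f, g, k⟩ := upper_lt h t s
    exact ⟨_, _, upper_rev k⟩

/-- Pattern: `Up`, `Up.trans`, `Up.rev`, `bypass` in `N/Upper.lean` (copy, do not import).
Different arms: from `(a, *)` go to `v a`, down the arm, one chord to the other arm, up the arm,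
to `(b, *)`: if `a < b` the chord goes from `a` to `a+1` or `a+2`, if `a > b` from `b+1` or `b+2`
to `b`. One functional per ordered pair of arms is negative on arm and leaves of the first and
positive on arm and leaves of the second (after dividing `x` by `2m` the cones are
`[(3/2,1),(1,1)]`, `[(-1/2,1),(-1,1)]`, `[(-1/2,-1),(0,-1)]`). Same arm, `a < b`: take
`cross(g, ·)` with `g = leaf a + leaf b`; it is negative on `leaf a`, positive on `leaf b` and on
the arm. -/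
theorem isMono (m : ℕ) : IsMono (G m) (pos m) := by
  intro u v
  obtain ⟨f, g, w, hw⟩ := upper_key u v
  refine ⟨w.bypass, w.bypass_isPath, ((f : ℝ), (g : ℝ)), fun e he => ?_⟩
  have h := hw e (w.darts_bypass_subset_darts he)
  unfold upper_fn upper_ph at h
  have h' : (f : ℝ) * (pos m e.fst).1 + g * (pos m e.fst).2 <
      f * (pos m e.snd).1 + g * (pos m e.snd).2 := by exact_mod_cast h
  simp only
  linarith

end Pool.Agent.Work.MP_37ce0f_lc.A
end

-- merged part: Pool.Agent.Work.MP_37ce0f_lc.A.Upper2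
section
namespace Pool.Agent.Work.MP_37ce0f_lc.A

/-- the point with coordinates `s`, `t` in the sector of `j` -/
def upper2_pt (m j : ℕ) (s t : ℝ) : ℝ × ℝ := s • toR (arm m j) + t • toR (arm m (j + 2))

theorem upper2_arm (m j : ℕ) : arm m (j + 3) = arm m j := by
  simp only [arm, Nat.add_mod_right]

theorem upper2_co (m j : ℕ) (s t : ℝ) :
    j % 3 = 0 ∧ upper2_pt m j s t = (2 * m * s, s - t) ∨
    j % 3 = 1 ∧ upper2_pt m j s t = (2 * m * (t - s), s + t) ∨
    j % 3 = 2 ∧ upper2_pt m j s t = (2 * m * (-t), t - s) := by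
  have h : j % 3 = 0 ∧ (j + 2) % 3 = 2 ∨ j % 3 = 1 ∧ (j + 2) % 3 = 0 ∨
      j % 3 = 2 ∧ (j + 2) % 3 = 1 := by omega
  rcases h with ⟨h1, h2⟩ | ⟨h1, h2⟩ | ⟨h1, h2⟩
  · refine Or.inl ⟨h1, ?_⟩
    ext <;> simp [upper2_pt, arm, toR, h1, h2] <;> ring
  · refine Or.inr (Or.inl ⟨h1, ?_⟩)
    ext <;> simp [upper2_pt, arm, toR, h1, h2] <;> ring
  · refine Or.inr (Or.inr ⟨h1, ?_⟩)
    ext <;> simp [upper2_pt, arm, toR, h1, h2] <;> ring

theorem upper2_uniq {m j j' : ℕ} (hm : 0 < m) {s t s' t' : ℝ} (hs : 0 < s) (ht : 0 ≤ t)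
    (hs' : 0 < s') (ht' : 0 ≤ t') (h : upper2_pt m j s t = upper2_pt m j' s' t') :
    (j = j' ∨ (j : ℝ) + 3 ≤ j' ∨ (j' : ℝ) + 3 ≤ j) ∧ s = s' ∧ t = t' := by
  have h0 : (2 * m : ℝ) ≠ 0 := by positivity
  have key : j % 3 = j' % 3 ∧ s = s' ∧ t = t' := by
    rcases upper2_co m j s t with ⟨a, e⟩ | ⟨a, e⟩ | ⟨a, e⟩ <;>
    rcases upper2_co m j' s' t' with ⟨a', e'⟩ | ⟨a', e'⟩ | ⟨a', e'⟩ <;>
    rw [e, e', Prod.mk.injEq] at h <;>
    have h1 := mul_left_cancel₀ h0 h.1 <;>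
    have h2 := h.2 <;>
    first
      | exact ⟨a.trans a'.symm, by linarith, by linarith⟩
      | exact absurd hs (by linarith)
  refine ⟨?_, key.2⟩
  have h3 : j = j' ∨ j + 3 ≤ j' ∨ j' + 3 ≤ j := by
    have := key.1
    omega
  exact_mod_cast h3

/-- points of a leaf edge other than its base -/
def upper2_L (m j : ℕ) (q : ℝ × ℝ) : Prop :=
  ∃ s t : ℝ, j + 1 < s ∧ s ≤ j + 5 / 2 ∧ 0 < t ∧ t ≤ 1 / 2 ∧ q = upper2_pt m j s t

/-- inner points of a chord -/
def upper2_C (m a b : ℕ) (q : ℝ × ℝ) : Prop := (b + 1 = a ∨ b = a + 2) ∧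
  ∃ τ : ℝ, 0 < τ ∧ τ < 1 ∧ q = upper2_pt m a (τ * (a + 1)) ((1 - τ) * (b + 1))

/-- inner points of an arm edge -/
def upper2_A (m j : ℕ) (q : ℝ × ℝ) : Prop :=
  ∃ s : ℝ, j + 1 < s ∧ s < j + 4 ∧ q = upper2_pt m j s 0

/-- spine vertices -/
def upper2_V (m j : ℕ) (q : ℝ × ℝ) : Prop := q = upper2_pt m j (j + 1) 0

section
variable {m j j' a b a' b' : ℕ} {q : ℝ × ℝ} (hm : 0 < m)
include hm

theorem upper2_LL (h : upper2_L m j q) (h' : upper2_L m j' q) : j = j' := by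
  obtain ⟨s, t, h1, h2, h3, h4, e⟩ := h
  obtain ⟨s', t', h1', h2', h3', h4', e'⟩ := h'
  obtain ⟨k, k1, -⟩ := upper2_uniq hm (lt_trans (by positivity) h1) h3.le
    (lt_trans (by positivity) h1') h3'.le (e.symm.trans e')
  rcases k with k | k | k
  · exact k
  · linarith
  · linarith

theorem upper2_LC (h : upper2_L m j q) (h' : upper2_C m a b q) : False := by
  obtain ⟨s, t, h1, h2, h3, h4, e⟩ := h
  obtain ⟨hb, τ, h1', h2', e'⟩ := h'
  have h5 := sub_pos.2 h2'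
  obtain ⟨k, k1, k2⟩ := upper2_uniq hm (lt_trans (by positivity) h1) h3.le
    (by positivity) (by positivity) (e.symm.trans e')
  have h6 : τ * ((a : ℝ) + 1) < a + 1 := mul_lt_of_lt_one_left (by positivity) h2'
  rcases k with k | k | k
  · subst k
    linarith
  · have h7 : (a : ℝ) ≤ b + 1 := by exact_mod_cast (by omega : a ≤ b + 1)
    have h8 := mul_le_mul_of_nonneg_left (k.trans h7) h5.le
    have h9 := mul_le_mul_of_nonneg_left k h1'.le
    linarith
  · linarith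

theorem upper2_LA (h : upper2_L m j q) (h' : upper2_A m j' q) : False := by
  obtain ⟨s, t, h1, h2, h3, h4, e⟩ := h
  obtain ⟨s', h1', h2', e'⟩ := h'
  exact h3.ne' (upper2_uniq hm (lt_trans (by positivity) h1) h3.le
    (lt_trans (by positivity) h1') le_rfl (e.symm.trans e')).2.2

theorem upper2_LV (h : upper2_L m j q) (h' : upper2_V m j' q) : False := by
  obtain ⟨s, t, h1, h2, h3, h4, e⟩ := h
  exact h3.ne' (upper2_uniq hm (lt_trans (by positivity) h1) h3.le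
    (by positivity) le_rfl (e.symm.trans h')).2.2

omit hm in
theorem upper2_mono {A B A' B' τ τ' : ℝ} (hA : 0 < A) (hB : 0 < B) (h1 : A ≤ A') (h2 : B ≤ B')
    (t1 : 0 < τ') (t2 : τ' < 1) (e1 : τ * A = τ' * A') (e2 : (1 - τ) * B = (1 - τ') * B') :
    A = A' ∧ B = B' := by
  have k1 : τ' ≤ τ := le_of_mul_le_mul_right
    ((mul_le_mul_of_nonneg_left h1 t1.le).trans e1.ge) hA
  have k2 : 1 - τ' ≤ 1 - τ := le_of_mul_le_mul_right
    ((mul_le_mul_of_nonneg_left h2 (sub_pos.2 t2).le).trans e2.ge) hB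
  have k3 : τ = τ' := by linarith
  rw [k3] at e1 e2
  exact ⟨mul_left_cancel₀ t1.ne' e1, mul_left_cancel₀ (sub_pos.2 t2).ne' e2⟩

theorem upper2_CC (h : upper2_C m a b q) (h' : upper2_C m a' b' q) : a = a' ∧ b = b' := by
  obtain ⟨hb, τ, h1, h2, e⟩ := h
  obtain ⟨hb', τ', h1', h2', e'⟩ := h'
  have h5 := sub_pos.2 h2
  have h5' := sub_pos.2 h2'
  obtain ⟨k, k1, k2⟩ := upper2_uniq hm (by positivity) (by positivity)
    (by positivity) (by positivity) (e.symm.trans e')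
  have k0 : a = a' ∨ a + 3 ≤ a' ∨ a' + 3 ≤ a := by exact_mod_cast k
  have k3 : a ≤ a' ∧ b ≤ b' ∨ a' ≤ a ∧ b' ≤ b := by omega
  rcases k3 with ⟨k3, k4⟩ | ⟨k3, k4⟩
  · obtain ⟨k5, k6⟩ := upper2_mono (by positivity) (by positivity) (by exact_mod_cast by omega)
      (by exact_mod_cast by omega) h1' h2' k1 k2
    exact ⟨by exact_mod_cast add_right_cancel k5, by exact_mod_cast add_right_cancel k6⟩
  · obtain ⟨k5, k6⟩ := upper2_mono (by positivity) (by positivity) (by exact_mod_cast by omega)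
      (by exact_mod_cast by omega) h1 h2 k1.symm k2.symm
    exact ⟨by exact_mod_cast (add_right_cancel k5).symm,
      by exact_mod_cast (add_right_cancel k6).symm⟩

theorem upper2_CA (h : upper2_C m a b q) (h' : upper2_A m j q) : False := by
  obtain ⟨hb, τ, h1, h2, e⟩ := h
  obtain ⟨s', h1', h2', e'⟩ := h'
  have h5 := sub_pos.2 h2
  exact absurd (upper2_uniq hm (by positivity) (by positivity)
    (lt_trans (by positivity) h1') le_rfl (e.symm.trans e')).2.2 (by positivity)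

theorem upper2_CV (h : upper2_C m a b q) (h' : upper2_V m j q) : False := by
  obtain ⟨hb, τ, h1, h2, e⟩ := h
  have h5 := sub_pos.2 h2
  exact absurd (upper2_uniq hm (by positivity) (by positivity)
    (by positivity) le_rfl (e.symm.trans h')).2.2 (by positivity)

theorem upper2_AA (h : upper2_A m j q) (h' : upper2_A m j' q) : j = j' := by
  obtain ⟨s, h1, h2, e⟩ := h
  obtain ⟨s', h1', h2', e'⟩ := h'
  obtain ⟨k, k1, -⟩ := upper2_uniq hm (lt_trans (by positivity) h1) le_rfl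
    (lt_trans (by positivity) h1') le_rfl (e.symm.trans e')
  rcases k with k | k | k
  · exact k
  · linarith
  · linarith

theorem upper2_AV (h : upper2_A m j q) (h' : upper2_V m j' q) : False := by
  obtain ⟨s, h1, h2, e⟩ := h
  obtain ⟨k, k1, -⟩ := upper2_uniq hm (lt_trans (by positivity) h1) le_rfl
    (by positivity) le_rfl (e.symm.trans h')
  rcases k with k | k | k
  · subst k
    linarith
  · linarith
  · linarith

theorem upper2_VV (h : upper2_V m j q) (h' : upper2_V m j' q) : j = j' := by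
  obtain ⟨-, k1, -⟩ := upper2_uniq hm (by positivity) le_rfl
    (by positivity) le_rfl (h.symm.trans h')
  exact_mod_cast add_right_cancel k1

end

theorem upper2_spine {m : ℕ} (j : Fin m) :
    toR (pos m (j, false)) = ((j.val : ℝ) + 1) • toR (arm m j.val) := by
  ext <;> simp [pos, toR]

theorem upper2_V_of {m : ℕ} (j : Fin m) : upper2_V m j.val (toR (pos m (j, false))) := by
  rw [upper2_V, upper2_spine, upper2_pt, zero_smul, add_zero]

theorem upper2_leaf {m : ℕ} (j : Fin m) : ∃ α β : ℝ, 0 < α ∧ α ≤ 3 / 2 ∧ 0 < β ∧ β ≤ 1 / 2 ∧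
    toR (pos m (j, true)) = toR (pos m (j, false)) + upper2_pt m j.val α β := by
  have hj : (j.val : ℝ) < m := by exact_mod_cast j.2
  have h0 : (0 : ℝ) ≤ j.val := Nat.cast_nonneg _
  have hm : (0 : ℝ) < 2 * m := by linarith
  obtain ⟨r, r0, r1, hr⟩ : ∃ r : ℝ, 0 < r ∧ r ≤ 1 / 2 ∧ 2 * m * r = m - j.val :=
    ⟨(m - j.val) / (2 * m), div_pos (by linarith) hm, (div_le_iff₀ hm).2 (by linarith),
      mul_div_cancel₀ _ hm.ne'⟩
  have e : toR (pos m (j, true)) = toR (pos m (j, false)) + toR (leaf m j.val) := by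
    ext <;> simp [pos, toR]
  rw [e]
  have h : j.val % 3 = 0 ∨ j.val % 3 = 1 ∨ j.val % 3 = 2 := by omega
  rcases h with h | h | h
  · refine ⟨1 + r, r, by linarith, by linarith, r0, r1, congrArg _ ?_⟩
    rcases upper2_co m j.val (1 + r) r with ⟨-, k⟩ | ⟨k, -⟩ | ⟨k, -⟩
    · rw [k]
      ext <;> simp [leaf, toR, h] <;> linarith
    · omega
    · omega
  · refine ⟨1 - r / 2, r / 2, by linarith, by linarith, by linarith, by linarith, congrArg _ ?_⟩
    rcases upper2_co m j.val (1 - r / 2) (r / 2) with ⟨k, -⟩ | ⟨-, k⟩ | ⟨k, -⟩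
    · omega
    · rw [k]
      ext <;> simp [leaf, toR, h] <;> linarith
    · omega
  · refine ⟨1 + r, r, by linarith, by linarith, r0, r1, congrArg _ ?_⟩
    rcases upper2_co m j.val (1 + r) r with ⟨k, -⟩ | ⟨k, -⟩ | ⟨-, k⟩
    · omega
    · omega
    · rw [k]
      ext <;> simp [leaf, toR, h] <;> linarith

theorem upper2_L_of {m : ℕ} (j : Fin m) {x y : ℝ} (hy : 0 < y) (hy' : y ≤ 1) (h : x + y = 1) :
    upper2_L m j.val (x • toR (pos m (j, false)) + y • toR (pos m (j, true))) := by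
  obtain ⟨α, β, a1, a2, b1, b2, e⟩ := upper2_leaf j
  have h1 := mul_pos hy a1
  have h2 := mul_le_of_le_one_left a1.le hy'
  have h3 := mul_le_of_le_one_left b1.le hy'
  refine ⟨j.val + 1 + y * α, y * β, by linarith, by linarith, mul_pos hy b1, by linarith, ?_⟩
  obtain rfl : x = 1 - y := by linarith
  rw [e, upper2_spine, upper2_pt, upper2_pt]
  module

/-- the oriented edges -/
def upper2_r {m : ℕ} (x y : Fin m × Bool) : Prop :=
  (x.2 = false ∧ y.2 = false ∧ x.1.val < y.1.val ∧ y.1.val ≤ x.1.val + 3) ∨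
  (x.1 = y.1 ∧ x.2 = false ∧ y.2 = true)

theorem upper2_edge {m : ℕ} {u v : Fin m × Bool} (h : upper2_r u v) {q : ℝ × ℝ}
    (hq : q ∈ segment ℝ (toR (pos m u)) (toR (pos m v))) :
    q = toR (pos m u) ∨ q = toR (pos m v) ∨ u.2 = false ∧
      (v.2 = false ∧ v.1.val = u.1.val + 3 ∧ upper2_A m u.1.val q ∨
      v.2 = false ∧ v.1.val = u.1.val + 1 ∧ upper2_C m v.1.val u.1.val q ∨
      v.2 = false ∧ v.1.val = u.1.val + 2 ∧ upper2_C m u.1.val v.1.val q ∨
      v.2 = true ∧ v.1.val = u.1.val ∧ upper2_L m u.1.val q) := by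
  obtain ⟨x, y, hx, hy, hxy, rfl⟩ := hq
  rcases hy.eq_or_lt with k | hy
  · left
    obtain rfl : x = 1 := by linarith
    rw [← k, one_smul, zero_smul, add_zero]
  rcases hx.eq_or_lt with k | hx
  · right
    left
    obtain rfl : y = 1 := by linarith
    rw [← k, one_smul, zero_smul, zero_add]
  obtain ⟨i, c⟩ := u
  obtain ⟨j, d⟩ := v
  refine Or.inr (Or.inr ?_)
  rcases h with ⟨h1, h2, h3, h4⟩ | ⟨h1, h2, h3⟩
  · dsimp only at h1 h2 h3 h4 ⊢
    subst h1 h2
    obtain rfl : x = 1 - y := by linarith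
    refine ⟨rfl, ?_⟩
    have h5 : j.val = i.val + 3 ∨ j.val = i.val + 1 ∨ j.val = i.val + 2 := by omega
    rw [upper2_spine, upper2_spine]
    rcases h5 with h5 | h5 | h5
    · refine Or.inl ⟨rfl, h5, i.val + 1 + 3 * y, by linarith, by linarith, ?_⟩
      rw [h5, upper2_arm, upper2_pt]
      push_cast
      module
    · refine Or.inr (Or.inl ⟨rfl, h5, Or.inl h5.symm, y, hy, by linarith, ?_⟩)
      rw [h5, upper2_pt, upper2_arm]
      module
    · refine Or.inr (Or.inr (Or.inl ⟨rfl, h5, Or.inr h5, 1 - y, hx, by linarith, ?_⟩))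
      rw [h5, upper2_pt]
      module
  · dsimp only at h1 h2 h3 ⊢
    subst h1 h2 h3
    exact ⟨rfl, Or.inr (Or.inr (Or.inr ⟨rfl, rfl, upper2_L_of i hy (by linarith) hxy⟩))⟩

theorem upper2_vert {m : ℕ} (w : Fin m × Bool) :
    w.2 = false ∧ upper2_V m w.1.val (toR (pos m w)) ∨
      w.2 = true ∧ upper2_L m w.1.val (toR (pos m w)) := by
  obtain ⟨j, c⟩ := w
  cases c
  · exact Or.inl ⟨rfl, upper2_V_of j⟩
  · have h := upper2_L_of j one_pos le_rfl (zero_add 1)
    rw [zero_smul, one_smul, zero_add] at h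
    exact Or.inr ⟨rfl, h⟩

theorem upper2_ext {m : ℕ} {u v : Fin m × Bool} (h1 : u.1.val = v.1.val) (h2 : u.2 = v.2) :
    u = v := Prod.ext (Fin.ext h1) h2

theorem upper2_inj {m : ℕ} {u v : Fin m × Bool} (h : toR (pos m u) = toR (pos m v)) : u = v := by
  have hm := u.1.pos
  rcases upper2_vert u with ⟨a, k⟩ | ⟨a, k⟩ <;> rcases upper2_vert v with ⟨a', k'⟩ | ⟨a', k'⟩ <;>
    rw [← h] at k'
  · exact upper2_ext (upper2_VV hm k k') (a.trans a'.symm)
  · exact (upper2_LV hm k' k).elim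
  · exact (upper2_LV hm k k').elim
  · exact upper2_ext (upper2_LL hm k k') (a.trans a'.symm)

theorem upper2_two {m : ℕ} {u v w : Fin m × Bool} (h : upper2_r u v)
    (hq : toR (pos m w) ∈ segment ℝ (toR (pos m u)) (toR (pos m v))) : w = u ∨ w = v := by
  have hm := u.1.pos
  rcases upper2_edge h hq with k | k | ⟨-, k⟩
  · exact Or.inl (upper2_inj k)
  · exact Or.inr (upper2_inj k)
  rcases upper2_vert w with ⟨a, k'⟩ | ⟨a, k'⟩ <;>
    rcases k with ⟨b, c, k⟩ | ⟨b, c, k⟩ | ⟨b, c, k⟩ | ⟨b, c, k⟩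
  · exact (upper2_AV hm k k').elim
  · exact (upper2_CV hm k k').elim
  · exact (upper2_CV hm k k').elim
  · exact (upper2_LV hm k k').elim
  · exact (upper2_LA hm k' k).elim
  · exact (upper2_LC hm k' k).elim
  · exact (upper2_LC hm k' k).elim
  · exact Or.inr (upper2_ext ((upper2_LL hm k' k).trans c.symm) (a.trans b.symm))

theorem upper2_three {m : ℕ} {u v x y : Fin m × Bool} (h : upper2_r u v) (h' : upper2_r x y)
    {q : ℝ × ℝ} (hq : q ∈ segment ℝ (toR (pos m u)) (toR (pos m v)))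
    (hq' : q ∈ segment ℝ (toR (pos m x)) (toR (pos m y))) :
    s(u, v) = s(x, y) ∨ ∃ w, q = toR (pos m w) := by
  have hm := u.1.pos
  rcases upper2_edge h hq with k | k | ⟨a, k⟩
  · exact Or.inr ⟨_, k⟩
  · exact Or.inr ⟨_, k⟩
  rcases upper2_edge h' hq' with k' | k' | ⟨a', k'⟩
  · exact Or.inr ⟨_, k'⟩
  · exact Or.inr ⟨_, k'⟩
  have fin : u.1.val = x.1.val → v.1.val = y.1.val → v.2 = y.2 →
      s(u, v) = s(x, y) ∨ ∃ w, q = toR (pos m w) := fun e1 e2 e3 =>
    Or.inl (by rw [upper2_ext e1 (a.trans a'.symm), upper2_ext e2 e3])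
  rcases k with ⟨b, c, k⟩ | ⟨b, c, k⟩ | ⟨b, c, k⟩ | ⟨b, c, k⟩ <;>
    rcases k' with ⟨b', c', k'⟩ | ⟨b', c', k'⟩ | ⟨b', c', k'⟩ | ⟨b', c', k'⟩
  · have := upper2_AA hm k k'
    exact fin this (by omega) (b.trans b'.symm)
  · exact (upper2_CA hm k' k).elim
  · exact (upper2_CA hm k' k).elim
  · exact (upper2_LA hm k' k).elim
  · exact (upper2_CA hm k k').elim
  · have := upper2_CC hm k k'
    exact fin this.2 this.1 (b.trans b'.symm)
  · have := upper2_CC hm k k'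
    omega
  · exact (upper2_LC hm k' k).elim
  · exact (upper2_CA hm k k').elim
  · have := upper2_CC hm k k'
    omega
  · have := upper2_CC hm k k'
    exact fin this.1 this.2 (b.trans b'.symm)
  · exact (upper2_LC hm k' k).elim
  · exact (upper2_LA hm k k').elim
  · exact (upper2_LC hm k k').elim
  · exact (upper2_LC hm k k').elim
  · have := upper2_LL hm k k'
    exact fin this (by omega) (b.trans b'.symm)

/-- Every edge lies in one closed sector `{s E_X + t E_(X-1)}`, `s, t ≥ 0`, and misses the origin: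
arm edges `(j, j+3)`; chords from `(a+1, 0)` to `(0, b+1)` in the coordinates `(s, t)` with
`a ≡ X`, `b = a - 1` or `b = a + 2` (a family monotone in both ends); leaf edges from `(j+1, 0)`
to `(j+1+α, β)`, `1/2 ≤ α ≤ 3/2`, `0 < β ≤ 1/2`, which stay strictly between the chords `(j, j+2)`
and `(j+3, j+2)`. Two sectors share only an arm. Suggested: describe the points of each edge by
`(X, s, t)` as `edge_cases` does in `N/Upper.lean`, prove a uniqueness lemma for `(X, s, t)`, and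
compare chords by `s/(a+1) + t/(b+1) = 1`. You may split the file. -/
theorem planar (m : ℕ) : Planar (G m) (pos m) := by
  have adj : ∀ {u v}, (G m).Adj u v → upper2_r u v ∨ upper2_r v u := fun h =>
    ((SimpleGraph.fromRel_adj _ _ _).1 h).2
  refine ⟨fun u v h => upper2_inj (congrArg toR h), fun u v w h hq => ?_,
    fun u v x y h h' hne q hq hq' => ?_⟩
  · rcases adj h with k | k
    · exact upper2_two k hq
    · rw [segment_symm] at hq
      exact (upper2_two k hq).symm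
  · have hp := hq
    have hp' := hq'
    rw [segment_symm] at hp hp'
    rcases adj h with k | k <;> rcases adj h' with k' | k'
    · exact (upper2_three k k' hq hq').resolve_left hne
    · exact (upper2_three k k' hq hp').resolve_left fun e => hne (e.trans Sym2.eq_swap)
    · exact (upper2_three k k' hp hq').resolve_left fun e => hne (Sym2.eq_swap.trans e)
    · exact (upper2_three k k' hp hp').resolve_left
        fun e => hne (Sym2.eq_swap.trans (e.trans Sym2.eq_swap))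

end Pool.Agent.Work.MP_37ce0f_lc.A
end

-- merged part: Pool.Agent.Work.MP_37ce0f_lc.A.Main
section
namespace Pool.Agent.Work.MP_37ce0f_lc.A

theorem tri_box {u v a s t b W H : ℝ} (u0 : 0 ≤ u) (u1 : u ≤ W) (v0 : 0 ≤ v) (v1 : v ≤ W)
    (a0 : 0 ≤ a) (a1 : a ≤ W) (s0 : 0 ≤ s) (s1 : s ≤ H) (t0 : 0 ≤ t) (t1 : t ≤ H) (b0 : 0 ≤ b)
    (b1 : b ≤ H) : (u - a) * (t - b) - (s - b) * (v - a) ≤ W * H := by
  have W0 : 0 ≤ W := u0.trans u1
  have key : ∀ x c : ℝ, 0 ≤ x → x ≤ W → x * c ≤ W * max c 0 := fun x c h0 h1 =>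
    (mul_le_mul_of_nonneg_left (le_max_left _ _) h0).trans
      (mul_le_mul_of_nonneg_right h1 (le_max_right _ _))
  have k1 := key u (t - b) u0 u1
  have k2 := key v (b - s) v0 v1
  have k3 := key a (s - t) a0 a1
  have k4 : max (t - b) 0 + max (b - s) 0 + max (s - t) 0 ≤ H := by
    simp only [max_def]; split_ifs <;> linarith
  have := mul_le_mul_of_nonneg_left k4 W0
  nlinarith

theorem lower {m : ℕ} (hm : 3 ≤ m) {p : Fin m × Bool → ℤ × ℤ} {W H : ℕ} (hp : Planar (G m) p)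
    (h : IsMono (G m) p) (hb : InBox p W H) : m ^ 3 ≤ 10 ^ 24 * (W * H) := by
  obtain ⟨C, hC⟩ := exists_chain (M := (m - 3) / 6) hp h (by omega)
  obtain ⟨x0, y0, hb⟩ := hb
  have bx : ∀ j, (0 : ℝ) ≤ (C.v j).1 - x0 ∧ ((C.v j).1 : ℝ) - x0 ≤ W ∧ (0 : ℝ) ≤ (C.v j).2 - y0 ∧
      ((C.v j).2 : ℝ) - y0 ≤ H := fun j => by
    obtain ⟨u, e⟩ := hC j
    obtain ⟨h1, h2, h3, h4⟩ := hb u
    rw [e]
    refine ⟨?_, ?_, ?_, ?_⟩
    · exact_mod_cast (by omega : (0 : ℤ) ≤ (p u).1 - x0)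
    · exact_mod_cast (by omega : (p u).1 - x0 ≤ W)
    · exact_mod_cast (by omega : (0 : ℤ) ≤ (p u).2 - y0)
    · exact_mod_cast (by omega : (p u).2 - y0 ≤ H)
  have key : ∀ j, C.a j ≤ W * H := fun j => by
    have A := bx (j + 1)
    have B := bx (j + 2)
    have O := bx j
    have t1 := tri_box A.1 A.2.1 B.1 B.2.1 O.1 O.2.1 A.2.2.1 A.2.2.2 B.2.2.1 B.2.2.2 O.2.2.1 O.2.2.2
    have t2 := tri_box B.1 B.2.1 A.1 A.2.1 O.1 O.2.1 B.2.2.1 B.2.2.2 A.2.2.1 A.2.2.2 O.2.2.1 O.2.2.2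
    unfold Chain.a ar
    push_cast
    rw [abs_le]; constructor <;> linarith only [t1, t2]
  have k1 : (1 : ℝ) ≤ W * H := by
    refine le_trans ?_ (key 0)
    unfold Chain.a
    exact_mod_cast Int.one_le_abs (C.nd 0 (by omega))
  have k1' : 1 ≤ W * H := by exact_mod_cast k1
  have k2 : (((m - 3) / 6 : ℕ) : ℝ) ^ 3 ≤ 10 ^ 21 * (W * H) :=
    C.bound.trans (mul_le_mul_of_nonneg_left (key _) (by positivity))
  have k2' : ((m - 3) / 6) ^ 3 ≤ 10 ^ 21 * (W * H) := by exact_mod_cast k2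
  rcases le_or_gt m 100 with c | c
  · calc m ^ 3 ≤ 100 ^ 3 := Nat.pow_le_pow_left c 3
      _ ≤ _ := by omega
  · calc m ^ 3 ≤ (10 * ((m - 3) / 6)) ^ 3 := Nat.pow_le_pow_left (by omega) 3
      _ = 1000 * ((m - 3) / 6) ^ 3 := by ring
      _ ≤ _ := by omega

end Pool.Agent.Work.MP_37ce0f_lc.A
end
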